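import Mathlib
import Pool.Agent.Work.MP_f3d170_co_h45.Final
import Pool.Agent.Work.MP_f3d170_co_h78.Interface
import Pool.Agent.Work.MP_f3d170_co_helper60b.Low
import Pool.Agent.Work.MP_f3d170_co_helper60b.Encode

/-!
# More bases than circuits in a linear range beyond half rank (MP_f3d170_co, note 2933)

There is `r₀` with `B(n,r) > C(n,r)` for `r ≥ r₀` and `r ≤ n`, `10 n ≤ 21 r`.

Everything is done on the dual side: matroids `N` of rank `j + 1` on `Fin n`, `n = r + (j + 1)`,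
with `h = (flatsOf N j).ncard` hyperplanes and `b = numBases N` bases. `nb N H` is the number of
bases of the flat `H` (h78/Interface), `t = n - 2 r`, `1 ≤ t ≤ r / 10`. Minors `Q = N ／ G` have rank `k + 2` (so `a = k + 2` in the
note), ground set `D = Gᶜ` with `r + k + 2` elements; `g = |G|`, `j = g + k + 1`.
-/

set_option autoImplicit false

open Set Matroid
open Pool.Agent.Work.MP_f3d170_co_h45
open Pool.Agent.Work.MP_f3d170_co_h78 (nb lev)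
open Pool.Agent.Work.MP_f3d170_co_helper60b (trunc LR)

namespace Pool.Agent.Work.MP_f3d170_lin

section Defs

variable {n : ℕ}

/-- The smallest superset of `W` which contains the closures of its subsets with at most `k`
elements. -/
def scl (Q : Matroid (Fin n)) (k : ℕ) (W : Set (Fin n)) : Set (Fin n) :=
  ⋂₀ {K | W ⊆ K ∧ ∀ I ⊆ K, I.ncard ≤ k → Q.closure I ⊆ K}

/-- All subsets of `W` with `k + 1` elements are independent. -/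
def Unif (Q : Matroid (Fin n)) (k : ℕ) (W : Set (Fin n)) : Prop :=
  ∀ J ⊆ W, J.ncard = k + 1 → Q.Indep J

/-- The flats of rank `k + 1` which contain a circuit with `k + 2` elements. -/
def Ho (Q : Matroid (Fin n)) (k : ℕ) : Set (Set (Fin n)) :=
  {H | H ∈ flatsOf Q (k + 1) ∧ ∃ X ⊆ H, Q.IsCircuit X ∧ X.ncard = k + 2}

/-- The flats of type 3. -/
def T3 (Q : Matroid (Fin n)) (k : ℕ) : Set (Set (Fin n)) :=
  {H | H ∈ flatsOf Q (k + 1) ∧ (H \ Q.loops).ncard ≤ (k + 2) ^ 2 ∧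
    ∃ X ⊆ H, Q.IsCircuit X ∧ X.ncard = k + 2 ∧ scl Q k X = H}

open Classical in
/-- The weight of a minor. -/
noncomputable def lam (Q : Matroid (Fin n)) (k w : ℕ) : ℕ :=
  if Q.loops.ncard ≤ w then (T3 Q k).ncard else 0

open Classical in
/-- The weight of the minor `N ／ G`, for independent `G`. -/
noncomputable def lamG (N : Matroid (Fin n)) (G : Finset (Fin n)) (k w : ℕ) : ℕ :=
  if N.Indep (G : Set (Fin n)) then lam (N ／ (G : Set (Fin n))) k w else 0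

/-- The matroids of rank `ρ` with ground set `D`. -/
def LQ (D : Finset (Fin n)) (ρ : ℕ) : Type :=
  {Q : Matroid (Fin n) // Q.E = (D : Set (Fin n)) ∧ Q.eRank = ρ}

/-- The generating function of the weight over all matroids of rank `k + 2` on `D`. -/
noncomputable def Zs (D : Finset (Fin n)) (k w : ℕ) (x : ℝ) : ℝ :=
  ∑ᶠ Q : LQ D (k + 2), x ^ lam Q.1 k w

/-- The independent `j`-sets with small closure of at least `k + 2` bases. -/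
def J2 (N : Matroid (Fin n)) (j k w : ℕ) : Set (Set (Fin n)) :=
  {J | N.Indep J ∧ J.ncard = j ∧ (N.closure J).ncard + (k + 2) ≤ j + 1 + w + (k + 2) ^ 2 ∧
    k + 2 ≤ nb N (N.closure J)}

/-- Packings: any two members have at most `k` common elements. -/
def IsPack (k : ℕ) (P : Finset (Finset (Fin n))) : Prop :=
  ∀ X ∈ P, ∀ Y ∈ P, X ≠ Y → (X ∩ Y).card ≤ k

open Classical in
/-- The generating function of the packings inside `A`. -/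
noncomputable def Zp (k : ℕ) (x : ℝ) (A : Finset (Finset (Fin n))) : ℝ :=
  ∑ P ∈ A.powerset with IsPack k P, x ^ P.card

/-- The subsets of `D` with `k + 2, …, k + 6` elements. -/
def Wset (D : Finset (Fin n)) (k : ℕ) : Finset (Finset (Fin n)) :=
  D.powerset.filter (fun W => k + 2 ≤ W.card ∧ W.card ≤ k + 6)

open Classical in
/-- The family of the bases. -/
noncomputable def Bf (N : Matroid (Fin n)) : Finset (Finset (Fin n)) :=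
  Finset.univ.filter (fun X => N.IsBase (X : Set (Fin n)))

open Classical in
/-- The weight of a family of sets through `G`. -/
noncomputable def fG (g k w : ℕ) (x : ℝ) (G : Finset (Fin n)) (y : Finset (Finset (Fin n))) : ℝ :=
  if h : ∃ N : RankMatroid n (g + k + 1 + 1), (Bf N.1).filter (fun X => G ⊆ X) = y then
    x ^ lamG h.choose.1 G k w else 0

/-- Matroids with `(j+1) b < (m-j) h + (t+2) C(n,j)`, `m` the number of non-loops. -/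
def Bad (t j : ℕ) (N : RankMatroid n (j + 1)) : Prop :=
  (j + 1) * numBases N.1 <
    ((nonloops N.1).ncard - j) * (flatsOf N.1 j).ncard + (t + 2) * n.choose j

instance (D : Finset (Fin n)) (ρ : ℕ) : Finite (LQ D ρ) := Subtype.finite

end Defs

/-! ## The global inequality -/

/-- GIN. From `p_WGE`, `p_NB`, `p_WSUM` of h78: `m - j ≤ wt H` for every hyperplane, and
`wt H ≥ nb H * (n - |H|) ≥ nb H * u` if `|H| + (k+2) ≤ j + 1 + w + (k+2)^2`; `J2` is the disjoint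
union of the sets of bases of these `H` with `nb H ≥ k + 2`, and
`(k+2) (m-j) ≤ (r+1) nb H` for them. (Natural subtraction.) -/
def Stmt_GIN : Prop := ∀ (n j k w r u : ℕ) (N : RankMatroid n (j + 1)), n = r + (j + 1) →
  u + w + (k + 2) ^ 2 = r + (k + 2) →
  (k + 2) * (((nonloops N.1).ncard - j) * (flatsOf N.1 j).ncard) +
      ((k + 2) * u - (r + 1)) * (J2 N.1 j k w).ncard ≤
    (k + 2) * ((j + 1) * numBases N.1)

/-- BADJ (uses GIN). With `w = r / 1000` and `u = r + k + 2 - w - (k+2)^2`: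
`((k+2) u - (r+1)) |J2| < (k+2) (t+2) C(n,j)`. -/
def Stmt_BADJ : Prop := ∃ k₁ : ℕ, ∀ k r t n j : ℕ, k₁ ≤ k → (k + 2) ^ 4 ≤ r → r < (k + 3) ^ 4 →
  n = r + (j + 1) → j + 1 = r + t → 10 * t ≤ r → ∀ N : RankMatroid n (j + 1), Bad t j N →
  10000 * (J2 N.1 j k (r / 1000)).ncard ≤ 1003 * n.choose j

/-- LK. Contraction of an independent set with `g` elements. -/
def Stmt_LK : Prop := ∀ (n g k : ℕ) (N : RankMatroid n (g + k + 1 + 1)) (G : Finset (Fin n)),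
  G.card = g → N.1.Indep (G : Set (Fin n)) →
  (N.1 ／ (G : Set (Fin n))).E = ((Gᶜ : Finset (Fin n)) : Set (Fin n)) ∧
  (N.1 ／ (G : Set (Fin n))).eRank = ((k + 2 : ℕ) : ℕ∞)

/-- LAM. For `H ∈ T3 Q`, `Q = N ／ G`, `X` a circuit of `k + 2` elements in `H`, the `k + 2` sets
`X \ {x}` are bases of `H`; for a basis `J'` of `H` the set `G ∪ J'` is in `J2 N`, its closure is
`H ∪ G`, and all bases of `H` give bases of it. `|H| ≤ w + (k+2)^2`. -/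
def Stmt_LAM : Prop := ∀ (n g k w : ℕ) (N : RankMatroid n (g + k + 1 + 1)) (G : Finset (Fin n)),
  G.card = g →
  (k + 2) * lamG N.1 G k w ≤
    {J | J ∈ J2 N.1 (g + k + 1) k w ∧ (G : Set (Fin n)) ⊆ J}.ncard

/-- SUMG. Double counting of pairs `G ⊆ J`, `|J| = g + k + 1`. -/
def Stmt_SUMG : Prop := ∀ (n g k w : ℕ) (N : RankMatroid n (g + k + 1 + 1)),
  ∑ G ∈ (Finset.univ : Finset (Fin n)).powersetCard g,
      {J | J ∈ J2 N.1 (g + k + 1) k w ∧ (G : Set (Fin n)) ⊆ J}.ncard =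
    (J2 N.1 (g + k + 1) k w).ncard * (g + k + 1).choose g

/-! ## The fractional cover -/

/-- HOL. Hoelder for two summands and `|s|` factors (weighted AM-GM after division). -/
def Stmt_HOL : Prop := ∀ (ι : Type) (s : Finset ι) (u v : ι → ℝ), s.Nonempty →
  (∀ i ∈ s, 0 ≤ u i) → (∀ i ∈ s, 0 ≤ v i) →
  ∏ i ∈ s, u i ^ ((1 : ℝ) / s.card) + ∏ i ∈ s, v i ^ ((1 : ℝ) / s.card) ≤
    ∏ i ∈ s, (u i + v i) ^ ((1 : ℝ) / s.card)

/-- FINNER (uses HOL). Induction on `U` for all `f`: for `ω ∉ U` split the sum over the subsets of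
`insert ω U` (`Finset.sum_powerset_insert`), apply the induction hypothesis to `f` and to
`fun i y => if R i ω then f i (insert ω y) else f i y`, then HOL for the `μ` indices `i` with
`R i ω`; for the others both sums are the same. -/
def Stmt_FINNER : Prop := ∀ (ι Ω : Type) [DecidableEq Ω] (𝒢 : Finset ι) (U : Finset Ω)
  (R : ι → Ω → Bool) (μ : ℕ) (f : ι → Finset Ω → ℝ), 1 ≤ μ →
  (∀ ω ∈ U, (𝒢.filter (fun i => R i ω)).card = μ) → (∀ i y, 0 ≤ f i y) →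
  ∑ β ∈ U.powerset, ∏ i ∈ 𝒢, f i (β.filter (fun ω => R i ω)) ^ ((1 : ℝ) / μ) ≤
    ∏ i ∈ 𝒢, (∑ y ∈ (U.filter (fun ω => R i ω)).powerset, f i y) ^ ((1 : ℝ) / μ)

/-- WD. The bases through `G` determine the minor. -/
def Stmt_WD : Prop := ∀ (n g k w : ℕ) (N N' : RankMatroid n (g + k + 1 + 1))
  (G : Finset (Fin n)), G.card = g →
  (∀ X : Finset (Fin n), G ⊆ X → (N.1.IsBase (X : Set (Fin n)) ↔ N'.1.IsBase (X : Set (Fin n)))) →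
  lamG N.1 G k w = lamG N'.1 G k w ∧
  (N.1.Indep (G : Set (Fin n)) → N'.1.Indep (G : Set (Fin n)) ∧
    N.1 ／ (G : Set (Fin n)) = N'.1 ／ (G : Set (Fin n)))

/-- FGV (uses WD). The value of `fG`. -/
def Stmt_FGV : Prop := ∀ (n g k w : ℕ) (x : ℝ) (N : RankMatroid n (g + k + 1 + 1))
  (G : Finset (Fin n)), G.card = g →
  fG g k w x G ((Bf N.1).filter (fun X => G ⊆ X)) = x ^ lamG N.1 G k w

/-- SLICE (uses WD, LK, FGV). `y = ∅` (`G` dependent) has weight at most `1`; the other `y` with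
`fG y ≠ 0` are the families of the bases through `G` of matroids with `G` independent, they
correspond to different minors `N ／ G` in `LQ Gᶜ (k+2)`, with the weight `x ^ lam (N ／ G)`. -/
def Stmt_SLICE : Prop := ∀ (n g k w : ℕ) (x : ℝ) (G : Finset (Fin n)), 0 < x → x ≤ 1 →
  G.card = g → ∀ 𝒴 : Finset (Finset (Finset (Fin n))),
  ∑ y ∈ 𝒴, fG g k w x G y ≤ 1 + Zs Gᶜ k w x

/-- SHEAR (uses FINNER, SLICE, FGV). `U` = all sets with `g + k + 2` elements, `𝒢` = all `g`-sets,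
`R G X = (G ⊆ X)`, `f = fG g k w x`; the map `N ↦ Bf N` is injective and its values are subsets
of `U`. -/
def Stmt_SHEAR : Prop := ∀ (n g k w : ℕ) (x Z Λ : ℝ), 0 < x → x ≤ 1 → g + k + 2 ≤ n →
  (∀ D : Finset (Fin n), D.card = n - g → Zs D k w x ≤ Z) →
  ∀ S : Set (RankMatroid n (g + k + 1 + 1)),
  (∀ N ∈ S, ((∑ G ∈ (Finset.univ : Finset (Fin n)).powersetCard g, lamG N.1 G k w : ℕ) : ℝ) ≤ Λ) →
  (S.ncard : ℝ) * x ^ (Λ / ((g + k + 2).choose g : ℝ)) ≤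
    (1 + Z) ^ ((n.choose g : ℝ) / ((g + k + 2).choose g : ℝ))

/-! ## Matroids of small rank -/

/-- LOOPY. `Q` with more than `w` loops: choose `w + 1` loops, the bases are a family of
`(k+2)`-subsets of the rest. -/
def Stmt_LOOPY : Prop := ∀ (n k w : ℕ) (D : Finset (Fin n)),
  {Q : LQ D (k + 2) | w < Q.1.loops.ncard}.ncard ≤
    2 ^ D.card * 2 ^ ((D.card - (w + 1)).choose (k + 2))

/-- EXT. A uniform set `W ⊆ H` with at least `k + 2` elements and `scl W ≠ H` can be enlarged by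
any `w₀ ∈ H \ scl W`: a `(k+1)`-subset `insert w₀ I`, `I ⊆ W`, `|I| = k`, is independent since
`closure I ⊆ scl W`. -/
def Stmt_EXT : Prop := ∀ (n k : ℕ) (D : Finset (Fin n)) (Q : LQ D (k + 2)) (H W : Set (Fin n)),
  H ∈ flatsOf Q.1 (k + 1) → W ⊆ H → Unif Q.1 k W → k + 2 ≤ W.ncard → scl Q.1 k W ≠ H →
  ∃ W' ⊆ H, Unif Q.1 k W' ∧ W'.ncard = W.ncard + 1

/-- GEN (uses EXT). -/
def Stmt_GEN : Prop := ∀ (n k : ℕ) (D : Finset (Fin n)) (Q : LQ D (k + 2)), ∀ H ∈ Ho Q.1 k,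
  (∃ W ⊆ H, Unif Q.1 k W ∧ k + 2 ≤ W.ncard ∧ W.ncard ≤ k + 6 ∧ scl Q.1 k W = H) ∨
  (∃ W ⊆ H, Unif Q.1 k W ∧ W.ncard = k + 7)

/-- NBU. Every `(k+1)`-subset of a uniform `W ⊆ H` is a basis of `H`. -/
def Stmt_NBU : Prop := ∀ (n k : ℕ) (D : Finset (Fin n)) (Q : LQ D (k + 2)) (H W : Set (Fin n)),
  H ∈ flatsOf Q.1 (k + 1) → W ⊆ H → Unif Q.1 k W → W.ncard.choose (k + 1) ≤ nb Q.1 H

/-- NBL. A basis of `H` and its exchanges with the other non-loops of `H` (`exists_exchange`). -/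
def Stmt_NBL : Prop := ∀ (n k : ℕ) (D : Finset (Fin n)) (Q : LQ D (k + 2)),
  ∀ H ∈ flatsOf Q.1 (k + 1), (H \ Q.1.loops).ncard ≤ nb Q.1 H + k

/-- NBS. The bases of different flats are different `(k+1)`-subsets of `D`. -/
def Stmt_NBS : Prop := ∀ (n k : ℕ) (D : Finset (Fin n)) (Q : LQ D (k + 2))
  (F : Finset (Set (Fin n))), (∀ H ∈ F, H ∈ flatsOf Q.1 (k + 1)) →
  ∑ H ∈ F, nb Q.1 H ≤ D.card.choose (k + 1)

/-- DEC. A `(k+2)`-set is dependent iff it contains a dependent `(k+1)`-set or lies in a member of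
`Ho`. -/
def Stmt_DEC : Prop := ∀ (n k : ℕ) (D : Finset (Fin n)) (Q Q' : LQ D (k + 2)),
  trunc Q.1 (k + 1) = trunc Q'.1 (k + 1) → Ho Q.1 k = Ho Q'.1 k → Q = Q'

/-- SCT. Closures of sets with at most `k` elements are determined by the truncation. -/
def Stmt_SCT : Prop := ∀ (n k : ℕ) (D : Finset (Fin n)) (Q Q' : LQ D (k + 2)),
  trunc Q.1 (k + 1) = trunc Q'.1 (k + 1) → ∀ W, scl Q.1 k W = scl Q'.1 k W

/-- T3P. Choose a circuit `X` for every member of `T3`. Two of them have at most `k` common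
elements, as `k + 1` common elements would be a basis of both flats. -/
def Stmt_T3P : Prop := ∀ (n k : ℕ) (D : Finset (Fin n)) (Q : LQ D (k + 2)),
  ∃ P : Finset (Finset (Fin n)), P ⊆ D.powersetCard (k + 2) ∧ IsPack k P ∧
    P.card = (T3 Q.1 k).ncard ∧
    T3 Q.1 k = (fun W : Finset (Fin n) => scl Q.1 k (W : Set (Fin n))) ''
      (P : Set (Finset (Fin n)))

/-- CODE (uses EXT, GEN, NBU, NBL, NBS, T3P). Type 3: `T3`, coded by the circuit `X`, a packing.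
Type 2: members of `Ho` not of type 3 with the first alternative of GEN, coded by `W`; they have
`nb ≥ (k+2)^2/2`. Type 1: the rest, coded by themselves, `nb ≥ C(k+7,k+1)`. -/
def Stmt_CODE : Prop := ∀ (n k : ℕ) (D : Finset (Fin n)) (Q : LQ D (k + 2)),
  ∃ H1 V P : Finset (Finset (Fin n)),
    H1 ⊆ D.powerset ∧ H1.card * (k + 7).choose 6 ≤ D.card.choose (k + 1) ∧
    V ⊆ Wset D k ∧ V.card * (k + 2) ^ 2 ≤ 2 * D.card.choose (k + 1) ∧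
    P ⊆ D.powersetCard (k + 2) ∧ IsPack k P ∧ P.card = (T3 Q.1 k).ncard ∧
    Ho Q.1 k = (fun W : Finset (Fin n) => (W : Set (Fin n))) '' (H1 : Set (Finset (Fin n))) ∪
      (fun W : Finset (Fin n) => scl Q.1 k (W : Set (Fin n))) '' (V : Set (Finset (Fin n))) ∪
      (fun W : Finset (Fin n) => scl Q.1 k (W : Set (Fin n))) '' (P : Set (Finset (Fin n)))

/-- FAM. Families with at most `h` members. -/
def Stmt_FAM : Prop := ∀ (α : Type) [DecidableEq α] (U : Finset α) (h : ℕ) (y : ℝ),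
  0 < y → y ≤ 1 →
  ((U.powerset.filter (fun F => F.card ≤ h)).card : ℝ) ≤ (1 / y) ^ h * (1 + y) ^ U.card ∧
  (U.powerset.filter (fun F => F.card ≤ h)).card ≤ (U.card + 1) ^ h

/-- KINJ (uses DEC, SCT, CODE). The map `Q ↦ (trunc Q, H1, V, P)` is injective. -/
def Stmt_KINJ : Prop := ∀ (n k : ℕ) (D : Finset (Fin n)),
  ∃ c : LQ D (k + 2) → LR D (k + 1) × (Finset (Finset (Fin n)) ×
    (Finset (Finset (Fin n)) × Finset (Finset (Fin n)))), Function.Injective c ∧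
    ∀ Q, (c Q).2.1 ⊆ D.powerset ∧
      (c Q).2.1.card ≤ D.card.choose (k + 1) / (k + 7).choose 6 ∧
      (c Q).2.2.1 ⊆ Wset D k ∧ (c Q).2.2.1.card ≤ 2 * D.card.choose (k + 1) / (k + 2) ^ 2 ∧
      (c Q).2.2.2 ⊆ D.powersetCard (k + 2) ∧ IsPack k (c Q).2.2.2 ∧
      (c Q).2.2.2.card = (T3 Q.1 k).ncard

/-- KSUM (uses LOOPY, KINJ, FAM). `lam Q = 0` if `Q` has more than `w` loops, else
`lam Q = |T3 Q|`. -/
def Stmt_KSUM : Prop := ∀ (n k w : ℕ) (D : Finset (Fin n)) (x y : ℝ), 0 < x → x ≤ 1 →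
  0 < y → y ≤ 1 →
  Zs D k w x ≤ 2 ^ D.card * 2 ^ ((D.card - (w + 1)).choose (k + 2)) +
    (Nat.card (LR D (k + 1)) : ℝ) *
    (2 ^ (D.card + 1)) ^ (D.card.choose (k + 1) / (k + 7).choose 6) *
    ((1 / y) ^ (2 * D.card.choose (k + 1) / (k + 2) ^ 2) * (1 + y) ^ (Wset D k).card) *
    Zp k x (D.powersetCard (k + 2))

/-! ## Packings -/

/-- DEG. Double counting: there are `C(m,k+1)` sets `J` with `k + 1` elements; if `c J` members of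
`A` contain `J` then `∑ c J = (k+2) |A|`, `∑ c J (c J - 1) = ∑ degrees`, Cauchy-Schwarz. The degree
of `v` is the number of `u ∈ A`, `u ≠ v`, with `|u ∩ v| > k`. -/
def Stmt_DEG : Prop := ∀ (n k : ℕ) (D : Finset (Fin n)) (A : Finset (Finset (Fin n))),
  A ⊆ D.powersetCard (k + 2) → A.Nonempty →
  ∃ v ∈ A, ((k + 2 : ℕ) : ℝ) ^ 2 * A.card / (D.card.choose (k + 1) : ℝ) - ((k + 2 : ℕ) : ℝ) ≤
    ((A.filter (fun u => u ≠ v ∧ k < (u ∩ v).card)).card : ℝ)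

/-- PREC (uses DEG). `Zp A ≤ Zp (A - v) + Zp (A - v - neighbours of v)` for `0 ≤ x ≤ 1`, and
`Zp A ≤ (1+x)^|A|`. -/
def Stmt_PREC : Prop := ∀ (n k K₀ : ℕ) (x : ℝ) (D : Finset (Fin n)) (Φ : ℕ → ℝ), 0 < x → x ≤ 1 →
  (∀ i, i ≤ K₀ → (1 + x) ^ i ≤ Φ i) →
  (∀ i d : ℕ, K₀ < i → i ≤ D.card.choose (k + 2) → d < i →
    ((k + 2 : ℕ) : ℝ) ^ 2 * i / (D.card.choose (k + 1) : ℝ) - ((k + 2 : ℕ) : ℝ) ≤ (d : ℝ) →
    Φ (i - 1) + Φ (i - 1 - d) ≤ Φ i) →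
  Zp k x (D.powersetCard (k + 2)) ≤ Φ (D.card.choose (k + 2))

/-- PHIA. The potential `Φ i = (1+x)^K (max i (K/2) / K)^κ`. For `i ≤ K`:
`log z ≥ - 2 log 2 (1-z)` for `1/2 ≤ z ≤ 1`. For `i > K` (so `i - 1 ≥ K / 2`):
`Φ (i-1) / Φ i = (1-1/i)^κ ≤ exp(-κ/i) ≤ 1 - κ/(2i)`, and `Φ (i-1-d) / Φ i` is at most
`exp(-κ d/i) ≤ R^(-2) ≤ κ/(2N)` or `(K/(2i))^κ ≤ 2^(-κ) K/i ≤ κ/(2i)`. -/
def Stmt_PHIA : Prop := ∀ (x K κ R δ : ℝ) (N : ℕ), 0 < x → x ≤ 1 → 1 ≤ κ → κ ≤ K → 1 < R →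
  0 < δ → κ * (2 * Real.log 2) ≤ K * Real.log (1 + x) → 2 * K * Real.log R ≤ κ * δ →
  2 * (N : ℝ) ≤ κ * R ^ 2 → K ≤ N → 2 * K ≤ κ * 2 ^ κ →
  ∃ Φ : ℕ → ℝ, (∀ i : ℕ, (i : ℝ) ≤ K → (1 + x) ^ i ≤ Φ i) ∧
    (∀ i d : ℕ, K < i → i ≤ N → d < i → δ * i / K ≤ d → Φ (i - 1) + Φ (i - 1 - d) ≤ Φ i) ∧
    Φ N ≤ (1 + x) ^ K * ((N : ℝ) / K) ^ κ

/-- PHIB. `m = r + k + 2`, `N = C(m,k+2)`, `(r+1) C(m,k+1) = (k+2) N`, `ε₁ = ε / 2`,
`K = (1+ε₁) N/(r+1)`, `δ = (k+2) ε₁`, `κ = 2 K log(r+1)/((k+2) ε₁)`. -/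
def Stmt_PHIB : Prop := ∀ (x ε : ℝ), 0 < x → x ≤ 1 → 0 < ε → ε ≤ 1 → ∃ k₁ : ℕ, ∀ k r : ℕ,
  k₁ ≤ k → (k + 2) ^ 4 ≤ r → r < (k + 3) ^ 4 → ∃ K κ δ : ℝ, 1 ≤ κ ∧ κ ≤ K ∧ 0 < δ ∧
  κ * (2 * Real.log 2) ≤ K * Real.log (1 + x) ∧ 2 * K * Real.log ((r : ℝ) + 1) ≤ κ * δ ∧
  2 * (((r + k + 2).choose (k + 2) : ℕ) : ℝ) ≤ κ * ((r : ℝ) + 1) ^ 2 ∧
  K ≤ (((r + k + 2).choose (k + 2) : ℕ) : ℝ) ∧ 2 * K ≤ κ * 2 ^ κ ∧
  (∀ i : ℕ, K < i → δ * i / K ≤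
    ((k + 2 : ℕ) : ℝ) ^ 2 * i / ((r + k + 2).choose (k + 1) : ℝ) - ((k + 2 : ℕ) : ℝ)) ∧
  (1 + x) ^ K * ((((r + k + 2).choose (k + 2) : ℕ) : ℝ) / K) ^ κ ≤
    Real.exp ((Real.log (1 + x) + ε) * (((r + k + 2).choose (k + 2) : ℕ) : ℝ) / ((r : ℝ) + 1))

/-- PHI (uses PHIA, PHIB). `K₀ = ⌊K⌋`. -/
def Stmt_PHI : Prop := ∀ (x ε : ℝ), 0 < x → x ≤ 1 → 0 < ε → ε ≤ 1 → ∃ k₁ : ℕ, ∀ k r : ℕ,
  k₁ ≤ k → (k + 2) ^ 4 ≤ r → r < (k + 3) ^ 4 → ∃ (K₀ : ℕ) (Φ : ℕ → ℝ),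
  (∀ i, i ≤ K₀ → (1 + x) ^ i ≤ Φ i) ∧
  (∀ i d : ℕ, K₀ < i → i ≤ (r + k + 2).choose (k + 2) → d < i →
    ((k + 2 : ℕ) : ℝ) ^ 2 * i / ((r + k + 2).choose (k + 1) : ℝ) - ((k + 2 : ℕ) : ℝ) ≤ (d : ℝ) →
    Φ (i - 1) + Φ (i - 1 - d) ≤ Φ i) ∧
  Φ ((r + k + 2).choose (k + 2)) ≤
    Real.exp ((Real.log (1 + x) + ε) * (((r + k + 2).choose (k + 2) : ℕ) : ℝ) / ((r : ℝ) + 1))

/-! ## Numerics for small rank; `u = C(r+k+2,k+2)/(r+1)` -/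

/-- N1. `C(r+k+2-w-1,k+2) ≤ exp(-(k+2)/1100) C(r+k+2,k+2)`. -/
def Stmt_N1 : Prop := ∃ k₁ : ℕ, ∀ k r : ℕ, k₁ ≤ k → (k + 2) ^ 4 ≤ r → r < (k + 3) ^ 4 →
  (2 : ℝ) ^ (r + k + 2) * 2 ^ ((r + k + 2 - (r / 1000 + 1)).choose (k + 2)) ≤
    Real.exp (1 / 1000 * (((r + k + 2).choose (k + 2) : ℕ) : ℝ) / ((r : ℝ) + 1))

/-- N2. `card_LR_le` of helper60b/Low: `4 |LR D (k+1)| ≤ (4n)^C(|D|+k+1,k)` for `k ≥ 1`. -/
def Stmt_N2 : Prop := ∃ k₁ : ℕ, ∀ k r n : ℕ, k₁ ≤ k → (k + 2) ^ 4 ≤ r → r < (k + 3) ^ 4 →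
  n ≤ 3 * r → ∀ D : Finset (Fin n), D.card = r + k + 2 →
  (Nat.card (LR D (k + 1)) : ℝ) ≤
    Real.exp (1 / 2000 * (((r + k + 2).choose (k + 2) : ℕ) : ℝ) / ((r : ℝ) + 1))

/-- N3. -/
def Stmt_N3 : Prop := ∃ k₁ : ℕ, ∀ k r : ℕ, k₁ ≤ k → (k + 2) ^ 4 ≤ r → r < (k + 3) ^ 4 →
  ((2 : ℝ) ^ (r + k + 2 + 1)) ^ ((r + k + 2).choose (k + 1) / (k + 7).choose 6) ≤
    Real.exp (1 / 2000 * (((r + k + 2).choose (k + 2) : ℕ) : ℝ) / ((r : ℝ) + 1))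

/-- N4. `y = (k+2)^(-2) (r+k+2)^(-5)`; `|Wset| ≤ 5 C(m,k+1) m^5`, as
`C(m,k+1+i) ≤ C(m,k+1) m^i`. -/
def Stmt_N4 : Prop := ∃ k₁ : ℕ, ∀ k r : ℕ, k₁ ≤ k → (k + 2) ^ 4 ≤ r → r < (k + 3) ^ 4 →
  ∃ y : ℝ, 0 < y ∧ y ≤ 1 ∧ ∀ (n : ℕ) (D : Finset (Fin n)), D.card = r + k + 2 →
  (1 / y) ^ (2 * (r + k + 2).choose (k + 1) / (k + 2) ^ 2) * (1 + y) ^ (Wset D k).card ≤
    Real.exp (1 / 2000 * (((r + k + 2).choose (k + 2) : ℕ) : ℝ) / ((r : ℝ) + 1))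

/-- KMAIN (uses KSUM, PREC, PHI (`x = 1/9`, `ε = 1/1000`), N1, …, N4). `u = C(r+k+2,k+2)/(r+1)`
is large; `1 + e^(u/1000) + e^(3u/2000) e^((log(10/9) + 1/1000) u)` is at most the bound. -/
def Stmt_KMAIN : Prop := ∃ k₁ : ℕ, ∀ k r n : ℕ, k₁ ≤ k → (k + 2) ^ 4 ≤ r → r < (k + 3) ^ 4 →
  n ≤ 3 * r → ∀ D : Finset (Fin n), D.card = r + k + 2 →
  1 + Zs D k (r / 1000) (1 / 9) ≤
    Real.exp ((Real.log (10 / 9) + 1 / 250) * (((r + k + 2).choose (k + 2) : ℕ) : ℝ) /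
      ((r : ℝ) + 1))

/-! ## The end -/

/-- BADC (uses BADJ, LAM, SUMG, SHEAR, KMAIN). `k + 2 = ⌊r^(1/4)⌋`, `w = r / 1000`, `x = 1/9`,
`g = j + 1 - (k+2)` (so `C(n,g) C(r+k+2,k+2) = C(n,j+1) C(j+1,g)`), `Z = exp(…) - 1` of KMAIN,
`Λ = 0.1003 C(n,j) C(g+k+1,g)/(k+2)`, `Λ/μ = 0.1003 C(n,j)/(j+1) = 0.1003 C(n,j+1)/(r+1)` with
`μ = C(g+k+2,g)`, `C(n,g)/μ = C(n,j+1)/C(r+k+2,k+2)`, and
`0.1003 log 9 + log (10/9) + 1/250 ≤ 0.33` (use `3^41 ≤ 2^65`, `(10/9)^46 ≤ 2^7` and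
`log 2 < 0.6931471808`). -/
def Stmt_BADC : Prop := ∃ r₁ : ℕ, ∀ r t n j : ℕ, r₁ ≤ r → n = r + (j + 1) → j + 1 = r + t →
  10 * t ≤ r →
  ({N : RankMatroid n (j + 1) | Bad t j N}.ncard : ℝ) ≤
    Real.exp (33 / 100 * (n.choose (j + 1) : ℝ) / ((r : ℝ) + 1))

/-- TAIL3. From `p_CHAIN` of h78 (`3 ^ d * lev (n - d) ≤ 2 ^ d * lev n`):
`∑_{l ≥ 4} (l-3) (2/3)^l = 16/9`. -/
def Stmt_TAIL3 : Prop := ∀ (n j : ℕ) (𝒩 : Finset (RankMatroid n (j + 1))), IsTransversal 𝒩 →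
  n ≤ 3 * j →
  ∑ M ∈ 𝒩, (n - (nonloops M.1).ncard - 3) * (flatsOf M.1 j).ncard ≤ 2 * lev 𝒩 n

/-- FINL (uses TAIL3, `p_TAIL` of h78 for `𝒩.card ≤ 3 * lev 𝒩 n`, `card_rankMatroid_le` of
helper60/Assemble). For every `M ∈ 𝒩`, with `l` loops,
`(j+1) h + (3 h if l = 0) ≤ (j+1) b + (l-3) h + ((j+4) 2^n if Bad)`: if `M` is not bad then
`(j+1) b ≥ (n-l-j) h + (t+2) h` as `h ≤ C(n,j)`, and `n - j + t + 2 = j + 1 + 3`. -/
def Stmt_FINL : Prop := ∀ (n j r t β : ℕ) (𝒩 : Finset (RankMatroid n (j + 1))),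
  IsTransversal 𝒩 → n = r + (j + 1) → j + 1 = r + t → 1 ≤ t → n ≤ 3 * j →
  {N : RankMatroid n (j + 1) | Bad t j N}.ncard ≤ β →
  3 * (j + 4) * 2 ^ n * β * n.factorial < Nat.card (RankMatroid n (j + 1)) →
  ∑ M ∈ 𝒩, (flatsOf M.1 j).ncard < ∑ M ∈ 𝒩, numBases M.1

/-- NUMF. `ln 2 / 2.1 > 0.33`, `C(n,r) ≥ 2^r`. -/
def Stmt_NUMF : Prop := ∃ r₁ : ℕ, ∀ r t n j : ℕ, r₁ ≤ r → n = r + (j + 1) → j + 1 = r + t →
  1 ≤ t → 10 * t ≤ r → ∀ β : ℕ,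
  (β : ℝ) ≤ Real.exp (33 / 100 * (n.choose (j + 1) : ℝ) / ((r : ℝ) + 1)) →
  3 * (j + 4) * 2 ^ n * β * n.factorial < 2 ^ (n.choose (j + 1) / n)

end Pool.Agent.Work.MP_f3d170_lin
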