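import Mathlib
import Pool.Agent.Work.MP_f3d170_lin.Interface
import Pool.Agent.Work.MP_f3d170_co_h78.Interface

/-! Assembly for MP_f3d170_co, linear range (note 2933). -/

set_option autoImplicit false

open Set Matroid
open Pool.Agent.Work.MP_f3d170_co_h45

namespace Pool.Agent.Work.MP_f3d170_lin

/-- The dual statement: more bases than hyperplanes. -/
theorem dual_main (hBADC : Stmt_BADC) (hFINL : Stmt_FINL) (hNUMF : Stmt_NUMF)
    (hLOWER : Pool.Agent.Work.MP_f3d170_co_h78.Stmt_LOWER) :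
    ∃ r₀ : ℕ, ∀ r t n j : ℕ, r₀ ≤ r → n = r + (j + 1) → j + 1 = r + t → 1 ≤ t → 10 * t ≤ r →
    ∀ 𝒩 : Finset (RankMatroid n (j + 1)), IsTransversal 𝒩 →
    ∑ M ∈ 𝒩, (flatsOf M.1 j).ncard < ∑ M ∈ 𝒩, numBases M.1 := by
  obtain ⟨r₁, h1⟩ := hBADC
  obtain ⟨r₂, h2⟩ := hNUMF
  refine ⟨max r₁ (max r₂ 10), fun r t n j hr hn hj ht htr 𝒩 h𝒩 => ?_⟩
  have hr1 : r₁ ≤ r := le_trans (le_max_left _ _) hr
  have hr2 : r₂ ≤ r := le_trans (le_trans (le_max_left _ _) (le_max_right _ _)) hr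
  have hr3 : 10 ≤ r := le_trans (le_trans (le_max_right _ _) (le_max_right _ _)) hr
  refine hFINL n j r t _ 𝒩 h𝒩 hn hj ht (by omega) le_rfl ?_
  refine lt_of_lt_of_le (h2 r t n j hr2 hn hj ht htr _ (h1 r t n j hr1 hn hj htr)) ?_
  exact hLOWER n j (by omega)

/-- The theorem: more bases than circuits for `10 n ≤ 21 r`. -/
theorem final_main (hBADC : Stmt_BADC) (hFINL : Stmt_FINL) (hNUMF : Stmt_NUMF)
    (hLOWER : Pool.Agent.Work.MP_f3d170_co_h78.Stmt_LOWER) :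
    ∃ r₀ : ℕ, ∀ r n : ℕ, r₀ ≤ r → r ≤ n → 10 * n ≤ 21 * r →
    ∀ 𝒩 : Finset (RankMatroid n r), IsTransversal 𝒩 →
      ∑ M ∈ 𝒩, numCircuits M.1 < ∑ M ∈ 𝒩, numBases M.1 := by
  obtain ⟨r₀, hr₀⟩ := dual_main hBADC hFINL hNUMF hLOWER
  refine ⟨r₀, fun r n hr hrn hn 𝒩 h𝒩 => ?_⟩
  rcases Nat.lt_or_ge (2 * r) n with hlt | hge
  · obtain ⟨j, hj⟩ : ∃ j, n = r + (j + 1) := ⟨n - r - 1, by omega⟩
    obtain ⟨𝒩', h', hs⟩ := h𝒩.dual (k := j + 1) hj.symm
    have h1 := hr₀ r (n - 2 * r) n j hr hj (by omega) (by omega) (by omega) 𝒩' h'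
    rw [hs (fun N => (flatsOf N.1 j).ncard), hs (fun N => numBases N.1)] at h1
    have e1 : ∀ M : RankMatroid n r, (flatsOf (dualRM hj.symm M).1 j).ncard = numCircuits M.1 := by
      intro M
      rw [← numCircuits_dual (dualRM hj.symm M).2.1 (dualRM hj.symm M).2.2]
      simp [dualRM]
    have e2 : ∀ M : RankMatroid n r, numBases (dualRM hj.symm M).1 = numBases M.1 := by
      intro M
      exact numBases_dual M.2.1
    simp only [e1, e2] at h1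
    exact h1
  · exact main_lt hrn hge h𝒩

end Pool.Agent.Work.MP_f3d170_lin
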