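import Pool.Agent.Work.MP_f3d170_lin.Interface

/-! # BADC: the number of bad matroids (helper70) -/

set_option autoImplicit false

open Set Matroid
open Pool.Agent.Work.MP_f3d170_co_h45
open Pool.Agent.Work.MP_f3d170_co_h78 (nb lev)
open Pool.Agent.Work.MP_f3d170_co_helper60b (trunc LR)

namespace Pool.Agent.Work.MP_f3d170_lin

theorem badc_fourth (K r : ℕ) (h : (K + 3) ^ 4 ≤ r) :
    ∃ k, K ≤ k ∧ (k + 2) ^ 4 ≤ r ∧ r < (k + 3) ^ 4 := by
  set s := Nat.sqrt (Nat.sqrt r) with hs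
  have h1 : s ^ 4 ≤ r := by
    have e1 : s ^ 2 ≤ Nat.sqrt r := Nat.sqrt_le' _
    have e2 : (Nat.sqrt r) ^ 2 ≤ r := Nat.sqrt_le' _
    calc s ^ 4 = (s ^ 2) ^ 2 := by ring
      _ ≤ (Nat.sqrt r) ^ 2 := Nat.pow_le_pow_left e1 2
      _ ≤ r := e2
  have h2 : r < (s + 1) ^ 4 := by
    have e1 : Nat.sqrt r < (s + 1) ^ 2 := Nat.lt_succ_sqrt' _
    have e2 : r < (Nat.sqrt r + 1) ^ 2 := Nat.lt_succ_sqrt' _
    calc r < (Nat.sqrt r + 1) ^ 2 := e2
      _ ≤ ((s + 1) ^ 2) ^ 2 := Nat.pow_le_pow_left e1 2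
      _ = (s + 1) ^ 4 := by ring
  have h3 : K + 3 ≤ s := by
    by_contra h4
    have h5 : s + 1 ≤ K + 3 := by omega
    have h6 : (s + 1) ^ 4 ≤ (K + 3) ^ 4 := Nat.pow_le_pow_left h5 4
    omega
  refine ⟨s - 2, by omega, ?_, ?_⟩
  · rw [show s - 2 + 2 = s by omega]
    exact h1
  · rw [show s - 2 + 3 = s + 1 by omega]
    exact h2

theorem badc_num : 1003 / 10000 * Real.log 9 + (Real.log (10 / 9) + 1 / 250) ≤ 33 / 100 := by
  have h2 := Real.log_two_lt_d9
  have h3 : 41 * Real.log 3 ≤ 65 * Real.log 2 := by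
    have : Real.log ((3 : ℝ) ^ 41) ≤ Real.log ((2 : ℝ) ^ 65) :=
      Real.log_le_log (by norm_num) (by norm_num)
    rw [Real.log_pow, Real.log_pow] at this
    exact_mod_cast this
  have h10 : 46 * Real.log (10 / 9) ≤ 7 * Real.log 2 := by
    have : Real.log ((10 / 9 : ℝ) ^ 46) ≤ Real.log ((2 : ℝ) ^ 7) :=
      Real.log_le_log (by norm_num) (by norm_num)
    rw [Real.log_pow, Real.log_pow] at this
    exact_mod_cast this
  have h9 : Real.log 9 = 2 * Real.log 3 := by
    rw [show (9 : ℝ) = 3 ^ 2 by norm_num, Real.log_pow]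
    norm_num
  rw [h9]
  linarith

theorem p_BADC (hBADJ : Stmt_BADJ) (hLAM : Stmt_LAM) (hSUMG : Stmt_SUMG) (hSHEAR : Stmt_SHEAR)
    (hKMAIN : Stmt_KMAIN) : Stmt_BADC := by
  obtain ⟨k1, hJ⟩ := hBADJ
  obtain ⟨k2, hK⟩ := hKMAIN
  refine ⟨(max k1 k2 + 3) ^ 4, ?_⟩
  intro r t n j hr hn hj ht
  obtain ⟨k, hk, hk1, hk2⟩ := badc_fourth (max k1 k2) r hr
  have hkr : k + 2 ≤ r := by
    refine le_trans ?_ hk1
    calc k + 2 = (k + 2) ^ 1 := (pow_one _).symm
      _ ≤ (k + 2) ^ 4 := Nat.pow_le_pow_right (by omega) (by norm_num)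
  obtain ⟨g, rfl⟩ : ∃ g, j = g + k + 1 := ⟨j - (k + 1), by omega⟩
  have hn3 : n ≤ 3 * r := by omega
  have hng : n - g = r + k + 2 := by omega
  set μ : ℝ := ((g + k + 2).choose g : ℝ) with hμ
  have hμ0 : 0 < μ := by
    rw [hμ]
    exact_mod_cast Nat.choose_pos (by omega)
  have hr0 : (0 : ℝ) < (r : ℝ) + 1 := by positivity
  set E : ℝ := (Real.log (10 / 9) + 1 / 250) * (((r + k + 2).choose (k + 2) : ℕ) : ℝ) /
      ((r : ℝ) + 1) with hE
  set Λ : ℝ := 1003 / 10000 * (n.choose (g + k + 1) : ℝ) * ((g + k + 1).choose g : ℝ) /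
      ((k : ℝ) + 2) with hΛ
  have hk0 : (0 : ℝ) < (k : ℝ) + 2 := by positivity
  have hmain := hSHEAR n g k (r / 1000) (1 / 9) (Real.exp E - 1) Λ (by norm_num) (by norm_num)
    (by omega) (by
      intro D hD
      have := hK k r n (le_trans (le_max_right _ _) hk) hk1 hk2 hn3 D (by rw [hD, hng])
      linarith) {N : RankMatroid n (g + k + 1 + 1) | Bad t (g + k + 1) N} (by
      intro N hN
      have h1 := hJ k r t n (g + k + 1) (le_trans (le_max_left _ _) hk) hk1 hk2 hn hj ht N hN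
      have h2 := hSUMG n g k (r / 1000) N
      have h3 : (k + 2) * ∑ G ∈ (Finset.univ : Finset (Fin n)).powersetCard g,
          lamG N.1 G k (r / 1000) ≤
          (J2 N.1 (g + k + 1) k (r / 1000)).ncard * (g + k + 1).choose g := by
        rw [← h2, Finset.mul_sum]
        refine Finset.sum_le_sum fun G hG => ?_
        rw [Finset.mem_powersetCard] at hG
        exact hLAM n g k (r / 1000) N G hG.2
      rw [hΛ, le_div_iff₀ hk0]
      have h4 : (((k + 2) * ∑ G ∈ (Finset.univ : Finset (Fin n)).powersetCard g,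
          lamG N.1 G k (r / 1000) : ℕ) : ℝ) ≤
          (((J2 N.1 (g + k + 1) k (r / 1000)).ncard * (g + k + 1).choose g : ℕ) : ℝ) := by
        exact_mod_cast h3
      have h5 : (10000 : ℝ) * ((J2 N.1 (g + k + 1) k (r / 1000)).ncard : ℝ) ≤
          1003 * (n.choose (g + k + 1) : ℝ) := by exact_mod_cast h1
      have h6 : (0 : ℝ) ≤ ((g + k + 1).choose g : ℝ) := Nat.cast_nonneg _
      rw [Nat.cast_mul, Nat.cast_mul] at h4
      have h7 : ((J2 N.1 (g + k + 1) k (r / 1000)).ncard : ℝ) * ((g + k + 1).choose g : ℝ) ≤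
          1003 / 10000 * (n.choose (g + k + 1) : ℝ) * ((g + k + 1).choose g : ℝ) := by
        refine mul_le_mul_of_nonneg_right ?_ h6
        linarith
      push_cast at h4 ⊢
      linarith)
  -- the two exponents
  have c1 : n.choose (g + k + 1 + 1) * (g + k + 1 + 1) = n.choose (g + k + 1) * (r + 1) := by
    have := Nat.choose_succ_right_eq n (g + k + 1)
    rw [this]
    congr 1
    omega
  have c2 : (g + k + 2).choose g * (k + 2) = (g + k + 1).choose g * (g + k + 2) := by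
    have e1 : (g + k + 2).choose g = (g + k + 2).choose (k + 2) := by
      rw [← Nat.choose_symm_of_eq_add (show g + k + 2 = g + (k + 2) by ring)]
    have e2 : (g + k + 1).choose g = (g + k + 1).choose (k + 1) := by
      rw [← Nat.choose_symm_of_eq_add (show g + k + 1 = g + (k + 1) by ring)]
    rw [e1, e2]
    have := Nat.add_one_mul_choose_eq (g + k + 1) (k + 1)
    rw [show g + k + 1 + 1 = g + k + 2 by ring, show k + 1 + 1 = k + 2 by ring] at this
    rw [← this, mul_comm]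
  have c3 : n.choose (g + k + 2) * (g + k + 2).choose g =
      n.choose g * (r + k + 2).choose (k + 2) := by
    have := Nat.choose_mul (n := n) (k := g + k + 2) (s := g) (by omega)
    rw [this, hng, show g + k + 2 - g = k + 2 by omega]
  have c1r : (n.choose (g + k + 1 + 1) : ℝ) * ((g : ℝ) + k + 2) =
      (n.choose (g + k + 1) : ℝ) * ((r : ℝ) + 1) := by
    have : ((n.choose (g + k + 1 + 1) * (g + k + 1 + 1) : ℕ) : ℝ) =
      ((n.choose (g + k + 1) * (r + 1) : ℕ) : ℝ) := by rw [c1]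
    push_cast at this
    rw [← this]
    ring
  have c2r : μ * ((k : ℝ) + 2) = ((g + k + 1).choose g : ℝ) * ((g : ℝ) + k + 2) := by
    have : (((g + k + 2).choose g * (k + 2) : ℕ) : ℝ) =
      (((g + k + 1).choose g * (g + k + 2) : ℕ) : ℝ) := by rw [c2]
    push_cast at this
    rw [hμ]
    exact this
  have c3r : (n.choose (g + k + 1 + 1) : ℝ) * μ =
      (n.choose g : ℝ) * ((r + k + 2).choose (k + 2) : ℝ) := by
    have : ((n.choose (g + k + 2) * (g + k + 2).choose g : ℕ) : ℝ) =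
      ((n.choose g * (r + k + 2).choose (k + 2) : ℕ) : ℝ) := by rw [c3]
    push_cast at this
    rw [hμ]
    exact this
  have hgk : (0 : ℝ) < (g : ℝ) + k + 2 := by positivity
  set B : ℝ := (n.choose (g + k + 1 + 1) : ℝ) / ((r : ℝ) + 1) with hB
  have hB0 : 0 ≤ B := by positivity
  have d1 : Λ / μ = 1003 / 10000 * B := by
    rw [hΛ, hB, div_div, div_eq_iff (by positivity), mul_comm ((k : ℝ) + 2) μ, c2r]
    rw [div_eq_iff hr0.ne'] at *
    field_simp
    nlinarith [c1r]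
  have d2 : E * ((n.choose g : ℝ) / μ) = (Real.log (10 / 9) + 1 / 250) * B := by
    rw [hE, hB]
    have : (n.choose g : ℝ) * ((r + k + 2).choose (k + 2) : ℝ) / μ =
        (n.choose (g + k + 1 + 1) : ℝ) := by
      rw [div_eq_iff hμ0.ne', c3r]
    rw [← this]
    ring
  have hfin : (1 + (Real.exp E - 1)) ^ ((n.choose g : ℝ) / ((g + k + 2).choose g : ℝ)) =
      Real.exp ((Real.log (10 / 9) + 1 / 250) * B) := by
    rw [← hμ, add_sub_cancel, ← Real.exp_mul, d2]
  have hx : (1 / 9 : ℝ) ^ (Λ / ((g + k + 2).choose g : ℝ)) =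
      Real.exp (-(1003 / 10000 * Real.log 9 * B)) := by
    rw [← hμ, d1, Real.rpow_def_of_pos (by norm_num)]
    congr 1
    rw [one_div, Real.log_inv]
    ring
  rw [hfin, hx, Real.exp_neg, ← div_eq_mul_inv, div_le_iff₀ (Real.exp_pos _),
    ← Real.exp_add] at hmain
  refine hmain.trans (Real.exp_le_exp.2 ?_)
  have e3 : 33 / 100 * (n.choose (g + k + 1 + 1) : ℝ) / ((r : ℝ) + 1) = 33 / 100 * B := by
    rw [hB]; ring
  rw [e3]
  have := mul_le_mul_of_nonneg_right badc_num hB0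
  linarith

end Pool.Agent.Work.MP_f3d170_lin
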