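import Pool.Agent.Work.MP_f3d170_lin.Interface

/-! # Block BADJ (helper87): numerics of the bound for `J2` -/

set_option autoImplicit false

open Set Matroid
open Pool.Agent.Work.MP_f3d170_co_h45
open Pool.Agent.Work.MP_f3d170_co_h78 (nb lev)

namespace Pool.Agent.Work.MP_f3d170_lin

theorem p_BADJ (hGIN : Stmt_GIN) : Stmt_BADJ := by
  refine ⟨1000, ?_⟩
  intro k r t n j hk hr _ hn hj ht N hbad
  set K : ℕ := k + 2 with hK
  have hK1 : 1002 ≤ K := by omega
  set w : ℕ := r / 1000 with hw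
  have hw1 : 1000 * w ≤ r := Nat.mul_div_le r 1000
  have hK2 : K ^ 2 ≤ K ^ 4 := Nat.pow_le_pow_right (by omega) (by norm_num)
  have hK4 : K ^ 2 * 1002 ≤ r := by
    calc K ^ 2 * 1002 ≤ K ^ 2 * K ^ 2 := by
          apply Nat.mul_le_mul_left
          nlinarith
      _ = K ^ 4 := by ring
      _ ≤ r := hr
  have hsum : w + K ^ 2 ≤ r + K := by omega
  obtain ⟨u, hu⟩ : ∃ u, u + w + K ^ 2 = r + K := ⟨r + K - (w + K ^ 2), by omega⟩
  have h1 := hGIN n j k w r u N hn hu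
  unfold Bad at hbad
  set A : ℕ := ((nonloops N.1).ncard - j) * (flatsOf N.1 j).ncard with hA
  set B : ℕ := (j + 1) * numBases N.1 with hB
  set C : ℕ := n.choose j with hC
  set J : ℕ := (J2 N.1 j k w).ncard with hJ
  have h1' : K * A + (K * u - (r + 1)) * J ≤ K * B := h1
  clear_value J C A B w K
  -- real versions
  have hKR : (1002 : ℝ) ≤ K := by exact_mod_cast hK1
  have hrR : (K : ℝ) ^ 4 ≤ r := by exact_mod_cast hr
  have htR : 10 * (t : ℝ) ≤ r := by exact_mod_cast ht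
  have hwR : 1000 * (w : ℝ) ≤ r := by exact_mod_cast hw1
  have huR : (u : ℝ) + w + (K : ℝ) ^ 2 = r + K := by exact_mod_cast hu
  have hJR : (0 : ℝ) ≤ J := Nat.cast_nonneg _
  have hCR : (0 : ℝ) ≤ C := Nat.cast_nonneg _
  have hr0 : (0 : ℝ) ≤ r := Nat.cast_nonneg _
  have hK0 : (0 : ℝ) < K := by linarith
  have hK3 : 1002 * (K : ℝ) ^ 3 ≤ r := by
    calc 1002 * (K : ℝ) ^ 3 ≤ K * (K : ℝ) ^ 3 := by
          apply mul_le_mul_of_nonneg_right hKR (by positivity)
      _ = (K : ℝ) ^ 4 := by ring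
      _ ≤ r := hrR
  have hK20 : 1000000000 * (K : ℝ) ≤ r := by
    have e1 : (1000000 : ℝ) ≤ (K : ℝ) ^ 2 := by nlinarith
    have e2 : 1000000000 * (K : ℝ) ≤ 1002 * (K : ℝ) ^ 3 := by nlinarith
    linarith
  have hrbig : (1000000000 : ℝ) ≤ r := by nlinarith
  have hKr : 1002 * (r : ℝ) ≤ K * r := mul_le_mul_of_nonneg_right hKR hr0
  have hKt : (K : ℝ) * (10 * t) ≤ K * r := mul_le_mul_of_nonneg_left htR hK0.le
  have hKw : (K : ℝ) * (1000 * w) ≤ K * r := mul_le_mul_of_nonneg_left hwR hK0.le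
  have hKu : (K : ℝ) * u = K * r + K ^ 2 - K * w - K ^ 3 := by
    have : (u : ℝ) = r + K - w - (K : ℝ) ^ 2 := by linarith
    rw [this]
    ring
  have hKsq : (0 : ℝ) ≤ (K : ℝ) ^ 2 := by positivity
  have hmain : 10000 * ((K : ℝ) * (t + 2)) ≤ 1003 * (K * u - (r + 1)) := by
    rw [hKu]
    nlinarith
  have hc0 : (0 : ℝ) < K * u - (r + 1) := by
    have : (0 : ℝ) < K * (t + 2) := by positivity
    linarith
  have hnat : r + 1 ≤ K * u := by
    have : ((r + 1 : ℕ) : ℝ) ≤ ((K * u : ℕ) : ℝ) := by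
      push_cast
      linarith
    exact_mod_cast this
  -- the inequality
  have h2 : (K * u - (r + 1)) * J < K * ((t + 2) * C) := by
    have h3 : K * B < K * (A + (t + 2) * C) := Nat.mul_lt_mul_of_pos_left hbad (by omega)
    have h4 : K * (A + (t + 2) * C) = K * A + K * ((t + 2) * C) := by ring
    rw [h4] at h3
    have h5 := h1'
    omega
  have h3 : ((K : ℝ) * u - (r + 1)) * J ≤ K * (t + 2) * C := by
    have e1 : (((K * u - (r + 1)) * J : ℕ) : ℝ) < ((K * ((t + 2) * C) : ℕ) : ℝ) := by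
      exact_mod_cast h2
    rw [Nat.cast_mul, Nat.cast_sub hnat] at e1
    push_cast at e1
    linarith
  have h4 : ((K : ℝ) * u - (r + 1)) * (10000 * J) ≤ ((K : ℝ) * u - (r + 1)) * (1003 * C) := by
    have e1 : 10000 * ((K : ℝ) * (t + 2)) * C ≤ 1003 * (K * u - (r + 1)) * C :=
      mul_le_mul_of_nonneg_right hmain hCR
    nlinarith
  have h5 := le_of_mul_le_mul_left h4 hc0
  exact_mod_cast h5

end Pool.Agent.Work.MP_f3d170_lin
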