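import Pool.Agent.Work.MP_f3d170_lin.Interface

/-! # Block CODE: the code of the flats of rank `k + 1` with a circuit of `k + 2` elements -/

set_option autoImplicit false

open Set Matroid
open Pool.Agent.Work.MP_f3d170_co_h45
open Pool.Agent.Work.MP_f3d170_co_h78 (nb lev)
open Pool.Agent.Work.MP_f3d170_co_helper60b (trunc LR)

namespace Pool.Agent.Work.MP_f3d170_lin

lemma CODE_flat_sub {n k : ℕ} {D : Finset (Fin n)} (Q : LQ D (k + 2)) {H : Set (Fin n)}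
    (hH : H ∈ flatsOf Q.1 (k + 1)) : H ⊆ (D : Set (Fin n)) := by
  obtain ⟨I, hI, -, rfl⟩ := hH
  exact (Q.1.closure_subset_ground I).trans Q.2.1.subset

lemma CODE_dep {n k : ℕ} {D : Finset (Fin n)} (Q : LQ D (k + 2)) {H W : Set (Fin n)}
    (hH : H ∈ flatsOf Q.1 (k + 1)) (hW : W ⊆ H) (hc : W.ncard = k + 2) : ¬ Q.1.Indep W := by
  intro hi
  obtain ⟨I, hI, hIc, rfl⟩ := hH
  have h1 := hi.encard_le_eRk_of_subset hW
  rw [eRk_closure_eq, hI.eRk_eq_encard] at h1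
  have h2 : W.encard = ((k + 2 : ℕ) : ℕ∞) := by
    rw [← (Set.toFinite W).cast_ncard_eq, hc]
  have h3 : I.encard = ((k + 1 : ℕ) : ℕ∞) := by
    rw [← (Set.toFinite I).cast_ncard_eq, hIc]
  rw [h2, h3] at h1
  have h4 : k + 2 ≤ k + 1 := by exact_mod_cast h1
  omega

lemma CODE_two (hNBU : Stmt_NBU) (hNBL : Stmt_NBL) {n k : ℕ} {D : Finset (Fin n)}
    (Q : LQ D (k + 2)) {H W : Set (Fin n)} (hH : H ∈ flatsOf Q.1 (k + 1)) (hT : H ∉ T3 Q.1 k)
    (hW : W ⊆ H) (hU : Unif Q.1 k W) (hc : k + 2 ≤ W.ncard) (hs : scl Q.1 k W = H) :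
    (k + 2) ^ 2 ≤ 2 * nb Q.1 H := by
  rcases Nat.eq_or_lt_of_le hc with he | hlt
  · have hcirc : Q.1.IsCircuit W := by
      rw [isCircuit_iff_dep_forall_sdiff_singleton_indep]
      refine ⟨⟨CODE_dep Q hH hW he.symm, ?_⟩, ?_⟩
      · rw [Q.2.1]
        exact hW.trans (CODE_flat_sub Q hH)
      · intro e hemem
        refine hU _ Set.sdiff_subset ?_
        rw [Set.ncard_sdiff_singleton_of_mem hemem]
        omega
    have hbig : (k + 2) ^ 2 < (H \ Q.1.loops).ncard := by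
      by_contra hcon
      exact hT ⟨hH, not_lt.1 hcon, W, hW, hcirc, he.symm, hs⟩
    have h1 := hNBL n k D Q H hH
    nlinarith
  · have h1 := hNBU n k D Q H W hH hW hU
    have h2 : (k + 3).choose (k + 1) ≤ W.ncard.choose (k + 1) := Nat.choose_le_choose (k + 1) hlt
    have h3 : (k + 3).choose (k + 1) = (k + 3).choose 2 := Nat.choose_symm_of_eq_add (by omega)
    have h4 := Nat.add_one_mul_choose_eq (k + 2) 1
    rw [Nat.choose_one_right] at h4
    have h5 : (k + 2 + 1).choose (1 + 1) = (k + 3).choose 2 := rfl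
    rw [h5] at h4
    nlinarith

open Classical in
theorem p_CODE (hGEN : Stmt_GEN) (hNBU : Stmt_NBU) (hNBL : Stmt_NBL) (hNBS : Stmt_NBS)
    (hT3P : Stmt_T3P) : Stmt_CODE := by
  intro n k D Q
  obtain ⟨P, hP1, hP2, hP3, hP4⟩ := hT3P n k D Q
  let A2 : Set (Set (Fin n)) := {H | H ∈ Ho Q.1 k ∧ H ∉ T3 Q.1 k ∧ ∃ W ⊆ H, Unif Q.1 k W ∧
    k + 2 ≤ W.ncard ∧ W.ncard ≤ k + 6 ∧ scl Q.1 k W = H}
  let A1 : Set (Set (Fin n)) := {H | H ∈ Ho Q.1 k ∧ H ∉ T3 Q.1 k ∧ H ∉ A2}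
  have hT3 : T3 Q.1 k ⊆ Ho Q.1 k := by
    rintro H ⟨h1, -, X, hX, hc, hn, -⟩
    exact ⟨h1, X, hX, hc, hn⟩
  have hHo : Ho Q.1 k = A1 ∪ A2 ∪ T3 Q.1 k := by
    ext H
    constructor
    · intro h
      by_cases h3 : H ∈ T3 Q.1 k
      · exact Or.inr h3
      · by_cases h2 : H ∈ A2
        · exact Or.inl (Or.inr h2)
        · exact Or.inl (Or.inl ⟨h, h3, h2⟩)
    · rintro ((h | h) | h)
      · exact h.1
      · exact h.1
      · exact hT3 h
  have hex : ∀ H, H ∈ A2 → ∃ W, W ⊆ H ∧ Unif Q.1 k W ∧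
      k + 2 ≤ W.ncard ∧ W.ncard ≤ k + 6 ∧ scl Q.1 k W = H := by
    rintro H ⟨-, -, W, h1, h2⟩
    exact ⟨W, h1, h2⟩
  choose! c hc using hex
  have hfA1 : A1.Finite := Set.toFinite A1
  have hfA2 : A2.Finite := Set.toFinite A2
  let F1 : Finset (Set (Fin n)) := hfA1.toFinset
  let F2 : Finset (Set (Fin n)) := hfA2.toFinset
  have hF1 : ∀ H, H ∈ F1 ↔ H ∈ A1 := fun H => hfA1.mem_toFinset
  have hF2 : ∀ H, H ∈ F2 ↔ H ∈ A2 := fun H => hfA2.mem_toFinset
  refine ⟨F1.image (fun H => H.toFinset), F2.image (fun H => (c H).toFinset), P, ?_, ?_, ?_, ?_,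
    hP1, hP2, hP3, ?_⟩
  · intro X hX
    obtain ⟨H, hH, rfl⟩ := Finset.mem_image.1 hX
    rw [Finset.mem_powerset]
    intro x hx
    rw [Set.mem_toFinset] at hx
    exact CODE_flat_sub Q ((hF1 H).1 hH).1.1 hx
  · have h1 : ∀ H ∈ F1, (k + 7).choose 6 ≤ nb Q.1 H := by
      intro H hH
      obtain ⟨a1, a2, a3⟩ := (hF1 H).1 hH
      rcases hGEN n k D Q H a1 with h | ⟨W, hW, hU, hWc⟩
      · exact absurd ⟨a1, a2, h⟩ a3
      · have h2 := hNBU n k D Q H W a1.1 hW hU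
        rw [hWc, Nat.choose_symm_of_eq_add (show k + 7 = (k + 1) + 6 by omega)] at h2
        exact h2
    have h2 := Finset.sum_le_sum h1
    rw [Finset.sum_const, smul_eq_mul] at h2
    have h3 := hNBS n k D Q F1 (fun H hH => ((hF1 H).1 hH).1.1)
    have h4 : (F1.image (fun H => H.toFinset)).card ≤ F1.card := Finset.card_image_le
    calc _ ≤ F1.card * (k + 7).choose 6 := Nat.mul_le_mul_right _ h4
      _ ≤ _ := h2.trans h3
  · intro X hX
    obtain ⟨H, hH, rfl⟩ := Finset.mem_image.1 hX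
    have hA := (hF2 H).1 hH
    obtain ⟨b1, b2, b3, b4, b5⟩ := hc H hA
    unfold Wset
    rw [Finset.mem_filter, Finset.mem_powerset, ← Set.ncard_eq_toFinset_card']
    refine ⟨?_, b3, b4⟩
    intro x hx
    rw [Set.mem_toFinset] at hx
    exact CODE_flat_sub Q hA.1.1 (b1 hx)
  · have h1 : ∀ H ∈ F2, (k + 2) ^ 2 ≤ 2 * nb Q.1 H := by
      intro H hH
      have hA := (hF2 H).1 hH
      obtain ⟨b1, b2, b3, b4, b5⟩ := hc H hA
      exact CODE_two hNBU hNBL Q hA.1.1 hA.2.1 b1 b2 b3 b5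
    have h2 := Finset.sum_le_sum h1
    rw [Finset.sum_const, smul_eq_mul, ← Finset.mul_sum] at h2
    have h3 := hNBS n k D Q F2 (fun H hH => ((hF2 H).1 hH).1.1)
    have h4 : (F2.image (fun H => (c H).toFinset)).card ≤ F2.card := Finset.card_image_le
    calc _ ≤ F2.card * (k + 2) ^ 2 := Nat.mul_le_mul_right _ h4
      _ ≤ _ := h2.trans (Nat.mul_le_mul_left 2 h3)
  · rw [← hP4, hHo]
    congr 1
    congr 1
    · ext H
      constructor
      · intro h
        exact ⟨H.toFinset, Finset.mem_coe.2 (Finset.mem_image.2 ⟨H, (hF1 H).2 h, rfl⟩),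
          Set.coe_toFinset H⟩
      · rintro ⟨X, hX, rfl⟩
        obtain ⟨H, hH, rfl⟩ := Finset.mem_image.1 (Finset.mem_coe.1 hX)
        simp only [Set.coe_toFinset]
        exact (hF1 H).1 hH
    · ext H
      constructor
      · intro h
        refine ⟨(c H).toFinset, Finset.mem_coe.2 (Finset.mem_image.2 ⟨H, (hF2 H).2 h, rfl⟩), ?_⟩
        simp only [Set.coe_toFinset]
        exact (hc H h).2.2.2.2
      · rintro ⟨X, hX, rfl⟩
        obtain ⟨H, hH, rfl⟩ := Finset.mem_image.1 (Finset.mem_coe.1 hX)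
        have hA := (hF2 H).1 hH
        simp only [Set.coe_toFinset]
        rw [(hc H hA).2.2.2.2]
        exact hA

end Pool.Agent.Work.MP_f3d170_lin
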