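import Pool.Agent.Work.MP_f3d170_lin.Interface

/-! # Block DEC (helper96) -/

set_option autoImplicit false

open Set Matroid
open Pool.Agent.Work.MP_f3d170_co_h45
open Pool.Agent.Work.MP_f3d170_co_helper60b (trunc LR trunc_indep)

namespace Pool.Agent.Work.MP_f3d170_lin

theorem DEC_iff {n k : ℕ} (Q : Matroid (Fin n)) {X : Set (Fin n)} (hXE : X ⊆ Q.E)
    (hX : X.ncard = k + 2) :
    ¬ Q.Indep X ↔ (∃ S ⊆ X, S.ncard = k + 1 ∧ ¬ (trunc Q (k + 1)).Indep S) ∨
      ∃ H ∈ Ho Q k, X ⊆ H := by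
  constructor
  · intro hdep
    by_cases hg : ∃ S ⊆ X, S.ncard = k + 1 ∧ ¬ Q.Indep S
    · left
      obtain ⟨S, hS, hc, hi⟩ := hg
      exact ⟨S, hS, hc, fun h => hi (trunc_indep.1 h).1⟩
    · push Not at hg
      right
      have hsub : ∀ e ∈ X, Q.Indep (X \ {e}) := fun e he => hg _ sdiff_subset (by
        rw [ncard_sdiff_singleton_of_mem he]; omega)
      have hcirc : Q.IsCircuit X := by
        rw [isCircuit_iff_dep_forall_sdiff_singleton_indep]
        exact ⟨⟨hdep, hXE⟩, hsub⟩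
      obtain ⟨x, hx⟩ : X.Nonempty := (ncard_pos (toFinite X)).1 (by omega)
      refine ⟨Q.closure X, ⟨⟨X \ {x}, hsub x hx, by rw [ncard_sdiff_singleton_of_mem hx]; omega,
        hcirc.closure_sdiff_singleton_eq x⟩, X, Q.subset_closure X hXE, hcirc, hX⟩,
        Q.subset_closure X hXE⟩
  · rintro (⟨S, hS, hc, hi⟩ | ⟨H, ⟨⟨I, hI, hIc, rfl⟩, -⟩, hXH⟩) hind
    · exact hi (trunc_indep.2 ⟨hind.subset hS, hc.le⟩)
    · have h1 := hind.encard_le_eRk_of_subset hXH
      rw [eRk_closure_eq, hI.eRk_eq_encard, ← (toFinite X).cast_ncard_eq,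
        ← (toFinite I).cast_ncard_eq, hX, hIc] at h1
      have h2 : k + 2 ≤ k + 1 := by exact_mod_cast h1
      omega

theorem p_DEC : Stmt_DEC := by
  rintro n k D ⟨M, hE, hr⟩ ⟨M', hE', hr'⟩ ht hH
  have hbase : ∀ (N : Matroid (Fin n)), N.eRank = ((k + 2 : ℕ) : ℕ∞) → ∀ B : Set (Fin n),
      N.IsBase B ↔ N.Indep B ∧ B.ncard = k + 2 := by
    intro N hrN B
    constructor
    · intro hB
      refine ⟨hB.indep, ?_⟩
      have h1 := hB.encard_eq_eRank
      rw [hrN, ← (Set.toFinite B).cast_ncard_eq] at h1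
      exact_mod_cast h1
    · rintro ⟨hI, hc⟩
      refine hI.isBase_of_eRk_ge (Set.toFinite B) ?_
      rw [hI.eRk_eq_encard, hrN, ← (Set.toFinite B).cast_ncard_eq, hc]
  refine Subtype.ext (Matroid.ext_isBase (by rw [hE, hE']) ?_)
  intro B hB
  have hr1 : M.eRank = ((k + 2 : ℕ) : ℕ∞) := by exact_mod_cast hr
  have hr2 : M'.eRank = ((k + 2 : ℕ) : ℕ∞) := by exact_mod_cast hr'
  rw [hbase M hr1, hbase M' hr2]
  refine and_congr_left fun hc => ?_
  simp only at hB ht hH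
  rw [← not_iff_not, DEC_iff M hB hc, DEC_iff M' (by rw [hE', ← hE]; exact hB) hc, ht, hH]

end Pool.Agent.Work.MP_f3d170_lin
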