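import Pool.Agent.Work.MP_f3d170_lin.Interface

/-!
# DEG: a vertex of large degree (MP_f3d170_co, note 2933)
-/

set_option autoImplicit false

namespace Pool.Agent.Work.MP_f3d170_lin

open Finset

theorem DEG_one {n : ℕ} (k : ℕ) (D u : Finset (Fin n)) (hu : u ⊆ D) (hc : u.card = k + 2) :
    ((D.powersetCard (k + 1)).filter (fun J => J ⊆ u)).card = k + 2 := by
  have h : (D.powersetCard (k + 1)).filter (fun J => J ⊆ u) = u.powersetCard (k + 1) := by
    ext J
    simp only [mem_filter, mem_powersetCard]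
    constructor
    · rintro ⟨⟨_, h2⟩, h3⟩
      exact ⟨h3, h2⟩
    · rintro ⟨h1, h2⟩
      exact ⟨⟨h1.trans hu, h2⟩, h1⟩
  rw [h, card_powersetCard, hc, show k + 2 = (k + 1) + 1 from rfl, Nat.choose_succ_self_right]

theorem DEG_two {n : ℕ} (k : ℕ) (D u v : Finset (Fin n)) (hu : u.card = k + 2)
    (hv : v.card = k + 2) (huv : u ≠ v) :
    ((D.powersetCard (k + 1)).filter (fun J => J ⊆ v ∧ J ⊆ u)).card ≤
      if k < (u ∩ v).card then 1 else 0 := by
  have hlt : (u ∩ v).card < k + 2 := by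
    rcases Nat.lt_or_ge (u ∩ v).card (k + 2) with h | h
    · exact h
    · exfalso
      have h1 : u ∩ v = u := eq_of_subset_of_card_le inter_subset_left (by omega)
      have h2 : u ∩ v = v := eq_of_subset_of_card_le inter_subset_right (by omega)
      exact huv (h1.symm.trans h2)
  have hsub : (D.powersetCard (k + 1)).filter (fun J => J ⊆ v ∧ J ⊆ u) ⊆
      (u ∩ v).powersetCard (k + 1) := by
    intro J
    simp only [mem_filter, mem_powersetCard]
    rintro ⟨⟨_, h2⟩, h3, h4⟩
    exact ⟨subset_inter h4 h3, h2⟩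
  refine (card_le_card hsub).trans ?_
  rw [card_powersetCard]
  split_ifs with h
  · have h3 : (u ∩ v).card = k + 1 := by omega
    rw [h3, Nat.choose_self]
  · rw [Nat.choose_eq_zero_of_lt (by omega)]

theorem p_DEG : Stmt_DEG := by
  classical
  intro n k D A hA hne
  set P := D.powersetCard (k + 1) with hPdef
  have hP : P.card = D.card.choose (k + 1) := card_powersetCard _ _
  have hAD : ∀ u ∈ A, u ⊆ D ∧ u.card = k + 2 := fun u hu => mem_powersetCard.1 (hA hu)
  have h1 : ∑ J ∈ P, (A.filter (fun u => J ⊆ u)).card = A.card * (k + 2) := by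
    have h := Finset.sum_card_bipartiteAbove_eq_sum_card_bipartiteBelow
      (s := P) (t := A) (fun J u => J ⊆ u)
    simp only [Finset.bipartiteAbove, Finset.bipartiteBelow] at h
    rw [h, Finset.sum_congr rfl (fun u hu => DEG_one k D u (hAD u hu).1 (hAD u hu).2)]
    simp
  have h2 : ∑ J ∈ P, (A.filter (fun u => J ⊆ u)).card ^ 2 ≤
      A.card * (k + 2) + ∑ v ∈ A, (A.filter (fun u => u ≠ v ∧ k < (u ∩ v).card)).card := by
    have e1 : ∀ J ∈ P, (A.filter (fun u => J ⊆ u)).card ^ 2 =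
        ∑ v ∈ A, ∑ u ∈ A, if J ⊆ v ∧ J ⊆ u then 1 else 0 := by
      intro J _
      rw [sq]
      have : (A.filter (fun u => J ⊆ u)).card = ∑ v ∈ A, if J ⊆ v then 1 else 0 := by
        rw [Finset.card_filter]
      rw [this, Finset.sum_mul_sum]
      refine Finset.sum_congr rfl fun v _ => Finset.sum_congr rfl fun u _ => ?_
      by_cases a : J ⊆ v <;> by_cases b : J ⊆ u <;> simp [a, b]
    rw [Finset.sum_congr rfl e1, Finset.sum_comm]
    have e2 : ∀ v ∈ A, ∑ J ∈ P, ∑ u ∈ A, (if J ⊆ v ∧ J ⊆ u then 1 else 0) ≤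
        (k + 2) + (A.filter (fun u => u ≠ v ∧ k < (u ∩ v).card)).card := by
      intro v hv
      rw [Finset.sum_comm]
      have e3 : ∀ u ∈ A, ∑ J ∈ P, (if J ⊆ v ∧ J ⊆ u then 1 else 0) ≤
          (if u = v then (k + 2) else 0) + (if u ≠ v ∧ k < (u ∩ v).card then 1 else 0) := by
        intro u hu
        rw [← Finset.card_filter]
        by_cases huv : u = v
        · subst huv
          simp only [if_true, and_self]
          rw [DEG_one k D u (hAD u hu).1 (hAD u hu).2]
          exact Nat.le_add_right _ _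
        · refine (DEG_two k D u v (hAD u hu).2 (hAD v hv).2 huv).trans ?_
          simp [huv]
      refine (Finset.sum_le_sum e3).trans ?_
      rw [Finset.sum_add_distrib, Finset.sum_ite_eq' A v, if_pos hv, ← Finset.card_filter]
    refine (Finset.sum_le_sum e2).trans ?_
    rw [Finset.sum_add_distrib]
    simp
  have h3 := sq_sum_le_card_mul_sum_sq (s := P) (f := fun J => (A.filter (fun u => J ⊆ u)).card)
  rw [h1, hP] at h3
  have h4 := h3.trans (Nat.mul_le_mul_left _ h2)
  obtain ⟨u₀, hu₀⟩ := hne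
  have hC : 0 < D.card.choose (k + 1) := by
    apply Nat.choose_pos
    have := card_le_card (hAD u₀ hu₀).1
    have := (hAD u₀ hu₀).2
    omega
  by_contra hcon
  push Not at hcon
  have hCR : (0 : ℝ) < (D.card.choose (k + 1) : ℝ) := by exact_mod_cast hC
  have h5 : ((∑ v ∈ A, (A.filter (fun u => u ≠ v ∧ k < (u ∩ v).card)).card : ℕ) : ℝ) <
      ∑ v ∈ A, (((k + 2 : ℕ) : ℝ) ^ 2 * A.card / (D.card.choose (k + 1) : ℝ) -
        ((k + 2 : ℕ) : ℝ)) := by
    push_cast
    apply Finset.sum_lt_sum_of_nonempty ⟨u₀, hu₀⟩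
    intro v hv
    have := hcon v hv
    push_cast at this
    exact this
  rw [Finset.sum_const, nsmul_eq_mul] at h5
  have h6 : (((A.card * (k + 2)) ^ 2 : ℕ) : ℝ) ≤ ((D.card.choose (k + 1) * (A.card * (k + 2) +
    ∑ v ∈ A, (A.filter (fun u => u ≠ v ∧ k < (u ∩ v).card)).card) : ℕ) : ℝ) := by
    exact_mod_cast h4
  set S := ∑ v ∈ A, (A.filter (fun u => u ≠ v ∧ k < (u ∩ v).card)).card with hS
  push_cast at h5 h6
  set C := (D.card.choose (k + 1) : ℝ) with hCdef
  have h7 : C * (S : ℝ) < C * ((A.card : ℝ) * (((k : ℝ) + 2) ^ 2 * A.card / C - ((k : ℝ) + 2))) :=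
    mul_lt_mul_of_pos_left h5 hCR
  have h8 : C * ((A.card : ℝ) * (((k : ℝ) + 2) ^ 2 * A.card / C - ((k : ℝ) + 2))) =
      ((A.card : ℝ) * ((k : ℝ) + 2)) ^ 2 - C * ((A.card : ℝ) * ((k : ℝ) + 2)) := by
    field_simp
  rw [h8] at h7
  nlinarith

end Pool.Agent.Work.MP_f3d170_lin
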