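import Pool.Agent.Work.MP_f3d170_lin.Interface

/-! # Block EXT (helper62) -/

set_option autoImplicit false

open Set Matroid
open Pool.Agent.Work.MP_f3d170_co_h45
open Pool.Agent.Work.MP_f3d170_co_h78 (nb lev)
open Pool.Agent.Work.MP_f3d170_co_helper60b (trunc LR)

namespace Pool.Agent.Work.MP_f3d170_lin

theorem EXT_subset {n k : ℕ} {Q : Matroid (Fin n)} {H W : Set (Fin n)}
    (hH : H ∈ flatsOf Q (k + 1)) (hW : W ⊆ H) : scl Q k W ⊆ H := by
  intro x hx
  refine hx H ⟨hW, fun I hI _ => ?_⟩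
  obtain ⟨J, hJ, hJc, rfl⟩ := hH
  have := Q.closure_subset_closure hI
  rwa [Matroid.closure_closure] at this

theorem EXT_self {n k : ℕ} {Q : Matroid (Fin n)} {W : Set (Fin n)} : W ⊆ scl Q k W :=
  fun _ hx _ hK => hK.1 hx

theorem EXT_cl {n k : ℕ} {Q : Matroid (Fin n)} {W I : Set (Fin n)} (hI : I ⊆ W)
    (hc : I.ncard ≤ k) : Q.closure I ⊆ scl Q k W :=
  fun _ hx K hK => hK.2 I (hI.trans hK.1) hc hx

theorem p_EXT : Stmt_EXT := by
  classical
  intro n k D Q H W hH hWH hU hc hne
  have hex : ∃ w ∈ H, w ∉ scl Q.1 k W := by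
    by_contra hcon
    push Not at hcon
    exact hne (Set.Subset.antisymm (EXT_subset hH hWH) hcon)
  obtain ⟨w, hwH, hws⟩ := hex
  have hwW : w ∉ W := fun h => hws (EXT_self h)
  have hHE : H ⊆ Q.1.E := by
    obtain ⟨J, hJ, hJc, rfl⟩ := hH
    exact Q.1.closure_subset_ground J
  refine ⟨insert w W, Set.insert_subset hwH hWH, ?_, Set.ncard_insert_of_notMem hwW (Set.toFinite _)⟩
  intro J hJ hJc
  by_cases hwJ : w ∈ J
  · have hIW : J \ {w} ⊆ W := by
      rintro x ⟨hx, hxw⟩
      rcases hJ hx with h | h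
      · exact absurd h hxw
      · exact h
    have hIc : (J \ {w}).ncard = k := by
      rw [Set.ncard_sdiff_singleton_of_mem hwJ, hJc]
      rfl
    have hIi : Q.1.Indep (J \ {w}) := by
      obtain ⟨y, hyW, hyI⟩ : ∃ y ∈ W, y ∉ J \ {w} := by
        by_contra hcon
        push Not at hcon
        have := Set.ncard_le_ncard (show W ⊆ J \ {w} from hcon) (Set.toFinite _)
        omega
      have h1 := hU (insert y (J \ {w})) (Set.insert_subset hyW hIW)
        (by rw [Set.ncard_insert_of_notMem hyI (Set.toFinite _), hIc])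
      exact h1.subset (Set.subset_insert _ _)
    have hwc : w ∉ Q.1.closure (J \ {w}) := fun h => hws (EXT_cl hIW hIc.le h)
    have h2 : Q.1.Indep (insert w (J \ {w})) := by
      rw [hIi.insert_indep_iff_of_notMem (fun h => h.2 rfl)]
      exact ⟨hHE hwH, hwc⟩
    rwa [Set.insert_sdiff_singleton, Set.insert_eq_of_mem hwJ] at h2
  · refine hU J (fun x hx => ?_) hJc
    rcases hJ hx with h | h
    · exact absurd (h ▸ hx) hwJ
    · exact h

end Pool.Agent.Work.MP_f3d170_lin
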