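import Pool.Agent.Work.MP_f3d170_lin.Interface

/-! # Block FAM (helper96) -/

set_option autoImplicit false

namespace Pool.Agent.Work.MP_f3d170_lin

theorem FAM_one (α : Type) [DecidableEq α] (U : Finset α) (h : ℕ) (y : ℝ) (h0 : 0 < y)
    (h1 : y ≤ 1) :
    ((U.powerset.filter (fun F => F.card ≤ h)).card : ℝ) ≤ (1 / y) ^ h * (1 + y) ^ U.card := by
  have e1 : (1 + y) ^ U.card = ∑ F ∈ U.powerset, y ^ F.card := by
    have := Finset.sum_pow_mul_eq_add_pow y 1 U
    rw [add_comm, ← this]
    refine Finset.sum_congr rfl fun F _ => ?_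
    rw [one_pow, mul_one]
  rw [e1, Finset.mul_sum, Finset.card_eq_sum_ones, Nat.cast_sum]
  calc ∑ F ∈ U.powerset.filter (fun F => F.card ≤ h), ((1 : ℕ) : ℝ)
      ≤ ∑ F ∈ U.powerset.filter (fun F => F.card ≤ h), (1 / y) ^ h * y ^ F.card := by
        refine Finset.sum_le_sum fun F hF => ?_
        have hc := (Finset.mem_filter.1 hF).2
        rw [Nat.cast_one, one_div, inv_pow]
        have hp : 0 < y ^ h := pow_pos h0 h
        rw [← div_eq_inv_mul, le_div_iff₀ hp, one_mul]
        exact pow_le_pow_of_le_one h0.le h1 hc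
    _ ≤ ∑ F ∈ U.powerset, (1 / y) ^ h * y ^ F.card :=
        Finset.sum_le_sum_of_subset_of_nonneg (Finset.filter_subset _ _)
          fun F _ _ => by positivity

theorem FAM_two (α : Type) [DecidableEq α] (U : Finset α) (h : ℕ) :
    (U.powerset.filter (fun F => F.card ≤ h)).card ≤ (U.card + 1) ^ h := by
  have hs : U.powerset.filter (fun F => F.card ≤ h) ⊆
      (Finset.range (h + 1)).biUnion (fun i => U.powersetCard i) := by
    intro F hF
    rw [Finset.mem_filter, Finset.mem_powerset] at hF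
    rw [Finset.mem_biUnion]
    exact ⟨F.card, Finset.mem_range.2 (by omega), Finset.mem_powersetCard.2 ⟨hF.1, rfl⟩⟩
  refine (Finset.card_le_card hs).trans (Finset.card_biUnion_le.trans ?_)
  rw [add_pow]
  refine Finset.sum_le_sum fun i hi => ?_
  rw [Finset.card_powersetCard, one_pow, mul_one, Nat.cast_id]
  have h1 : U.card.choose i ≤ U.card ^ i := Nat.choose_le_pow _ _
  have h2 : 1 ≤ h.choose i := Nat.choose_pos (by have := Finset.mem_range.1 hi; omega)
  calc U.card.choose i ≤ U.card ^ i := h1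
    _ = U.card ^ i * 1 := (mul_one _).symm
    _ ≤ U.card ^ i * h.choose i := Nat.mul_le_mul_left _ h2

theorem p_FAM : Stmt_FAM := fun α _ U h y h0 h1 => ⟨FAM_one α U h y h0 h1, FAM_two α U h⟩

end Pool.Agent.Work.MP_f3d170_lin
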