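import Pool.Agent.Work.MP_f3d170_lin.Interface

/-! Block FGV: the value of `fG`. -/

set_option autoImplicit false

open Set Matroid
open Pool.Agent.Work.MP_f3d170_co_h45
open Pool.Agent.Work.MP_f3d170_co_h78 (nb lev)
open Pool.Agent.Work.MP_f3d170_co_helper60b (trunc LR)

namespace Pool.Agent.Work.MP_f3d170_lin

theorem FGV_mem {n : ℕ} (N : Matroid (Fin n)) (X : Finset (Fin n)) :
    X ∈ Bf N ↔ N.IsBase (X : Set (Fin n)) := by
  classical
  unfold Bf
  exact ⟨fun h => (Finset.mem_filter.mp h).2,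
    fun h => Finset.mem_filter.mpr ⟨Finset.mem_univ _, h⟩⟩

theorem p_FGV (hWD : Stmt_WD) : Stmt_FGV := by
  classical
  intro n g k w x N G hG
  have h : ∃ N' : RankMatroid n (g + k + 1 + 1),
      (Bf N'.1).filter (fun X => G ⊆ X) = (Bf N.1).filter (fun X => G ⊆ X) := ⟨N, rfl⟩
  unfold fG
  rw [dif_pos h]
  have hs := h.choose_spec
  have key : lamG h.choose.1 G k w = lamG N.1 G k w := by
    refine (hWD n g k w h.choose N G hG ?_).1
    intro X hX
    have h1 : X ∈ (Bf h.choose.1).filter (fun X => G ⊆ X) ↔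
        X ∈ (Bf N.1).filter (fun X => G ⊆ X) := by rw [hs]
    rw [Finset.mem_filter, Finset.mem_filter, FGV_mem, FGV_mem] at h1
    exact ⟨fun h2 => (h1.mp ⟨h2, hX⟩).1, fun h2 => (h1.mpr ⟨h2, hX⟩).1⟩
  rw [key]

end Pool.Agent.Work.MP_f3d170_lin
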