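import Pool.Agent.Work.MP_f3d170_lin.Interface

set_option autoImplicit false

open Set Matroid
open Pool.Agent.Work.MP_f3d170_co_h45

namespace Pool.Agent.Work.MP_f3d170_lin

/-- The fractional cover inequality. -/
theorem p_FINNER (hHOL : Stmt_HOL) : Stmt_FINNER := by
  intro ι Ω _ 𝒢 U R μ f hμ hcov hf
  induction U using Finset.induction_on generalizing f with
  | empty => simp
  | @insert ω U hω ih =>
    have hcov' : ∀ ω' ∈ U, (𝒢.filter (fun i => R i ω')).card = μ :=
      fun ω' h => hcov ω' (Finset.mem_insert_of_mem h)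
    have hcard : (𝒢.filter (fun i => R i ω = true)).card = μ :=
      hcov ω (Finset.mem_insert_self _ _)
    set f' : ι → Finset Ω → ℝ := fun i y => if R i ω = true then f i (insert ω y) else f i y
      with hf'
    have hf'0 : ∀ i y, 0 ≤ f' i y := by
      intro i y
      simp only [hf']
      split_ifs
      · exact hf _ _
      · exact hf _ _
    have h1 := ih f hcov' hf
    have h2 := ih f' hcov' hf'0
    rw [Finset.sum_powerset_insert hω]
    have e2 : ∑ β ∈ U.powerset, ∏ i ∈ 𝒢,
        f i ((insert ω β).filter (fun ω => R i ω = true)) ^ ((1 : ℝ) / μ) =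
        ∑ β ∈ U.powerset, ∏ i ∈ 𝒢, f' i (β.filter (fun ω => R i ω = true)) ^ ((1 : ℝ) / μ) := by
      refine Finset.sum_congr rfl fun β _ => Finset.prod_congr rfl fun i _ => ?_
      simp only [hf']
      rw [Finset.filter_insert]
      by_cases h : R i ω = true
      · simp only [h, if_true]
      · simp only [h]
        rfl
    rw [e2]
    refine (add_le_add h1 h2).trans ?_
    set A : ι → ℝ := fun i => ∑ y ∈ (U.filter (fun ω => R i ω = true)).powerset, f i y with hA
    set B : ι → ℝ := fun i => ∑ y ∈ (U.filter (fun ω => R i ω = true)).powerset, f' i y with hB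
    have hA0 : ∀ i, 0 ≤ A i := fun i => Finset.sum_nonneg fun y _ => hf i y
    have hB0 : ∀ i, 0 ≤ B i := fun i => Finset.sum_nonneg fun y _ => hf'0 i y
    have hBn : ∀ i, ¬ (R i ω = true) → B i = A i := by
      intro i h
      simp only [hA, hB, hf', h]
      rfl
    have hCn : ∀ i, ¬ (R i ω = true) →
        ∑ y ∈ ((insert ω U).filter (fun ω => R i ω = true)).powerset, f i y = A i := by
      intro i h
      rw [Finset.filter_insert, if_neg h]
    have hCp : ∀ i, R i ω = true →
        ∑ y ∈ ((insert ω U).filter (fun ω => R i ω = true)).powerset, f i y = A i + B i := by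
      intro i h
      rw [Finset.filter_insert, if_pos h, Finset.sum_powerset_insert
        (fun h' => hω (Finset.mem_filter.mp h').1)]
      simp only [hA, hB, hf', h, if_true]
    have hsplit : ∀ g : ι → ℝ, ∏ i ∈ 𝒢, g i = (∏ i ∈ 𝒢.filter (fun i => R i ω = true), g i) *
        ∏ i ∈ 𝒢.filter (fun i => ¬ (R i ω = true)), g i :=
      fun g => (Finset.prod_filter_mul_prod_filter_not 𝒢 (fun i => R i ω = true) g).symm
    rw [hsplit (fun i => A i ^ ((1 : ℝ) / μ)), hsplit (fun i => B i ^ ((1 : ℝ) / μ)),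
      hsplit (fun i => (∑ y ∈ ((insert ω U).filter (fun ω => R i ω = true)).powerset, f i y) ^
        ((1 : ℝ) / μ))]
    have e3 : ∏ i ∈ 𝒢.filter (fun i => ¬ (R i ω = true)), B i ^ ((1 : ℝ) / μ) =
        ∏ i ∈ 𝒢.filter (fun i => ¬ (R i ω = true)), A i ^ ((1 : ℝ) / μ) :=
      Finset.prod_congr rfl fun i hi => by rw [hBn i (Finset.mem_filter.mp hi).2]
    have e4 : ∏ i ∈ 𝒢.filter (fun i => ¬ (R i ω = true)),
        (∑ y ∈ ((insert ω U).filter (fun ω => R i ω = true)).powerset, f i y) ^ ((1 : ℝ) / μ) =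
        ∏ i ∈ 𝒢.filter (fun i => ¬ (R i ω = true)), A i ^ ((1 : ℝ) / μ) :=
      Finset.prod_congr rfl fun i hi => by rw [hCn i (Finset.mem_filter.mp hi).2]
    have e5 : ∏ i ∈ 𝒢.filter (fun i => R i ω = true),
        (∑ y ∈ ((insert ω U).filter (fun ω => R i ω = true)).powerset, f i y) ^ ((1 : ℝ) / μ) =
        ∏ i ∈ 𝒢.filter (fun i => R i ω = true), (A i + B i) ^ ((1 : ℝ) / μ) :=
      Finset.prod_congr rfl fun i hi => by rw [hCp i (Finset.mem_filter.mp hi).2]
    rw [e3, e4, e5, ← add_mul]
    apply mul_le_mul_of_nonneg_right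
    · have hne : (𝒢.filter (fun i => R i ω = true)).Nonempty := by
        rw [← Finset.card_pos, hcard]
        omega
      have := hHOL ι (𝒢.filter (fun i => R i ω = true)) A B hne (fun i _ => hA0 i)
        (fun i _ => hB0 i)
      rwa [hcard] at this
    · exact Finset.prod_nonneg fun i _ => Real.rpow_nonneg (hA0 i) _

end Pool.Agent.Work.MP_f3d170_lin
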