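import Pool.Agent.Work.MP_f3d170_lin.Interface

/-! # Block GEN (helper62) -/

set_option autoImplicit false

open Set Matroid
open Pool.Agent.Work.MP_f3d170_co_h45
open Pool.Agent.Work.MP_f3d170_co_h78 (nb lev)
open Pool.Agent.Work.MP_f3d170_co_helper60b (trunc LR)

namespace Pool.Agent.Work.MP_f3d170_lin

theorem p_GEN (hEXT : Stmt_EXT) : Stmt_GEN := by
  classical
  intro n k D Q H hH
  obtain ⟨hHf, X, hXH, hX, hXc⟩ := hH
  have key : ∀ i : ℕ, i ≤ 5 →
      (∃ W ⊆ H, Unif Q.1 k W ∧ k + 2 ≤ W.ncard ∧ W.ncard ≤ k + 6 ∧ scl Q.1 k W = H) ∨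
      (∃ W ⊆ H, Unif Q.1 k W ∧ W.ncard = k + 2 + i) := by
    intro i
    induction i with
    | zero =>
      intro _
      refine Or.inr ⟨X, hXH, ?_, hXc⟩
      intro J hJ hJc
      refine hX.ssubset_indep (lt_of_le_of_ne hJ ?_)
      rintro rfl
      omega
    | succ i ih =>
      intro hi
      rcases ih (by omega) with h | ⟨W, hWH, hU, hc⟩
      · exact Or.inl h
      · by_cases hs : scl Q.1 k W = H
        · exact Or.inl ⟨W, hWH, hU, by omega, by omega, hs⟩
        · obtain ⟨W', hW', hU', hc'⟩ := hEXT n k D Q H W hHf hWH hU (by omega) hs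
          exact Or.inr ⟨W', hW', hU', by omega⟩
  rcases key 5 le_rfl with h | ⟨W, h1, h2, h3⟩
  · exact Or.inl h
  · exact Or.inr ⟨W, h1, h2, by omega⟩

end Pool.Agent.Work.MP_f3d170_lin
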