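import Pool.Agent.Work.MP_f3d170_lin.Interface
import Pool.Agent.Work.MP_f3d170_co_h78.B_WGE
import Pool.Agent.Work.MP_f3d170_co_h78.B_WSUM
import Pool.Agent.Work.MP_f3d170_co_h78.B_NB

/-! # GIN: the global inequality -/

set_option autoImplicit false

open Set Matroid
open Pool.Agent.Work.MP_f3d170_co_h45
open Pool.Agent.Work.MP_f3d170_co_h78 (nb wt stmt_WGE stmt_WSUM stmt_NB)

namespace Pool.Agent.Work.MP_f3d170_lin

theorem p_GIN : Stmt_GIN := by
  classical
  intro n j k w r u N hn hu
  have hfin : (flatsOf N.1 j).Finite := Set.toFinite _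
  set m : ℕ := (nonloops N.1).ncard with hm
  have hmn : m ≤ n := by
    have := Set.ncard_le_ncard (Set.subset_univ (nonloops N.1)) (Set.toFinite _)
    rw [Set.ncard_univ, Nat.card_eq_fintype_card, Fintype.card_fin] at this
    exact this
  set S : Set (Fin n) → Prop := fun H =>
    H.ncard + (k + 2) ≤ j + 1 + w + (k + 2) ^ 2 ∧ k + 2 ≤ nb N.1 H with hS
  -- `J2` is a disjoint union
  have hJ2 : (J2 N.1 j k w).ncard = ∑ H ∈ hfin.toFinset.filter S, nb N.1 H := by
    have hJf : (J2 N.1 j k w).Finite := Set.toFinite _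
    rw [Set.ncard_eq_toFinset_card _ hJf]
    rw [Finset.card_eq_sum_card_fiberwise (f := fun J => N.1.closure J)
      (t := hfin.toFinset.filter S)]
    · refine Finset.sum_congr rfl fun H hH => ?_
      rw [Finset.mem_filter, Set.Finite.mem_toFinset] at hH
      have hnf : {I | N.1.Indep I ∧ N.1.closure I = H}.Finite := Set.toFinite _
      unfold nb
      rw [Set.ncard_eq_toFinset_card _ hnf]
      congr 1
      ext J
      rw [Finset.mem_filter, Set.Finite.mem_toFinset, Set.Finite.mem_toFinset]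
      constructor
      · rintro ⟨h1, h2⟩
        exact ⟨h1.1, h2⟩
      · rintro ⟨h1, h2⟩
        refine ⟨⟨h1, Pool.Agent.Work.MP_f3d170_co_h78.NB_ncard hH.1 h1 h2, ?_, ?_⟩, h2⟩
        · rw [h2]
          exact hH.2.1
        · rw [h2]
          exact hH.2.2
    · intro J hJ
      have hJ' : J ∈ J2 N.1 j k w := (Set.Finite.mem_toFinset _).1 hJ
      have : N.1.closure J ∈ hfin.toFinset.filter S := by
        rw [Finset.mem_filter, Set.Finite.mem_toFinset]
        exact ⟨⟨J, hJ'.1, hJ'.2.1, rfl⟩, hJ'.2.2.1, hJ'.2.2.2⟩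
      exact this
  have hcard : (flatsOf N.1 j).ncard = hfin.toFinset.card := Set.ncard_eq_toFinset_card _ hfin
  -- pointwise inequality
  have hpt : ∀ H ∈ hfin.toFinset,
      (k + 2) * (m - j) + ((k + 2) * u - (r + 1)) * (if S H then nb N.1 H else 0) ≤
        (k + 2) * wt N.1 H := by
    intro H hH
    rw [Set.Finite.mem_toFinset] at hH
    have h1 := stmt_WGE n j N H hH
    rw [← hm] at h1
    have h2 := stmt_NB n j N H hH
    by_cases hSH : S H
    · rw [if_pos hSH]
      have h3 : u ≤ n - H.ncard := by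
        have := hSH.1
        omega
      have h4 : nb N.1 H * u ≤ wt N.1 H := (Nat.mul_le_mul_left _ h3).trans h2
      by_cases h5 : r + 1 ≤ (k + 2) * u
      · have h6 : (k + 2) * (m - j) ≤ (r + 1) * nb N.1 H := by
          rw [mul_comm]
          exact Nat.mul_le_mul (by omega) hSH.2
        calc (k + 2) * (m - j) + ((k + 2) * u - (r + 1)) * nb N.1 H
            ≤ (r + 1) * nb N.1 H + ((k + 2) * u - (r + 1)) * nb N.1 H :=
              Nat.add_le_add_right h6 _
          _ = ((r + 1) + ((k + 2) * u - (r + 1))) * nb N.1 H := (add_mul _ _ _).symm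
          _ = (k + 2) * u * nb N.1 H := by rw [Nat.add_sub_cancel' h5]
          _ = (k + 2) * (nb N.1 H * u) := by ring
          _ ≤ (k + 2) * wt N.1 H := Nat.mul_le_mul_left _ h4
      · have h6 : (k + 2) * u - (r + 1) = 0 := by omega
        rw [h6, zero_mul, add_zero]
        exact Nat.mul_le_mul_left _ (by omega)
    · rw [if_neg hSH, mul_zero, add_zero]
      exact Nat.mul_le_mul_left _ (by omega)
  have hsum := Finset.sum_le_sum hpt
  rw [Finset.sum_add_distrib, Finset.sum_const, smul_eq_mul, ← Finset.mul_sum,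
    ← Finset.sum_filter, ← hJ2, ← Finset.mul_sum, ← hcard] at hsum
  have hW := stmt_WSUM n j N hfin.toFinset
  calc (k + 2) * ((m - j) * (flatsOf N.1 j).ncard) +
        ((k + 2) * u - (r + 1)) * (J2 N.1 j k w).ncard
      = (flatsOf N.1 j).ncard * ((k + 2) * (m - j)) +
        ((k + 2) * u - (r + 1)) * (J2 N.1 j k w).ncard := by ring
    _ ≤ (k + 2) * ∑ H ∈ hfin.toFinset, wt N.1 H := hsum
    _ ≤ (k + 2) * ((j + 1) * numBases N.1) := Nat.mul_le_mul_left _ hW

end Pool.Agent.Work.MP_f3d170_lin
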