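import Pool.Agent.Work.MP_f3d170_lin.Interface

/-! # Block HOL (helper87): Hoelder's inequality for two summands -/

set_option autoImplicit false

open Set Matroid

namespace Pool.Agent.Work.MP_f3d170_lin

theorem p_HOL : Stmt_HOL := by
  intro ι s u v hs hu hv
  have hN : (0 : ℝ) < s.card := by exact_mod_cast hs.card_pos
  set w : ℝ := 1 / s.card with hw
  have hw0 : 0 < w := by positivity
  have hRHS : ∀ z : ι → ℝ, (∀ i ∈ s, 0 ≤ z i) → 0 ≤ ∏ i ∈ s, z i ^ w :=
    fun z hz => Finset.prod_nonneg fun i hi => Real.rpow_nonneg (hz i hi) _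
  by_cases h : ∃ i ∈ s, u i + v i = 0
  · obtain ⟨i, hi, h0⟩ := h
    have hu0 : u i = 0 := by linarith [hu i hi, hv i hi]
    have hv0 : v i = 0 := by linarith [hu i hi, hv i hi]
    rw [Finset.prod_eq_zero hi (by rw [hu0, Real.zero_rpow hw0.ne']),
      Finset.prod_eq_zero hi (by rw [hv0, Real.zero_rpow hw0.ne']), add_zero]
    exact hRHS (fun i => u i + v i) fun i hi => add_nonneg (hu i hi) (hv i hi)
  · have hpos : ∀ i ∈ s, 0 < u i + v i := by
      intro i hi
      rcases (add_nonneg (hu i hi) (hv i hi)).eq_or_lt with h1 | h1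
      · exact absurd ⟨i, hi, h1.symm⟩ h
      · exact h1
    have hP : 0 ≤ ∏ i ∈ s, (u i + v i) ^ w :=
      hRHS (fun i => u i + v i) fun i hi => (hpos i hi).le
    have key : ∀ z : ι → ℝ, (∀ i ∈ s, 0 ≤ z i) → ∏ i ∈ s, z i ^ w ≤
        (∑ i ∈ s, w * (z i / (u i + v i))) * ∏ i ∈ s, (u i + v i) ^ w := by
      intro z hz
      have e1 : ∏ i ∈ s, z i ^ w =
          (∏ i ∈ s, (z i / (u i + v i)) ^ w) * ∏ i ∈ s, (u i + v i) ^ w := by
        rw [← Finset.prod_mul_distrib]
        apply Finset.prod_congr rfl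
        intro i hi
        rw [← Real.mul_rpow (div_nonneg (hz i hi) (hpos i hi).le) (hpos i hi).le,
          div_mul_cancel₀ _ (hpos i hi).ne']
      rw [e1]
      apply mul_le_mul_of_nonneg_right _ hP
      exact Real.geom_mean_le_arith_mean_weighted s (fun _ => w)
        (fun i => z i / (u i + v i)) (fun _ _ => hw0.le)
        (by
          rw [Finset.sum_const, nsmul_eq_mul, hw]
          field_simp)
        (fun i hi => div_nonneg (hz i hi) (hpos i hi).le)
    have h3 : ∑ i ∈ s, w * (u i / (u i + v i)) + ∑ i ∈ s, w * (v i / (u i + v i)) = 1 := by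
      rw [← Finset.sum_add_distrib, Finset.sum_congr rfl (g := fun _ => w)]
      · rw [Finset.sum_const, nsmul_eq_mul, hw]
        field_simp
      · intro i hi
        rw [← mul_add, ← add_div, div_self (hpos i hi).ne', mul_one]
    calc ∏ i ∈ s, u i ^ w + ∏ i ∈ s, v i ^ w
        ≤ (∑ i ∈ s, w * (u i / (u i + v i))) * ∏ i ∈ s, (u i + v i) ^ w +
          (∑ i ∈ s, w * (v i / (u i + v i))) * ∏ i ∈ s, (u i + v i) ^ w :=
          add_le_add (key u hu) (key v hv)
      _ = ∏ i ∈ s, (u i + v i) ^ w := by rw [← add_mul, h3, one_mul]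

end Pool.Agent.Work.MP_f3d170_lin
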