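import Pool.Agent.Work.MP_f3d170_lin.Interface

/-! # Block KINJ (helper62) -/

set_option autoImplicit false

open Set Matroid
open Pool.Agent.Work.MP_f3d170_co_h45
open Pool.Agent.Work.MP_f3d170_co_h78 (nb lev)
open Pool.Agent.Work.MP_f3d170_co_helper60b (trunc LR)

namespace Pool.Agent.Work.MP_f3d170_lin

theorem p_KINJ (hDEC : Stmt_DEC) (hSCT : Stmt_SCT) (hCODE : Stmt_CODE) : Stmt_KINJ := by
  classical
  intro n k D
  have hC := hCODE n k D
  choose H1 V P h1 h2 h3 h4 h5 h6 h7 h8 using hC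
  have hE : ∀ Q : LQ D (k + 2), (trunc Q.1 (k + 1)).E ⊆ (D : Set (Fin n)) ∧
      (trunc Q.1 (k + 1)).eRank ≤ ((k + 1 : ℕ) : ℕ∞) := by
    intro Q
    refine ⟨?_, Pool.Agent.Work.MP_f3d170_co_helper60b.trunc_eRank Q.1⟩
    have : (trunc Q.1 (k + 1)).E = Q.1.E := rfl
    rw [this, Q.2.1]
  refine ⟨fun Q => (⟨trunc Q.1 (k + 1), hE Q⟩, (H1 Q, (V Q, P Q))), ?_, ?_⟩
  · intro Q Q' he
    have et : trunc Q.1 (k + 1) = trunc Q'.1 (k + 1) :=
      congrArg (fun z : LR D (k + 1) × (Finset (Finset (Fin n)) ×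
        (Finset (Finset (Fin n)) × Finset (Finset (Fin n)))) => z.1.1) he
    have e2 : H1 Q = H1 Q' := congrArg (fun z => z.2.1) he
    have e3 : V Q = V Q' := congrArg (fun z => z.2.2.1) he
    have e4 : P Q = P Q' := congrArg (fun z => z.2.2.2) he
    have hs := hSCT n k D Q Q' et
    refine hDEC n k D Q Q' et ?_
    rw [h8 Q, h8 Q', e2, e3, e4]
    congr 1
    · congr 1
      exact congrArg (fun f => f '' (V Q' : Set (Finset (Fin n)))) (funext fun W => hs _)
    · exact congrArg (fun f => f '' (P Q' : Set (Finset (Fin n)))) (funext fun W => hs _)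
  · intro Q
    refine ⟨h1 Q, ?_, h3 Q, ?_, h5 Q, h6 Q, h7 Q⟩
    · rw [Nat.le_div_iff_mul_le (Nat.choose_pos (by omega))]
      exact h2 Q
    · rw [Nat.le_div_iff_mul_le (by positivity)]
      exact h4 Q

end Pool.Agent.Work.MP_f3d170_lin
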