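import Pool.Agent.Work.MP_f3d170_lin.Interface

/-! # Block KMAIN: the generating function of the minors (helper18) -/

set_option autoImplicit false

open Set Matroid
open Pool.Agent.Work.MP_f3d170_co_h45
open Pool.Agent.Work.MP_f3d170_co_h78 (nb lev)
open Pool.Agent.Work.MP_f3d170_co_helper60b (trunc LR)

namespace Pool.Agent.Work.MP_f3d170_lin

theorem KMAIN_choose (r s : ℕ) : (r + 2).choose 2 ≤ (r + (s + 2)).choose (s + 2) := by
  induction s with
  | zero => simp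
  | succ s ih =>
    refine ih.trans ?_
    have e : r + (s + 1 + 2) = (r + (s + 2)) + 1 := by ring
    have e2 : s + 1 + 2 = (s + 2) + 1 := by ring
    rw [e, e2, Nat.choose_succ_succ]
    exact Nat.le_add_right _ _

theorem p_KMAIN (hK : Stmt_KSUM) (hP : Stmt_PREC) (hPhi : Stmt_PHI) (h1 : Stmt_N1)
    (h2 : Stmt_N2) (h3 : Stmt_N3) (h4 : Stmt_N4) : Stmt_KMAIN := by
  obtain ⟨a0, H0⟩ := hPhi (1 / 9) (1 / 1000) (by norm_num) (by norm_num) (by norm_num)
    (by norm_num)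
  obtain ⟨a1, H1⟩ := h1
  obtain ⟨a2, H2⟩ := h2
  obtain ⟨a3, H3⟩ := h3
  obtain ⟨a4, H4⟩ := h4
  refine ⟨max (max (max a0 a1) (max a2 a3)) (max a4 5), ?_⟩
  intro k r n hk hr hr' hn D hD
  have hk0 : a0 ≤ k := by omega
  have hk1 : a1 ≤ k := by omega
  have hk2 : a2 ≤ k := by omega
  have hk3 : a3 ≤ k := by omega
  have hk4 : a4 ≤ k := by omega
  have hk5 : 5 ≤ k := by omega
  obtain ⟨K₀, Φ, g1, g2, g3⟩ := H0 k r hk0 hr hr'
  obtain ⟨y, hy0, hy1, g4⟩ := H4 k r hk4 hr hr'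
  have e1 := H1 k r hk1 hr hr'
  have e2 := H2 k r n hk2 hr hr' hn D hD
  have e3 := H3 k r hk3 hr hr'
  have e4 := g4 n D hD
  have e5 := hP n k K₀ (1 / 9) D Φ (by norm_num) (by norm_num) g1 (by rw [hD]; exact g2)
  rw [hD] at e5
  have e6 := hK n k (r / 1000) D (1 / 9) y (by norm_num) (by norm_num) hy0 hy1
  rw [hD] at e6
  set N : ℕ := (r + k + 2).choose (k + 2) with hN
  set U : ℝ := (N : ℝ) / ((r : ℝ) + 1) with hU
  have hr1 : (0 : ℝ) < (r : ℝ) + 1 := by positivity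
  -- `U` is large
  have hr2 : 2401 ≤ r := by
    have : 7 ^ 4 ≤ (k + 2) ^ 4 := Nat.pow_le_pow_left (by omega) 4
    omega
  have hU0 : 1000 ≤ U := by
    rw [hU, le_div_iff₀ hr1]
    have c1 : (r + 2).choose 2 ≤ N := by
      have := KMAIN_choose r k
      rw [hN]
      have e : r + k + 2 = r + (k + 2) := by ring
      rw [e]
      exact this
    have c2 : 1000 * (r + 1) ≤ (r + 2).choose 2 := by
      rw [Nat.choose_two_right]
      have e : r + 2 - 1 = r + 1 := by omega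
      rw [e, Nat.le_div_iff_mul_le (by norm_num)]
      nlinarith
    have c3 : 1000 * (r + 1) ≤ N := c2.trans c1
    have : ((1000 * (r + 1) : ℕ) : ℝ) ≤ (N : ℝ) := by exact_mod_cast c3
    push_cast at this
    exact this
  have f1 : (1 : ℝ) / 1000 * (N : ℝ) / ((r : ℝ) + 1) = U / 1000 := by rw [hU]; ring
  have f2 : (1 : ℝ) / 2000 * (N : ℝ) / ((r : ℝ) + 1) = U / 2000 := by rw [hU]; ring
  have f3 : (Real.log (1 + 1 / 9) + 1 / 1000) * (N : ℝ) / ((r : ℝ) + 1) =
      (Real.log (10 / 9) + 1 / 1000) * U := by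
    have : (1 : ℝ) + 1 / 9 = 10 / 9 := by norm_num
    rw [this, hU]
    ring
  have f4 : (Real.log (10 / 9) + 1 / 250) * (N : ℝ) / ((r : ℝ) + 1) =
      (Real.log (10 / 9) + 1 / 250) * U := by rw [hU]; ring
  rw [f1] at e1
  rw [f2] at e2 e3 e4
  rw [f3] at g3
  rw [f4]
  have hlog : 0 ≤ Real.log (10 / 9) := Real.log_nonneg (by norm_num)
  set ℓ : ℝ := Real.log (10 / 9) with hℓ
  -- the main term
  have m0 : ∀ (A B C E a b c e : ℝ), 0 ≤ A → 0 ≤ B → 0 ≤ C → A ≤ Real.exp a → B ≤ Real.exp b →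
      C ≤ Real.exp c → E ≤ Real.exp e → A * B * C * E ≤ Real.exp (a + b + c + e) := by
    intro A B C E a b c e hA hB hC h1 h2 h3 h4
    rw [Real.exp_add, Real.exp_add, Real.exp_add]
    have i1 : A * B ≤ Real.exp a * Real.exp b := mul_le_mul h1 h2 hB (Real.exp_pos _).le
    have i2 : A * B * C ≤ Real.exp a * Real.exp b * Real.exp c :=
      mul_le_mul i1 h3 hC (by positivity)
    calc A * B * C * E ≤ A * B * C * Real.exp e :=
          mul_le_mul_of_nonneg_left h4 (by positivity)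
      _ ≤ Real.exp a * Real.exp b * Real.exp c * Real.exp e :=
          mul_le_mul_of_nonneg_right i2 (Real.exp_pos _).le
  have m1 := m0 _ _ _ _ _ _ _ _ (Nat.cast_nonneg _) (by positivity) (by positivity) e2 e3 e4
    (e5.trans g3)
  have m2 : U / 2000 + U / 2000 + U / 2000 + (ℓ + 1 / 1000) * U = (ℓ + 1 / 400) * U := by ring
  rw [m2] at m1
  have m3 : Real.exp (U / 1000) ≤ Real.exp ((ℓ + 1 / 400) * U) := by
    apply Real.exp_le_exp.mpr
    have : 0 ≤ ℓ * U := mul_nonneg hlog (by linarith)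
    linarith
  have m4 : 1 ≤ Real.exp ((ℓ + 1 / 400) * U) := by
    apply Real.one_le_exp
    have : 0 ≤ ℓ * U := mul_nonneg hlog (by linarith)
    linarith
  have m5 : 3 * Real.exp ((ℓ + 1 / 400) * U) ≤ Real.exp ((ℓ + 1 / 250) * U) := by
    have i1 : (ℓ + 1 / 250) * U = 3 / 2000 * U + (ℓ + 1 / 400) * U := by ring
    rw [i1, Real.exp_add]
    apply mul_le_mul_of_nonneg_right _ (Real.exp_pos _).le
    have i2 : (1 : ℝ) + 1 ≤ Real.exp 1 := by
      have := Real.add_one_le_exp (1 : ℝ)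
      linarith
    have i3 : (3 : ℝ) ≤ Real.exp (3 / 2) := by
      have := Real.quadratic_le_exp_of_nonneg (show (0 : ℝ) ≤ 3 / 2 by norm_num)
      linarith
    exact i3.trans (Real.exp_le_exp.mpr (by linarith))
  calc 1 + Zs D k (r / 1000) (1 / 9) ≤ 1 + (Real.exp (U / 1000) +
        Real.exp ((ℓ + 1 / 400) * U)) := by
        have := e6.trans (add_le_add e1 m1)
        linarith
    _ ≤ 3 * Real.exp ((ℓ + 1 / 400) * U) := by linarith
    _ ≤ _ := m5

end Pool.Agent.Work.MP_f3d170_lin
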