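import Pool.Agent.Work.MP_f3d170_lin.Interface

/-!
# KSUM: the sum over all matroids of rank k + 2 (MP_f3d170_co, note 2933)
-/

set_option autoImplicit false

namespace Pool.Agent.Work.MP_f3d170_lin

open Pool.Agent.Work.MP_f3d170_co_helper60b (LR)

theorem KSUM_prod {α β : Type} (S : Finset α) (A B C : Finset (Finset β))
    (f : Finset β → ℝ) :
    ∑ t ∈ S ×ˢ (A ×ˢ (B ×ˢ C)), f t.2.2.2 =
      (S.card : ℝ) * ((A.card : ℝ) * ((B.card : ℝ) * ∑ P ∈ C, f P)) := by
  rw [Finset.sum_product]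
  simp only [Finset.sum_product, Finset.sum_const, nsmul_eq_mul]

theorem p_KSUM (hL : Stmt_LOOPY) (hK : Stmt_KINJ) (hF : Stmt_FAM) : Stmt_KSUM := by
  classical
  intro n k w D x y hx0 hx1 hy0 hy1
  obtain ⟨c, hc, hcp⟩ := hK n k D
  have i1 : Fintype (LQ D (k + 2)) := Fintype.ofFinite _
  have i2 : Fintype (LR D (k + 1)) := Fintype.ofFinite _
  unfold Zs
  rw [finsum_eq_sum_of_fintype]
  set h1 := D.card.choose (k + 1) / (k + 7).choose 6 with hh1
  set h2 := 2 * D.card.choose (k + 1) / (k + 2) ^ 2 with hh2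
  set A := D.powerset.powerset.filter (fun F => F.card ≤ h1) with hA
  set B := (Wset D k).powerset.filter (fun F => F.card ≤ h2) with hB
  set C := (D.powersetCard (k + 2)).powerset.filter (fun P => IsPack k P) with hC
  have hterm : ∀ Q : LQ D (k + 2), x ^ lam Q.1 k w ≤
      (if w < Q.1.loops.ncard then (1 : ℝ) else 0) + x ^ (c Q).2.2.2.card := by
    intro Q
    have hp : (0 : ℝ) ≤ x ^ (c Q).2.2.2.card := by positivity
    unfold lam
    by_cases h : Q.1.loops.ncard ≤ w
    · rw [if_pos h, if_neg (by omega), (hcp Q).2.2.2.2.2.2]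
      simp
    · rw [if_neg h, if_pos (by omega)]
      simpa using hp
  have hs1 : ∑ Q : LQ D (k + 2), (if w < Q.1.loops.ncard then (1 : ℝ) else 0) ≤
      2 ^ D.card * 2 ^ ((D.card - (w + 1)).choose (k + 2)) := by
    have e : ∑ Q : LQ D (k + 2), (if w < Q.1.loops.ncard then (1 : ℝ) else 0) =
        (({Q : LQ D (k + 2) | w < Q.1.loops.ncard}.ncard : ℕ) : ℝ) := by
      rw [Finset.sum_boole, Set.ncard_eq_toFinset_card']
      congr 2
      ext Q
      simp
    rw [e]
    exact_mod_cast hL n k w D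
  have hs2 : ∑ Q : LQ D (k + 2), x ^ (c Q).2.2.2.card ≤
      (Nat.card (LR D (k + 1)) : ℝ) * ((A.card : ℝ) * ((B.card : ℝ) * ∑ P ∈ C, x ^ P.card)) := by
    have e0 : ∑ Q : LQ D (k + 2), x ^ (c Q).2.2.2.card =
        ∑ t ∈ Finset.univ.image c, x ^ t.2.2.2.card := by
      rw [Finset.sum_image (fun a _ b _ h => hc h)]
    rw [e0, Nat.card_eq_fintype_card, ← Finset.card_univ,
      ← KSUM_prod Finset.univ A B C (fun P => x ^ P.card)]
    apply Finset.sum_le_sum_of_subset_of_nonneg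
    · intro t ht
      obtain ⟨Q, _, rfl⟩ := Finset.mem_image.1 ht
      obtain ⟨a1, a2, a3, a4, a5, a6, _⟩ := hcp Q
      simp only [Finset.mem_product, Finset.mem_univ, true_and, hA, hB, hC, Finset.mem_filter,
        Finset.mem_powerset]
      exact ⟨⟨a1, a2⟩, ⟨a3, a4⟩, a5, a6⟩
    · intro t _ _
      positivity
  have hAc : (A.card : ℝ) ≤ (2 ^ (D.card + 1)) ^ h1 := by
    have h := (hF (Finset (Fin n)) D.powerset h1 1 one_pos le_rfl).2
    have h3 : (D.powerset.card + 1) ^ h1 ≤ (2 ^ (D.card + 1)) ^ h1 := by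
      apply Nat.pow_le_pow_left
      rw [Finset.card_powerset, pow_succ]
      have := Nat.one_le_two_pow (n := D.card)
      omega
    have h4 : A.card ≤ (2 ^ (D.card + 1)) ^ h1 := by
      refine le_trans ?_ (h.trans h3)
      apply le_of_eq
      rw [hA]
    exact_mod_cast h4
  have hBc : (B.card : ℝ) ≤ (1 / y) ^ h2 * (1 + y) ^ (Wset D k).card := by
    have h := (hF (Finset (Fin n)) (Wset D k) h2 y hy0 hy1).1
    refine le_trans ?_ h
    apply le_of_eq
    rw [hB]
  have hCz : ∑ P ∈ C, x ^ P.card = Zp k x (D.powersetCard (k + 2)) := by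
    unfold Zp
    rw [hC]
  have hZ0 : 0 ≤ Zp k x (D.powersetCard (k + 2)) := by
    unfold Zp
    exact Finset.sum_nonneg fun P _ => by positivity
  calc ∑ Q : LQ D (k + 2), x ^ lam Q.1 k w
      ≤ ∑ Q : LQ D (k + 2), ((if w < Q.1.loops.ncard then (1 : ℝ) else 0) +
          x ^ (c Q).2.2.2.card) := Finset.sum_le_sum fun Q _ => hterm Q
    _ = ∑ Q : LQ D (k + 2), (if w < Q.1.loops.ncard then (1 : ℝ) else 0) +
          ∑ Q : LQ D (k + 2), x ^ (c Q).2.2.2.card := Finset.sum_add_distrib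
    _ ≤ 2 ^ D.card * 2 ^ ((D.card - (w + 1)).choose (k + 2)) +
          (Nat.card (LR D (k + 1)) : ℝ) *
            ((A.card : ℝ) * ((B.card : ℝ) * ∑ P ∈ C, x ^ P.card)) := add_le_add hs1 hs2
    _ ≤ _ := by
        rw [hCz]
        refine add_le_add le_rfl ?_
        have e1 : (Nat.card (LR D (k + 1)) : ℝ) * (2 ^ (D.card + 1)) ^ h1 *
            ((1 / y) ^ h2 * (1 + y) ^ (Wset D k).card) * Zp k x (D.powersetCard (k + 2)) =
            (Nat.card (LR D (k + 1)) : ℝ) * ((2 ^ (D.card + 1)) ^ h1 *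
            (((1 / y) ^ h2 * (1 + y) ^ (Wset D k).card) * Zp k x (D.powersetCard (k + 2)))) := by
          ring
        rw [e1]
        apply mul_le_mul_of_nonneg_left _ (Nat.cast_nonneg _)
        apply mul_le_mul hAc _ (by positivity) (by positivity)
        exact mul_le_mul_of_nonneg_right hBc hZ0

end Pool.Agent.Work.MP_f3d170_lin
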