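import Pool.Agent.Work.MP_f3d170_lin.Interface

/-! # Block LAM (helper46) -/

set_option autoImplicit false

open Set Matroid
open Pool.Agent.Work.MP_f3d170_co_h45
open Pool.Agent.Work.MP_f3d170_co_h78 (nb lev)
open Pool.Agent.Work.MP_f3d170_co_helper60b (trunc LR)

namespace Pool.Agent.Work.MP_f3d170_lin

/-- an independent subset of the right size spans the flat -/
theorem LAM_cl {n : ℕ} {Q : Matroid (Fin n)} {k : ℕ} {H J : Set (Fin n)} (hH : H ∈ flatsOf Q k)
    (hJ : Q.Indep J) (hJH : J ⊆ H) (hc : J.ncard = k) : Q.closure J = H := by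
  obtain ⟨I, hI, hIc, rfl⟩ := hH
  obtain ⟨J', hJ', hJJ'⟩ := hJ.subset_isBasis_of_subset hJH (Q.closure_subset_ground I)
  have hIb : Q.IsBasis I (Q.closure I) := hI.isBasis_closure
  have hcard := ncard_eq_of_isBasis hIb hJ'
  have hEq : J = J' := Set.eq_of_subset_of_ncard_le hJJ' (by rw [← hcard, hIc, hc]) (Set.toFinite _)
  rw [hEq, hJ'.closure_eq_closure, Matroid.closure_closure]

theorem LAM_one {n g k w : ℕ} (N : RankMatroid n (g + k + 1 + 1)) (G : Finset (Fin n))
    (hG : G.card = g) (hGi : N.1.Indep (G : Set (Fin n)))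
    (hw : (N.1 ／ (G : Set (Fin n))).loops.ncard ≤ w) {H X : Set (Fin n)}
    (hH : H ∈ flatsOf (N.1 ／ (G : Set (Fin n))) (k + 1))
    (hH2 : (H \ (N.1 ／ (G : Set (Fin n))).loops).ncard ≤ (k + 2) ^ 2) (hXH : X ⊆ H)
    (hX : (N.1 ／ (G : Set (Fin n))).IsCircuit X) (hXc : X.ncard = k + 2) :
    (∀ x ∈ X, (G : Set (Fin n)) ∪ (X \ {x}) ∈ J2 N.1 (g + k + 1) k w ∧
      N.1.closure ((G : Set (Fin n)) ∪ (X \ {x})) \ G = H) ∧ Disjoint X (G : Set (Fin n)) := by
  have hXE : X ⊆ N.1.E \ (G : Set (Fin n)) := by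
    have := hX.subset_ground
    rwa [Matroid.contract_ground] at this
  have hdisj : Disjoint X (G : Set (Fin n)) :=
    Set.disjoint_of_subset_left hXE Set.disjoint_sdiff_left
  have hprop : ∀ x ∈ X, N.1.Indep ((G : Set (Fin n)) ∪ (X \ {x})) ∧
      N.1.closure ((G : Set (Fin n)) ∪ (X \ {x})) \ G = H ∧
      ((G : Set (Fin n)) ∪ (X \ {x})).ncard = g + k + 1 := by
    intro x hx
    have h1 : (N.1 ／ (G : Set (Fin n))).Indep (X \ {x}) := hX.sdiff_singleton_indep hx
    have h2 := (hGi.contract_indep_iff.1 h1).2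
    have h3 : (X \ {x}).ncard = k + 1 := by
      rw [Set.ncard_sdiff_singleton_of_mem hx, hXc]; rfl
    have h4 := LAM_cl hH h1 (Set.sdiff_subset.trans hXH) h3
    rw [Matroid.contract_closure_eq] at h4
    rw [Set.union_comm] at h2 h4
    refine ⟨h2, h4, ?_⟩
    rw [Set.ncard_union_eq (Set.disjoint_of_subset_right Set.sdiff_subset hdisj.symm)
      (Set.toFinite _) (Set.toFinite _), h3, Set.ncard_coe_finset, hG]
    ring
  have hclG : ∀ x ∈ X, (G : Set (Fin n)) ⊆ N.1.closure ((G : Set (Fin n)) ∪ (X \ {x})) := by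
    intro x hx
    exact Set.subset_union_left.trans (N.1.subset_closure _ (hprop x hx).1.subset_ground)
  have hcl : ∀ x ∈ X, N.1.closure ((G : Set (Fin n)) ∪ (X \ {x})) = H ∪ G := by
    intro x hx
    rw [← (hprop x hx).2.1, Set.sdiff_union_of_subset (hclG x hx)]
  refine ⟨fun x hx => ⟨⟨(hprop x hx).1, (hprop x hx).2.2, ?_, ?_⟩, (hprop x hx).2.1⟩, hdisj⟩
  · rw [hcl x hx]
    have e1 : (H ∪ (G : Set (Fin n))).ncard ≤ H.ncard + g := by
      refine (Set.ncard_union_le _ _).trans ?_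
      rw [Set.ncard_coe_finset, hG]
    have e2 : H.ncard ≤ (H \ (N.1 ／ (G : Set (Fin n))).loops).ncard +
        (N.1 ／ (G : Set (Fin n))).loops.ncard := by
      refine (Set.ncard_le_ncard ?_ (Set.toFinite _)).trans (Set.ncard_union_le _ _)
      rw [Set.sdiff_union_self]
      exact Set.subset_union_left
    omega
  · have hsub : (fun y => (G : Set (Fin n)) ∪ (X \ {y})) '' X ⊆
        {I | N.1.Indep I ∧ N.1.closure I = N.1.closure ((G : Set (Fin n)) ∪ (X \ {x}))} := by
      rintro _ ⟨y, hy, rfl⟩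
      exact ⟨(hprop y hy).1, by rw [hcl x hx, hcl y hy]⟩
    have hinj : Set.InjOn (fun y => (G : Set (Fin n)) ∪ (X \ {y})) X := by
      intro y hy z hz hyz
      by_contra hne
      have h5 : z ∈ (G : Set (Fin n)) ∪ (X \ {y}) := Or.inr ⟨hz, fun h => hne h.symm⟩
      have h6 : z ∈ (G : Set (Fin n)) ∪ (X \ {z}) := by
        have := hyz
        simp only at this
        rw [← this]
        exact h5
      rcases h6 with h6 | h6
      · exact Set.disjoint_left.1 hdisj hz h6
      · exact h6.2 rfl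
    have h7 := Set.ncard_le_ncard hsub (Set.toFinite _)
    rw [hinj.ncard_image, hXc] at h7
    exact h7

theorem p_LAM : Stmt_LAM := by
  classical
  intro n g k w N G hG
  unfold lamG lam
  split_ifs with hGi hw
  · set T := T3 (N.1 ／ (G : Set (Fin n))) k with hT
    have hch : ∀ H : Set (Fin n), ∃ X : Set (Fin n), H ∈ T → X ⊆ H ∧
        (N.1 ／ (G : Set (Fin n))).IsCircuit X ∧ X.ncard = k + 2 := by
      intro H
      by_cases hH : H ∈ T
      · obtain ⟨-, -, X, h1, h2, h3, -⟩ := hH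
        exact ⟨X, fun _ => ⟨h1, h2, h3⟩⟩
      · exact ⟨∅, fun h => absurd h hH⟩
    choose X hX using hch
    have hone : ∀ H ∈ T, (∀ x ∈ X H, (G : Set (Fin n)) ∪ (X H \ {x}) ∈ J2 N.1 (g + k + 1) k w ∧
      N.1.closure ((G : Set (Fin n)) ∪ (X H \ {x})) \ G = H) ∧ Disjoint (X H) (G : Set (Fin n)) :=
      fun H hH => LAM_one N G hG hGi hw hH.1 hH.2.1 (hX H hH).1 (hX H hH).2.1 (hX H hH).2.2
    set S := {J | J ∈ J2 N.1 (g + k + 1) k w ∧ (G : Set (Fin n)) ⊆ J} with hS
    have hTf : T.Finite := Set.toFinite _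
    have hSf : S.Finite := Set.toFinite _
    have hXf : ∀ H, (X H).Finite := fun H => Set.toFinite _
    rw [Set.ncard_eq_toFinset_card T hTf, Set.ncard_eq_toFinset_card S hSf]
    have hsig : (hTf.toFinset.sigma (fun H => (hXf H).toFinset)).card =
        (k + 2) * hTf.toFinset.card := by
      rw [Finset.card_sigma, Finset.sum_congr rfl (g := fun _ => k + 2), Finset.sum_const,
        smul_eq_mul, mul_comm]
      intro H hH
      rw [Set.Finite.mem_toFinset] at hH
      rw [← Set.ncard_eq_toFinset_card (X H) (hXf H)]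
      exact (hX H hH).2.2
    rw [← hsig]
    refine Finset.card_le_card_of_injOn
      (fun p : (Σ _ : Set (Fin n), Fin n) => (G : Set (Fin n)) ∪ (X p.1 \ {p.2})) ?_ ?_
    · rintro ⟨H, x⟩ hp
      rw [Finset.mem_coe, Finset.mem_sigma, Set.Finite.mem_toFinset, Set.Finite.mem_toFinset] at hp
      rw [Finset.mem_coe, Set.Finite.mem_toFinset]
      exact ⟨((hone H hp.1).1 x hp.2).1, Set.subset_union_left⟩
    · rintro ⟨H, x⟩ hp ⟨H', x'⟩ hp' hpp
      rw [Finset.mem_coe, Finset.mem_sigma, Set.Finite.mem_toFinset, Set.Finite.mem_toFinset]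
        at hp hp'
      simp only at hp hp' hpp
      have e1 := ((hone H hp.1).1 x hp.2).2
      have e2 := ((hone H' hp'.1).1 x' hp'.2).2
      have eH : H = H' := by rw [← e1, ← e2, hpp]
      subst eH
      have ex : x = x' := by
        by_contra hne
        have h5 : x' ∈ (G : Set (Fin n)) ∪ (X H \ {x}) := Or.inr ⟨hp'.2, fun h => hne h.symm⟩
        rw [hpp] at h5
        rcases h5 with h6 | h6
        · exact Set.disjoint_left.1 (hone H hp.1).2 hp'.2 h6
        · exact h6.2 rfl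
      rw [ex]
  · rw [Nat.mul_zero]
    exact Nat.zero_le _
  · rw [Nat.mul_zero]
    exact Nat.zero_le _

end Pool.Agent.Work.MP_f3d170_lin
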