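import Pool.Agent.Work.MP_f3d170_lin.Interface

/-! Block LK: contraction of an independent set (MP_f3d170_co, helper65). -/

set_option autoImplicit false

open Set Matroid
open Pool.Agent.Work.MP_f3d170_co_h45
open Pool.Agent.Work.MP_f3d170_co_h78 (nb lev)
open Pool.Agent.Work.MP_f3d170_co_helper60b (trunc LR)

namespace Pool.Agent.Work.MP_f3d170_lin

theorem p_LK : Stmt_LK := by
  intro n g k N G hG hI
  have hE : N.1.E = Set.univ := N.2.1
  constructor
  · rw [Matroid.contract_ground, hE, Finset.coe_compl, Set.compl_eq_univ_sdiff]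
  · obtain ⟨B, hB, hGB⟩ := hI.exists_isBase_superset
    have hB1 : (N.1 ／ (G : Set (Fin n))).IsBase (B \ (G : Set (Fin n))) := by
      rw [hI.contract_isBase_iff]
      refine ⟨?_, Set.disjoint_sdiff_left⟩
      rw [Set.sdiff_union_of_subset hGB]
      exact hB
    have hr : B.encard = ((g + k + 1 + 1 : ℕ) : ℕ∞) := by
      rw [hB.encard_eq_eRank, N.2.2]
    have h1 : (B \ (G : Set (Fin n))).encard + (G : Set (Fin n)).encard = B.encard :=
      Set.encard_sdiff_add_encard_of_subset hGB
    have h2 : (G : Set (Fin n)).encard = (g : ℕ∞) := by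
      rw [Set.encard_coe_eq_coe_finsetCard, hG]
    rw [← hB1.encard_eq_eRank]
    rw [h2, hr] at h1
    have h3 : ((g + k + 1 + 1 : ℕ) : ℕ∞) = ((k + 2 : ℕ) : ℕ∞) + (g : ℕ∞) := by
      rw [← Nat.cast_add]
      congr 1
      omega
    rw [h3] at h1
    exact WithTop.add_right_cancel (ENat.natCast_ne_top g) h1

end Pool.Agent.Work.MP_f3d170_lin
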