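import Pool.Agent.Work.MP_f3d170_lin.Interface

open Set Matroid
open Pool.Agent.Work.MP_f3d170_co_h45
open Pool.Agent.Work.MP_f3d170_co_h78 (nb lev)
open Pool.Agent.Work.MP_f3d170_co_helper60b (trunc LR)

namespace Pool.Agent.Work.MP_f3d170_lin

open Classical in
theorem p_LOOPY : Stmt_LOOPY := by
  intro n k w D
  have hS : ∀ Q : LQ D (k + 2), w < Q.1.loops.ncard →
      ∃ S : Finset (Fin n), S ⊆ D ∧ S.card = w + 1 ∧ (S : Set (Fin n)) ⊆ Q.1.loops := by
    intro Q hQ
    obtain ⟨S, hS1, hS2⟩ := exists_subset_card_eq (s := Q.1.loops) (n := w + 1) (by omega)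
    have hfin : S.Finite := toFinite S
    refine ⟨hfin.toFinset, ?_, ?_, ?_⟩
    · intro e he
      have h1 : e ∈ S := hfin.mem_toFinset.1 he
      have h2 : e ∈ Q.1.E := Q.1.loops_subset_ground (hS1 h1)
      rw [Q.2.1] at h2
      exact_mod_cast h2
    · rw [← ncard_eq_toFinset_card S hfin]
      exact hS2
    · rw [hfin.coe_toFinset]
      exact hS1
  choose! S hS1 hS2 hS3 using hS
  set f : LQ D (k + 2) → (Σ _ : Finset (Fin n), Finset (Finset (Fin n))) := fun Q =>
    ⟨S Q, Finset.univ.filter (fun B => Q.1.IsBase (B : Set (Fin n)))⟩ with hf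
  set T : Finset (Σ _ : Finset (Fin n), Finset (Finset (Fin n))) :=
    (D.powersetCard (w + 1)).sigma (fun S => ((D \ S).powersetCard (k + 2)).powerset) with hT
  have hcard : T.card ≤ 2 ^ D.card * 2 ^ ((D.card - (w + 1)).choose (k + 2)) := by
    rw [hT, Finset.card_sigma]
    have h1 : ∀ S ∈ D.powersetCard (w + 1),
        (((D \ S).powersetCard (k + 2)).powerset).card = 2 ^ ((D.card - (w + 1)).choose (k + 2)) := by
      intro S hS
      rw [Finset.mem_powersetCard] at hS
      rw [Finset.card_powerset, Finset.card_powersetCard, Finset.card_sdiff_of_subset hS.1, hS.2]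
    rw [Finset.sum_congr rfl h1, Finset.sum_const, smul_eq_mul, Finset.card_powersetCard]
    exact Nat.mul_le_mul_right _ (Nat.choose_le_two_pow _ _)
  refine le_trans ?_ hcard
  rw [← ncard_coe_finset T]
  refine ncard_le_ncard_of_injOn f ?_ ?_ (toFinite _)
  · intro Q hQ
    have hQ' : w < Q.1.loops.ncard := hQ
    rw [Finset.mem_coe, hT, Finset.mem_sigma]
    refine ⟨Finset.mem_powersetCard.2 ⟨hS1 Q hQ', hS2 Q hQ'⟩, ?_⟩
    rw [Finset.mem_powerset]
    intro B hB
    have hB' : Q.1.IsBase (B : Set (Fin n)) := by simpa [hf] using hB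
    rw [Finset.mem_powersetCard]
    constructor
    · intro e he
      rw [Finset.mem_sdiff]
      have h1 : e ∈ Q.1.E := hB'.subset_ground (by exact_mod_cast he)
      rw [Q.2.1] at h1
      refine ⟨by exact_mod_cast h1, fun h2 => ?_⟩
      have h3 : e ∈ Q.1.loops := hS3 Q hQ' (by exact_mod_cast h2)
      have h4 : Q.1.IsNonloop e := hB'.indep.isNonloop_of_mem (by exact_mod_cast he)
      exact h4.not_isLoop h3
    · have h1 := hB'.encard_eq_eRank
      rw [Q.2.2, encard_coe_eq_coe_finsetCard] at h1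
      exact_mod_cast h1
  · intro Q hQ Q' hQ' h
    simp only [hf, Sigma.mk.injEq, heq_eq_eq] at h
    apply Subtype.ext
    refine ext_isBase (Q.2.1.trans Q'.2.1.symm) fun B _ => ?_
    have hfin : B.Finite := toFinite B
    have h1 : hfin.toFinset ∈ Finset.univ.filter (fun B : Finset (Fin n) =>
        Q.1.IsBase (B : Set (Fin n))) ↔ hfin.toFinset ∈ Finset.univ.filter
        (fun B : Finset (Fin n) => Q'.1.IsBase (B : Set (Fin n))) := by rw [h.2]
    rw [Finset.mem_filter, Finset.mem_filter, hfin.coe_toFinset] at h1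
    simpa only [Finset.mem_univ, true_and] using h1

end Pool.Agent.Work.MP_f3d170_lin
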