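import Pool.Agent.Work.MP_f3d170_lin.Interface

/-! Block N2: the number of matroids of rank at most `k + 1`. -/

set_option autoImplicit false

open Set Matroid
open Pool.Agent.Work.MP_f3d170_co_h45
open Pool.Agent.Work.MP_f3d170_co_h78 (nb lev)
open Pool.Agent.Work.MP_f3d170_co_helper60b (LR)

namespace Pool.Agent.Work.MP_f3d170_lin

theorem N2_ratio (k r : ℕ) : ∀ s : ℕ, (((r + k + 2 + s).choose k : ℕ) : ℝ) ≤
    (((r + k + 2).choose k : ℕ) : ℝ) * (1 + (k : ℝ) / (r + 3)) ^ s := by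
  intro s
  induction s with
  | zero => simp
  | succ s ih =>
    have h1 := Nat.choose_mul_succ_eq (r + k + 2 + s) k
    have h2 : r + k + 2 + s + 1 - k = r + 3 + s := by omega
    rw [h2] at h1
    have h3 : (((r + k + 2 + s).choose k : ℕ) : ℝ) * ((r : ℝ) + k + 3 + s) =
        (((r + k + 2 + s + 1).choose k : ℕ) : ℝ) * ((r : ℝ) + 3 + s) := by
      have : (((r + k + 2 + s).choose k * (r + k + 2 + s + 1) : ℕ) : ℝ) =
        (((r + k + 2 + s + 1).choose k * (r + 3 + s) : ℕ) : ℝ) := by exact_mod_cast h1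
      push_cast at this
      linarith
    have hpos : (0 : ℝ) < (r : ℝ) + 3 + s := by positivity
    have hpos3 : (0 : ℝ) < (r : ℝ) + 3 := by positivity
    have h4 : (((r + k + 2 + s + 1).choose k : ℕ) : ℝ) =
        (((r + k + 2 + s).choose k : ℕ) : ℝ) * (((r : ℝ) + k + 3 + s) / ((r : ℝ) + 3 + s)) := by
      field_simp
      linarith
    have h5 : ((r : ℝ) + k + 3 + s) / ((r : ℝ) + 3 + s) ≤ 1 + (k : ℝ) / (r + 3) := by
      have e1 : ((r : ℝ) + k + 3 + s) / ((r : ℝ) + 3 + s) = 1 + (k : ℝ) / ((r : ℝ) + 3 + s) := by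
        field_simp
        ring
      rw [e1]
      have e2 : (k : ℝ) / ((r : ℝ) + 3 + s) ≤ (k : ℝ) / ((r : ℝ) + 3) := by
        apply div_le_div_of_nonneg_left (by positivity) hpos3
        have : (0 : ℝ) ≤ s := by positivity
        linarith
      linarith
    show (((r + k + 2 + s + 1).choose k : ℕ) : ℝ) ≤ _
    rw [h4, pow_succ, ← mul_assoc]
    exact mul_le_mul ih h5 (by positivity) (by positivity)

theorem p_N2 : Stmt_N2 := by
  refine ⟨30000, ?_⟩
  intro k r n hk hr1 hr2 hn D hD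
  have hn1 : r + k + 2 ≤ n := by
    rw [← hD]
    simpa using Finset.card_le_univ D
  have hkR : (30000 : ℝ) ≤ k := by exact_mod_cast hk
  have hr1R : ((k : ℝ) + 2) ^ 4 ≤ r := by exact_mod_cast hr1
  have hr2R : (r : ℝ) ≤ ((k : ℝ) + 3) ^ 4 := by exact_mod_cast hr2.le
  have hnR : (n : ℝ) ≤ 3 * r := by exact_mod_cast hn
  have hn1R : (1 : ℝ) ≤ n := by
    have : 1 ≤ n := by omega
    exact_mod_cast this
  -- the count
  obtain ⟨ρ, hρ⟩ : ∃ ρ, k = ρ + 1 := ⟨k - 1, by omega⟩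
  have hcount := Pool.Agent.Work.MP_f3d170_co_helper60b.card_LR_le (show 1 ≤ n by omega) D ρ
  have e1 : ρ + 2 = k + 1 := by omega
  have e2 : D.card + ρ + 2 = r + k + 2 + (k + 1) := by omega
  have e3 : ρ + 1 = k := by omega
  rw [e2, e1, e3] at hcount
  set E := (r + k + 2 + (k + 1)).choose k with hE
  set F := (r + k + 2).choose k with hF
  have hEF : (E : ℝ) ≤ 3 * F := by
    have h1 := N2_ratio k r (k + 1)
    have h2 : (1 + (k : ℝ) / (r + 3)) ^ (k + 1) ≤ 3 := by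
      have h3 : 1 + (k : ℝ) / (r + 3) ≤ Real.exp ((k : ℝ) / (r + 3)) := by
        have := Real.add_one_le_exp ((k : ℝ) / (r + 3))
        linarith
      calc (1 + (k : ℝ) / (r + 3)) ^ (k + 1) ≤ Real.exp ((k : ℝ) / (r + 3)) ^ (k + 1) :=
            pow_le_pow_left₀ (by positivity) h3 _
        _ = Real.exp ((k + 1 : ℕ) * ((k : ℝ) / (r + 3))) := by rw [← Real.exp_nat_mul]
        _ ≤ Real.exp 1 := by
            apply Real.exp_le_exp.2
            rw [← mul_div_assoc, div_le_one (by positivity)]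
            push_cast
            nlinarith [sq_nonneg ((k : ℝ) + 2), sq_nonneg (((k : ℝ) + 2) ^ 2 - 1)]
        _ ≤ 3 := by
            have := Real.exp_one_lt_d9
            linarith
    calc (E : ℝ) ≤ F * (1 + (k : ℝ) / (r + 3)) ^ (k + 1) := h1
      _ ≤ F * 3 := mul_le_mul_of_nonneg_left h2 (by positivity)
      _ = 3 * F := by ring
  have hlog : Real.log (4 * n) ≤ 4 * k + 19 := by
    have h4 : (4 * n : ℝ) ≤ 12 * ((k : ℝ) + 3) ^ 4 := by linarith
    have h5 : Real.log (4 * n) ≤ Real.log (12 * ((k : ℝ) + 3) ^ 4) :=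
      Real.log_le_log (by linarith) h4
    have h5' : Real.log (12 * ((k : ℝ) + 3) ^ 4) = Real.log 12 + (4 : ℕ) * Real.log ((k : ℝ) + 3) := by
      rw [Real.log_mul (by norm_num) (by positivity), Real.log_pow]
    rw [h5'] at h5
    have h6 := Real.log_le_sub_one_of_pos (show (0 : ℝ) < 12 by norm_num)
    have h7 := Real.log_le_sub_one_of_pos (show (0 : ℝ) < (k : ℝ) + 3 by positivity)
    push_cast at h5
    linarith
  have hlog0 : 0 ≤ Real.log (4 * n) := Real.log_nonneg (by linarith)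
  -- the right hand side
  have hC : (((r + k + 2).choose (k + 2) : ℕ) : ℝ) / ((r : ℝ) + 1) =
      F * ((r : ℝ) + 2) / (((k : ℝ) + 1) * ((k : ℝ) + 2)) := by
    have a1 := Nat.choose_succ_right_eq (r + k + 2) k
    have a2 := Nat.choose_succ_right_eq (r + k + 2) (k + 1)
    rw [show r + k + 2 - k = r + 2 by omega] at a1
    rw [show r + k + 2 - (k + 1) = r + 1 by omega] at a2
    have b1 : (((r + k + 2).choose (k + 1) : ℕ) : ℝ) * ((k : ℝ) + 1) = F * ((r : ℝ) + 2) := by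
      have : (((r + k + 2).choose (k + 1) * (k + 1) : ℕ) : ℝ) = ((F * (r + 2) : ℕ) : ℝ) := by
        exact_mod_cast a1
      push_cast at this
      exact this
    have b2 : (((r + k + 2).choose (k + 2) : ℕ) : ℝ) * ((k : ℝ) + 2) =
        (((r + k + 2).choose (k + 1) : ℕ) : ℝ) * ((r : ℝ) + 1) := by
      have : (((r + k + 2).choose (k + 1 + 1) * (k + 1 + 1) : ℕ) : ℝ) =
          (((r + k + 2).choose (k + 1) * (r + 1) : ℕ) : ℝ) := by exact_mod_cast a2
      push_cast at this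
      rw [show k + 1 + 1 = k + 2 from rfl] at this
      linarith
    rw [div_eq_div_iff (by positivity) (by positivity)]
    calc (((r + k + 2).choose (k + 2) : ℕ) : ℝ) * (((k : ℝ) + 1) * ((k : ℝ) + 2))
        = ((((r + k + 2).choose (k + 2) : ℕ) : ℝ) * ((k : ℝ) + 2)) * ((k : ℝ) + 1) := by ring
      _ = ((((r + k + 2).choose (k + 1) : ℕ) : ℝ) * ((k : ℝ) + 1)) * ((r : ℝ) + 1) := by
          rw [b2]; ring
      _ = F * ((r : ℝ) + 2) * ((r : ℝ) + 1) := by rw [b1]
  have hFpos : (0 : ℝ) < F := by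
    have : 0 < F := Nat.choose_pos (by omega)
    exact_mod_cast this
  have hmain : (E : ℝ) * Real.log (4 * n) ≤
      1 / 2000 * (((r + k + 2).choose (k + 2) : ℕ) : ℝ) / ((r : ℝ) + 1) := by
    rw [mul_div_assoc, hC]
    have c1 : (E : ℝ) * Real.log (4 * n) ≤ (3 * F) * (4 * k + 19) :=
      mul_le_mul hEF hlog hlog0 (by positivity)
    have c2 : 6000 * ((4 * (k : ℝ) + 19) * (((k : ℝ) + 1) * ((k : ℝ) + 2))) ≤ (r : ℝ) + 2 := by
      have d1 : 6000 * (4 * (k : ℝ) + 19) ≤ ((k : ℝ) + 2) ^ 2 := by nlinarith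
      have d2 : ((k : ℝ) + 1) * ((k : ℝ) + 2) ≤ ((k : ℝ) + 2) ^ 2 := by nlinarith
      have d3 : (6000 * (4 * (k : ℝ) + 19)) * (((k : ℝ) + 1) * ((k : ℝ) + 2)) ≤
          ((k : ℝ) + 2) ^ 2 * ((k : ℝ) + 2) ^ 2 := mul_le_mul d1 d2 (by positivity) (by positivity)
      have d4 : ((k : ℝ) + 2) ^ 2 * ((k : ℝ) + 2) ^ 2 = ((k : ℝ) + 2) ^ 4 := by ring
      linarith
    refine c1.trans ?_
    rw [mul_div_assoc', le_div_iff₀ (by positivity)]
    have c3 := mul_le_mul_of_nonneg_left c2 hFpos.le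
    nlinarith
  have hcR : (Nat.card (LR D (k + 1)) : ℝ) ≤ (4 * n : ℝ) ^ E := by
    have h8 : ((4 * Nat.card (LR D (k + 1)) : ℕ) : ℝ) ≤ (((4 * n) ^ E : ℕ) : ℝ) := by
      exact_mod_cast hcount
    push_cast at h8
    have : (0 : ℝ) ≤ (Nat.card (LR D (k + 1)) : ℝ) := by positivity
    linarith
  refine hcR.trans ?_
  have h9 : (4 * n : ℝ) ^ E = Real.exp (E * Real.log (4 * n)) := by
    have h10 : (0 : ℝ) < 4 * n := by linarith
    rw [Real.exp_nat_mul, Real.exp_log h10]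
  rw [h9]
  exact Real.exp_le_exp.2 hmain

end Pool.Agent.Work.MP_f3d170_lin
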