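import Pool.Agent.Work.MP_f3d170_lin.Interface

set_option autoImplicit false

open Set Matroid

namespace Pool.Agent.Work.MP_f3d170_lin

theorem N3_choose (k : ℕ) : (k + 2) ^ 6 ≤ 720 * (k + 7).choose 6 := by
  have h := Nat.descFactorial_eq_factorial_mul_choose (k + 7) 6
  have h1 : (k + 7).descFactorial 6 = (k + 2) * ((k + 3) * ((k + 4) * ((k + 5) *
      ((k + 6) * ((k + 7) * 1))))) := by
    simp only [Nat.descFactorial_succ, Nat.descFactorial_zero]
    rfl
  have h2 : Nat.factorial 6 = 720 := rfl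
  rw [h2] at h
  rw [← h, h1]
  calc (k + 2) ^ 6 = (k + 2) * ((k + 2) * ((k + 2) * ((k + 2) * ((k + 2) * ((k + 2) * 1))))) := by
        ring
    _ ≤ _ := by gcongr <;> omega

theorem p_N3 : Stmt_N3 := by
  refine ⟨6000000, ?_⟩
  intro k r hk hr1 hr2
  have hk' : (6000000 : ℝ) ≤ k := by exact_mod_cast hk
  set m : ℕ := r + k + 2 with hm
  set A : ℝ := ((m.choose (k + 1) : ℕ) : ℝ) with hA
  have hA0 : 0 ≤ A := Nat.cast_nonneg _
  set q : ℝ := (k : ℝ) + 2 with hq
  have hq0 : 0 < q := by positivity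
  have hbin : (((m.choose (k + 2) : ℕ) : ℝ)) / ((r : ℝ) + 1) = A / q := by
    have h1 := Nat.choose_succ_right_eq m (k + 1)
    have h2 : m - (k + 1) = r + 1 := by omega
    rw [h2] at h1
    have h3 : ((m.choose (k + 2) : ℕ) : ℝ) * q = A * ((r : ℝ) + 1) := by
      have h4 : ((m.choose (k + 1 + 1) * (k + 1 + 1) : ℕ) : ℝ) =
          ((m.choose (k + 1) * (r + 1) : ℕ) : ℝ) := by exact_mod_cast h1
      push_cast at h4
      rw [hA, hq]
      rw [show (k : ℝ) + 2 = (k : ℝ) + 1 + 1 by ring]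
      exact h4
    rw [div_eq_div_iff (by positivity) hq0.ne']
    exact h3
  have hm1 : ((m : ℝ) + 1) ≤ 4 * q ^ 4 := by
    have h1 : m + 1 ≤ 2 * (k + 3) ^ 4 := by
      have h2 : k + 2 ≤ (k + 3) ^ 4 := by
        calc k + 2 ≤ k + 3 := by omega
          _ = (k + 3) ^ 1 := (pow_one _).symm
          _ ≤ (k + 3) ^ 4 := Nat.pow_le_pow_right (by omega) (by norm_num)
      omega
    have h3 : ((m : ℝ) + 1) ≤ 2 * ((k : ℝ) + 3) ^ 4 := by exact_mod_cast h1
    have h4 : ((k : ℝ) + 3) ^ 4 ≤ (11 / 10 * q) ^ 4 :=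
      pow_le_pow_left₀ (by positivity) (by linarith) 4
    have h5 : (11 / 10 * q) ^ 4 ≤ 2 * q ^ 4 := by
      rw [mul_pow]
      apply mul_le_mul_of_nonneg_right _ (by positivity)
      norm_num
    linarith
  have hc : q ^ 6 ≤ 720 * (((k + 7).choose 6 : ℕ) : ℝ) := by
    have := N3_choose k
    rw [hq]
    exact_mod_cast this
  have hc0 : (0 : ℝ) < (((k + 7).choose 6 : ℕ) : ℝ) := by
    have : 0 < (k + 7).choose 6 := Nat.choose_pos (by omega)
    exact_mod_cast this
  have hlog2 : Real.log 2 ≤ 1 := by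
    have := Real.log_two_lt_d9
    linarith
  have hlog20 : 0 ≤ Real.log 2 := Real.log_nonneg (by norm_num)
  have e1 : ((2 : ℝ) ^ (m + 1)) ^ (m.choose (k + 1) / (k + 7).choose 6) =
      Real.exp (((m.choose (k + 1) / (k + 7).choose 6 : ℕ) : ℝ) *
        (((m + 1 : ℕ) : ℝ) * Real.log 2)) := by
    rw [Real.exp_nat_mul, Real.exp_nat_mul, Real.exp_log (by norm_num)]
  have e2 : (((m.choose (k + 1) / (k + 7).choose 6 : ℕ)) : ℝ) ≤ A * (720 / q ^ 6) := by
    have h2 := @Nat.cast_div_le ℝ _ _ _ (m.choose (k + 1)) ((k + 7).choose 6)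
    refine le_trans h2 ?_
    rw [div_eq_mul_inv]
    apply mul_le_mul_of_nonneg_left _ hA0
    rw [inv_eq_one_div, div_le_div_iff₀ hc0 (by positivity)]
    linarith
  change ((2 : ℝ) ^ (m + 1)) ^ (m.choose (k + 1) / (k + 7).choose 6) ≤ _
  rw [e1]
  apply Real.exp_le_exp.2
  rw [mul_div_assoc (1 / 2000 : ℝ), hbin]
  calc ((m.choose (k + 1) / (k + 7).choose 6 : ℕ) : ℝ) * (((m + 1 : ℕ) : ℝ) * Real.log 2)
      ≤ (A * (720 / q ^ 6)) * (4 * q ^ 4 * 1) := by
        apply mul_le_mul e2 _ (by positivity) (by positivity)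
        apply mul_le_mul _ hlog2 hlog20 (by positivity)
        push_cast
        exact hm1
    _ = A / q ^ 2 * 2880 := by
        field_simp
        ring
    _ ≤ A / q ^ 2 * (q / 2000) := by
        apply mul_le_mul_of_nonneg_left _ (by positivity)
        linarith
    _ = 1 / 2000 * (A / q) := by
        field_simp

end Pool.Agent.Work.MP_f3d170_lin
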