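import Pool.Agent.Work.MP_f3d170_lin.Interface

set_option autoImplicit false

open Set Matroid

namespace Pool.Agent.Work.MP_f3d170_lin

theorem N4_step (m s : ℕ) : m.choose (s + 1) ≤ m.choose s * m := by
  have h := Nat.choose_succ_right_eq m s
  calc m.choose (s + 1) ≤ m.choose (s + 1) * (s + 1) := Nat.le_mul_of_pos_right _ (by omega)
    _ = m.choose s * (m - s) := h
    _ ≤ m.choose s * m := Nat.mul_le_mul_left _ (Nat.sub_le _ _)

theorem N4_pow (m k i : ℕ) : m.choose (k + 1 + i) ≤ m.choose (k + 1) * m ^ i := by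
  induction i with
  | zero => simp
  | succ i ih =>
    calc m.choose (k + 1 + (i + 1)) ≤ m.choose (k + 1 + i) * m := N4_step m (k + 1 + i)
      _ ≤ (m.choose (k + 1) * m ^ i) * m := Nat.mul_le_mul_right _ ih
      _ = m.choose (k + 1) * m ^ (i + 1) := by rw [pow_succ]; ring

theorem N4_card {n : ℕ} (D : Finset (Fin n)) (k : ℕ) (hD : 1 ≤ D.card) :
    (Wset D k).card ≤ 5 * (D.card.choose (k + 1) * D.card ^ 5) := by
  classical
  have h1 : Wset D k ⊆ (Finset.Icc 1 5).biUnion fun i => D.powersetCard (k + 1 + i) := by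
    intro W hW
    unfold Wset at hW
    rw [Finset.mem_filter, Finset.mem_powerset] at hW
    rw [Finset.mem_biUnion]
    refine ⟨W.card - (k + 1), ?_, ?_⟩
    · rw [Finset.mem_Icc]
      omega
    · rw [Finset.mem_powersetCard]
      exact ⟨hW.1, by omega⟩
  refine le_trans (Finset.card_le_card h1) (le_trans Finset.card_biUnion_le ?_)
  calc ∑ i ∈ Finset.Icc 1 5, (D.powersetCard (k + 1 + i)).card
      ≤ ∑ i ∈ Finset.Icc 1 5, D.card.choose (k + 1) * D.card ^ 5 := by
        apply Finset.sum_le_sum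
        intro i hi
        rw [Finset.card_powersetCard]
        refine le_trans (N4_pow _ _ _) (Nat.mul_le_mul_left _ ?_)
        exact Nat.pow_le_pow_right hD (Finset.mem_Icc.1 hi).2
    _ = 5 * (D.card.choose (k + 1) * D.card ^ 5) := by
        rw [Finset.sum_const, Nat.card_Icc]
        rfl

theorem p_N4 : Stmt_N4 := by
  have hlo := Real.isLittleO_log_id_atTop.bound (show (0 : ℝ) < 1 / 1000000 by norm_num)
  obtain ⟨x0, hx0⟩ := Filter.eventually_atTop.1 hlo
  refine ⟨max ⌈x0⌉₊ 20000, ?_⟩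
  intro k r hk hr1 hr2
  have hk1 : x0 ≤ (k : ℝ) := le_trans (Nat.le_ceil x0)
    (by exact_mod_cast le_trans (le_max_left _ _) hk)
  have hk2 : 20000 ≤ k := le_trans (le_max_right _ _) hk
  have hk2' : (20000 : ℝ) ≤ k := by exact_mod_cast hk2
  set m : ℕ := r + k + 2 with hm
  set A : ℝ := ((m.choose (k + 1) : ℕ) : ℝ) with hA
  have hA0 : 0 ≤ A := Nat.cast_nonneg _
  have hm0 : 0 < (m : ℝ) := by
    have : 0 < m := by omega
    exact_mod_cast this
  have hm1 : (1 : ℝ) ≤ m := by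
    have : 1 ≤ m := by omega
    exact_mod_cast this
  set q : ℝ := (k : ℝ) + 2 with hq
  have hq0 : 0 < q := by positivity
  have hlog : Real.log ((k : ℝ) + 3) ≤ 1 / 1000000 * ((k : ℝ) + 3) := by
    have h := hx0 ((k : ℝ) + 3) (by linarith)
    simp only [id, Real.norm_eq_abs] at h
    calc Real.log ((k : ℝ) + 3) ≤ |Real.log ((k : ℝ) + 3)| := le_abs_self _
      _ ≤ 1 / 1000000 * |(k : ℝ) + 3| := h
      _ = _ := by rw [abs_of_pos (by positivity)]
  have hm5 : (m : ℝ) ≤ ((k : ℝ) + 3) ^ 5 := by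
    have h1 : m ≤ (k + 3) ^ 5 := by
      have h2 : k + 2 ≤ (k + 3) ^ 4 := by
        calc k + 2 ≤ k + 3 := by omega
          _ = (k + 3) ^ 1 := (pow_one _).symm
          _ ≤ (k + 3) ^ 4 := Nat.pow_le_pow_right (by omega) (by norm_num)
      calc m ≤ (k + 3) ^ 4 + (k + 3) ^ 4 := by omega
        _ = 2 * (k + 3) ^ 4 := by ring
        _ ≤ (k + 3) * (k + 3) ^ 4 := Nat.mul_le_mul_right _ (by omega)
        _ = (k + 3) ^ 5 := by ring
    exact_mod_cast h1
  refine ⟨1 / (q ^ 2 * (m : ℝ) ^ 5), by positivity, ?_, ?_⟩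
  · rw [div_le_one (by positivity)]
    have h1 : (1 : ℝ) ≤ q ^ 2 := one_le_pow₀ (by linarith)
    have h2 : (1 : ℝ) ≤ (m : ℝ) ^ 5 := one_le_pow₀ hm1
    nlinarith
  intro n D hD
  set y : ℝ := 1 / (q ^ 2 * (m : ℝ) ^ 5) with hy
  have hy0 : 0 < y := by positivity
  have hinv : 1 / y = q ^ 2 * (m : ℝ) ^ 5 := by rw [hy, one_div_one_div]
  have hlogy : Real.log (1 / y) ≤ 27 * Real.log ((k : ℝ) + 3) := by
    rw [hinv, Real.log_mul (by positivity) (by positivity), Real.log_pow, Real.log_pow]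
    have h1 : Real.log q ≤ Real.log ((k : ℝ) + 3) := Real.log_le_log hq0 (by linarith)
    have h2 : Real.log (m : ℝ) ≤ 5 * Real.log ((k : ℝ) + 3) := by
      have h3 := Real.log_le_log hm0 hm5
      rw [Real.log_pow] at h3
      exact_mod_cast h3
    push_cast
    linarith
  have hlogy0 : 0 ≤ Real.log (1 / y) := by
    rw [hinv]
    apply Real.log_nonneg
    have h1 : (1 : ℝ) ≤ q ^ 2 := one_le_pow₀ (by linarith)
    have h2 : (1 : ℝ) ≤ (m : ℝ) ^ 5 := one_le_pow₀ hm1
    nlinarith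
  -- the binomial identity
  have hbin : (((m.choose (k + 2) : ℕ) : ℝ)) / ((r : ℝ) + 1) = A / q := by
    have h1 := Nat.choose_succ_right_eq m (k + 1)
    have h2 : m - (k + 1) = r + 1 := by omega
    rw [h2] at h1
    have h3 : ((m.choose (k + 2) : ℕ) : ℝ) * q = A * ((r : ℝ) + 1) := by
      have h4 : ((m.choose (k + 1 + 1) * (k + 1 + 1) : ℕ) : ℝ) =
          ((m.choose (k + 1) * (r + 1) : ℕ) : ℝ) := by exact_mod_cast h1
      push_cast at h4
      rw [hA, hq]
      rw [show (k : ℝ) + 2 = (k : ℝ) + 1 + 1 by ring]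
      exact h4
    rw [div_eq_div_iff (by positivity) hq0.ne']
    exact h3
  have hW : ((Wset D k).card : ℝ) ≤ 5 * (A * (m : ℝ) ^ 5) := by
    have h1 := N4_card D k (by omega)
    rw [hD] at h1
    have h2 : (((Wset D k).card : ℕ) : ℝ) ≤ ((5 * (m.choose (k + 1) * m ^ 5) : ℕ) : ℝ) := by
      exact_mod_cast h1
    push_cast at h2
    exact h2
  have hT1 : (1 / y) ^ (2 * m.choose (k + 1) / (k + 2) ^ 2) ≤
      Real.exp (2 * A / q ^ 2 * (27 * Real.log ((k : ℝ) + 3))) := by
    have h1 : (((2 * m.choose (k + 1) / (k + 2) ^ 2 : ℕ)) : ℝ) ≤ 2 * A / q ^ 2 := by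
      have h2 := @Nat.cast_div_le ℝ _ _ _ (2 * m.choose (k + 1)) ((k + 2) ^ 2)
      push_cast at h2
      exact h2
    have h3 : (1 / y) ^ (2 * m.choose (k + 1) / (k + 2) ^ 2) =
        Real.exp (((2 * m.choose (k + 1) / (k + 2) ^ 2 : ℕ) : ℝ) * Real.log (1 / y)) := by
      rw [Real.exp_nat_mul, Real.exp_log (by positivity)]
    rw [h3]
    apply Real.exp_le_exp.2
    exact mul_le_mul h1 hlogy hlogy0 (by positivity)
  have hT2 : (1 + y) ^ (Wset D k).card ≤ Real.exp (5 * A / q ^ 2) := by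
    calc (1 + y) ^ (Wset D k).card ≤ Real.exp y ^ (Wset D k).card := by
          apply pow_le_pow_left₀ (by positivity)
          have := Real.add_one_le_exp y
          linarith
      _ = Real.exp ((Wset D k).card * y) := by rw [Real.exp_nat_mul]
      _ ≤ Real.exp (5 * A / q ^ 2) := by
          apply Real.exp_le_exp.2
          calc ((Wset D k).card : ℝ) * y ≤ (5 * (A * (m : ℝ) ^ 5)) * y :=
                mul_le_mul_of_nonneg_right hW hy0.le
            _ = 5 * A / q ^ 2 := by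
                rw [hy]
                field_simp
  calc (1 / y) ^ (2 * m.choose (k + 1) / (k + 2) ^ 2) * (1 + y) ^ (Wset D k).card
      ≤ Real.exp (2 * A / q ^ 2 * (27 * Real.log ((k : ℝ) + 3))) * Real.exp (5 * A / q ^ 2) :=
        mul_le_mul hT1 hT2 (by positivity) (Real.exp_pos _).le
    _ = Real.exp (2 * A / q ^ 2 * (27 * Real.log ((k : ℝ) + 3)) + 5 * A / q ^ 2) :=
        (Real.exp_add _ _).symm
    _ ≤ Real.exp (1 / 2000 * ((m.choose (k + 2) : ℕ) : ℝ) / ((r : ℝ) + 1)) := by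
        apply Real.exp_le_exp.2
        rw [mul_div_assoc (1 / 2000 : ℝ), hbin]
        have e1 : 2 * A / q ^ 2 * (27 * Real.log ((k : ℝ) + 3)) + 5 * A / q ^ 2 =
            A / q ^ 2 * (54 * Real.log ((k : ℝ) + 3) + 5) := by ring
        have e2 : 1 / 2000 * (A / q) = A / q ^ 2 * (q / 2000) := by
          field_simp
        rw [e1, e2]
        apply mul_le_mul_of_nonneg_left _ (by positivity)
        linarith

end Pool.Agent.Work.MP_f3d170_lin
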