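import Pool.Agent.Work.MP_f3d170_lin.Interface

/-! # Block NBL (helper62) -/

set_option autoImplicit false

open Set Matroid
open Pool.Agent.Work.MP_f3d170_co_h45
open Pool.Agent.Work.MP_f3d170_co_h78 (nb lev)
open Pool.Agent.Work.MP_f3d170_co_helper60b (trunc LR)

namespace Pool.Agent.Work.MP_f3d170_lin

theorem p_NBL : Stmt_NBL := by
  classical
  intro n k D Q H hH
  obtain ⟨I, hI, hIc, rfl⟩ := hH
  set M := Q.1 with hM
  set S : Set (Set (Fin n)) := {K | M.Indep K ∧ M.closure K = M.closure I} with hS
  have hnb : nb M (M.closure I) = S.ncard := rfl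
  have hIS : I ∈ S := ⟨hI, rfl⟩
  have hnl : ∀ y, y ∈ (M.closure I \ M.loops) \ I → M.IsNonloop y := by
    intro y hy
    rw [← Matroid.not_isLoop_iff (M.closure_subset_ground I hy.1.1)]
    exact fun h => hy.1.2 h
  have h1 : ((M.closure I \ M.loops) \ I).ncard ≤ (S \ {I}).ncard := by
    have key : ∀ y, ∃ K : Set (Fin n), y ∈ (M.closure I \ M.loops) \ I →
        K ∈ S ∧ K \ I = {y} := by
      intro y
      by_cases h : y ∈ (M.closure I \ M.loops) \ I
      · obtain ⟨f, hf, h2, h3⟩ := exists_exchange hI h.1.1 h.2 (hnl y h)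
        refine ⟨insert y (I \ {f}), fun _ => ⟨⟨h2, h3⟩, ?_⟩⟩
        ext z
        simp only [Set.mem_sdiff, Set.mem_insert_iff, Set.mem_singleton_iff]
        constructor
        · rintro ⟨hz | hz, hzI⟩
          · exact hz
          · exact absurd hz.1 hzI
        · rintro rfl
          exact ⟨Or.inl rfl, h.2⟩
      · exact ⟨∅, fun h' => absurd h' h⟩
    choose K hK using key
    refine Set.ncard_le_ncard_of_injOn K ?_ ?_ (Set.toFinite _)
    · intro y hy
      refine ⟨(hK y hy).1, ?_⟩
      intro h
      rw [Set.mem_singleton_iff] at h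
      have h2 := (hK y hy).2
      rw [h, Set.sdiff_self] at h2
      exact (Set.singleton_ne_empty y) h2.symm
    · intro y hy z hz hyz
      have h2 := (hK y hy).2
      have h3 := (hK z hz).2
      rw [hyz, h3] at h2
      exact (Set.singleton_eq_singleton_iff.1 h2).symm
  have h2 : (S \ {I}).ncard + 1 = S.ncard := Set.ncard_sdiff_singleton_add_one hIS (Set.toFinite _)
  have h3 : (M.closure I \ M.loops).ncard ≤ ((M.closure I \ M.loops) \ I).ncard + I.ncard := by
    refine (Set.ncard_le_ncard ?_ (Set.toFinite _)).trans (Set.ncard_union_le _ _)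
    rw [Set.sdiff_union_self]
    exact Set.subset_union_left
  rw [hnb]
  omega

end Pool.Agent.Work.MP_f3d170_lin
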