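import Pool.Agent.Work.MP_f3d170_lin.Interface

/-! # Block NBS (helper62) -/

set_option autoImplicit false

open Set Matroid
open Pool.Agent.Work.MP_f3d170_co_h45
open Pool.Agent.Work.MP_f3d170_co_h78 (nb lev)
open Pool.Agent.Work.MP_f3d170_co_helper60b (trunc LR)

namespace Pool.Agent.Work.MP_f3d170_lin

theorem p_NBS : Stmt_NBS := by
  classical
  intro n k D Q F hF
  have h1 : ∀ H ∈ F, nb Q.1 H = ((D.powersetCard (k + 1)).filter
      (fun J : Finset (Fin n) => Q.1.Indep (J : Set (Fin n)) ∧
        Q.1.closure (J : Set (Fin n)) = H)).card := by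
    intro H hH
    obtain ⟨I, hI, hIc, hIH⟩ := hF H hH
    rw [← Set.ncard_coe_finset, ← Set.ncard_image_of_injective _ Finset.coe_injective]
    refine congrArg Set.ncard (Set.ext fun J => ?_)
    rw [Set.mem_image]
    constructor
    · rintro ⟨hJ, hJH⟩
      have hJf : J.Finite := Set.toFinite J
      have hcJ : J.ncard = k + 1 := by
        have e1 : Q.1.IsBasis J H := by
          rw [← hJH]
          exact hJ.isBasis_closure
        have e2 : Q.1.IsBasis I H := by
          rw [← hIH]
          exact hI.isBasis_closure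
        rw [ncard_eq_of_isBasis e1 e2, hIc]
      have hcoe : ((hJf.toFinset : Finset (Fin n)) : Set (Fin n)) = J := hJf.coe_toFinset
      refine ⟨hJf.toFinset, ?_, hcoe⟩
      rw [Finset.mem_coe, Finset.mem_filter, Finset.mem_powersetCard]
      refine ⟨⟨?_, ?_⟩, ?_, ?_⟩
      · intro x hx
        rw [Set.Finite.mem_toFinset] at hx
        have := hJ.subset_ground hx
        rw [Q.2.1] at this
        exact this
      · rw [← Set.ncard_eq_toFinset_card J hJf]
        exact hcJ
      · rw [hcoe]
        exact hJ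
      · rw [hcoe]
        exact hJH
    · rintro ⟨J', hJ', rfl⟩
      rw [Finset.mem_coe, Finset.mem_filter] at hJ'
      exact ⟨hJ'.2.1, hJ'.2.2⟩
  rw [Finset.sum_congr rfl h1, ← Finset.card_biUnion, ← Finset.card_powersetCard]
  · refine Finset.card_le_card ?_
    intro J hJ
    rw [Finset.mem_biUnion] at hJ
    obtain ⟨H, -, hJ⟩ := hJ
    exact (Finset.mem_filter.1 hJ).1
  · intro H _ H' _ hne
    refine Finset.disjoint_left.2 ?_
    intro J hJ hJ'
    rw [Finset.mem_filter] at hJ hJ'
    exact hne (hJ.2.2.symm.trans hJ'.2.2)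

end Pool.Agent.Work.MP_f3d170_lin
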