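import Pool.Agent.Work.MP_f3d170_lin.Interface

/-! # Block NBU (helper62) -/

set_option autoImplicit false

open Set Matroid
open Pool.Agent.Work.MP_f3d170_co_h45
open Pool.Agent.Work.MP_f3d170_co_h78 (nb lev)
open Pool.Agent.Work.MP_f3d170_co_helper60b (trunc LR)

namespace Pool.Agent.Work.MP_f3d170_lin

theorem NBU_cl {n : ℕ} {Q : Matroid (Fin n)} {k : ℕ} {H J : Set (Fin n)} (hH : H ∈ flatsOf Q k)
    (hJ : Q.Indep J) (hJH : J ⊆ H) (hc : J.ncard = k) : Q.closure J = H := by
  obtain ⟨I, hI, hIc, rfl⟩ := hH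
  obtain ⟨J', hJ', hJJ'⟩ := hJ.subset_isBasis_of_subset hJH (Q.closure_subset_ground I)
  have hIb : Q.IsBasis I (Q.closure I) := hI.isBasis_closure
  have hcard := ncard_eq_of_isBasis hIb hJ'
  have hEq : J = J' := Set.eq_of_subset_of_ncard_le hJJ' (by rw [← hcard, hIc, hc]) (Set.toFinite _)
  rw [hEq, hJ'.closure_eq_closure, Matroid.closure_closure]

theorem p_NBU : Stmt_NBU := by
  classical
  intro n k D Q H W hH hWH hU
  have hWf : W.Finite := Set.toFinite _
  have h1 : ((hWf.toFinset.powersetCard (k + 1)).image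
      (fun J : Finset (Fin n) => (J : Set (Fin n)))).card = W.ncard.choose (k + 1) := by
    rw [Finset.card_image_of_injective _ Finset.coe_injective, Finset.card_powersetCard,
      Set.ncard_eq_toFinset_card W hWf]
  rw [← h1, ← Set.ncard_coe_finset]
  refine Set.ncard_le_ncard ?_ (Set.toFinite _)
  intro J hJ
  rw [Finset.mem_coe, Finset.mem_image] at hJ
  obtain ⟨J', hJ', rfl⟩ := hJ
  rw [Finset.mem_powersetCard] at hJ'
  have hsub : (J' : Set (Fin n)) ⊆ W := by
    intro x hx
    have := hJ'.1 hx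
    rwa [Set.Finite.mem_toFinset] at this
  have hcc : (J' : Set (Fin n)).ncard = k + 1 := by rw [Set.ncard_coe_finset]; exact hJ'.2
  exact ⟨hU _ hsub hcc, NBU_cl hH (hU _ hsub hcc) (hsub.trans hWH) hcc⟩

end Pool.Agent.Work.MP_f3d170_lin
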