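import Pool.Agent.Work.MP_f3d170_lin.Interface

set_option autoImplicit false

open Set Matroid
open Pool.Agent.Work.MP_f3d170_co_h45

namespace Pool.Agent.Work.MP_f3d170_lin

lemma NUMF_choose (r t n j : ℕ) (hr : 4 ≤ r) (hn : n = r + (j + 1)) (hj : j + 1 = r + t) :
    2 ^ r ≤ n.choose (j + 1) := by
  have h1 : n.choose (j + 1) = n.choose r := by
    apply Nat.choose_symm_of_eq_add
    omega
  rw [h1]
  have h2 : Nat.centralBinom r ≤ n.choose r := by
    rw [Nat.centralBinom_eq_two_mul_choose]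
    exact Nat.choose_le_choose r (by omega)
  refine le_trans ?_ h2
  have h3 := Nat.four_pow_lt_mul_centralBinom r hr
  have h4 : r < 2 ^ r := Nat.lt_two_pow_self
  have h5 : (4 : ℕ) ^ r = 2 ^ r * 2 ^ r := by
    rw [← mul_pow]
    norm_num
  rw [h5] at h3
  by_contra h6
  push Not at h6
  have : r * Nat.centralBinom r < 2 ^ r * 2 ^ r := by
    calc r * Nat.centralBinom r ≤ r * 2 ^ r := Nat.mul_le_mul_left _ h6.le
      _ < 2 ^ r * 2 ^ r := Nat.mul_lt_mul_of_pos_right h4 (by positivity)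
  omega

theorem p_NUMF : Stmt_NUMF := by
  have hlim := tendsto_pow_const_div_const_pow_of_one_lt 3 (show (1 : ℝ) < 2 by norm_num)
  have hev := hlim.eventually (gt_mem_nhds (show (0 : ℝ) < 1 / 1000000 by norm_num))
  obtain ⟨r₁, hr₁⟩ := Filter.eventually_atTop.mp hev
  refine ⟨max r₁ 10, fun r t n j hr hn hj ht htr β hβ => ?_⟩
  have hr1 : r₁ ≤ r := le_trans (le_max_left _ _) hr
  have hr2 : 10 ≤ r := le_trans (le_max_right _ _) hr
  have hnr : 10 * n ≤ 21 * r := by omega
  have hn5 : 5 ≤ n := by omega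
  set C : ℕ := n.choose (j + 1) with hC
  have hC2 : 2 ^ r ≤ C := NUMF_choose r t n j (by omega) hn hj
  have hr0 : (0 : ℝ) < r := by
    have : 0 < r := by omega
    exact_mod_cast this
  have hn0 : (0 : ℝ) < n := by
    have : 0 < n := by omega
    exact_mod_cast this
  have hC2' : (2 : ℝ) ^ r ≤ C := by exact_mod_cast hC2
  have hnr' : 10 * (n : ℝ) ≤ 21 * r := by exact_mod_cast hnr
  have hsmall : (r : ℝ) ^ 3 < 1 / 1000000 * C := by
    have h := hr₁ r hr1
    have h2 : (0 : ℝ) < 2 ^ r := by positivity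
    rw [div_lt_iff₀ h2] at h
    calc (r : ℝ) ^ 3 < 1 / 1000000 * 2 ^ r := h
      _ ≤ 1 / 1000000 * C := by
        apply mul_le_mul_of_nonneg_left hC2'
        norm_num
  have hC0 : (0 : ℝ) < C := lt_of_lt_of_le (by positivity) hC2'
  -- upper bound of the left hand side
  have hleft : ((3 * (j + 4) * 2 ^ n * β * n.factorial : ℕ) : ℝ) ≤
      Real.exp (n * Real.log (4 * n) + 33 / 100 * (C : ℝ) / ((r : ℝ) + 1)) := by
    have h1 : 3 * (j + 4) ≤ 2 ^ n := by
      have h2 : j + 4 ≤ n + 3 := by omega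
      have h3 : ∀ m : ℕ, 5 ≤ m → 3 * (m + 3) ≤ 2 ^ m := by
        intro m hm
        induction m, hm using Nat.le_induction with
        | base => norm_num
        | succ m hm ih =>
          rw [pow_succ]
          omega
      calc 3 * (j + 4) ≤ 3 * (n + 3) := Nat.mul_le_mul_left _ h2
        _ ≤ 2 ^ n := h3 n hn5
    have h2 : n.factorial ≤ n ^ n := Nat.factorial_le_pow n
    have h3 : 3 * (j + 4) * 2 ^ n * β * n.factorial ≤ (4 * n) ^ n * β := by
      calc 3 * (j + 4) * 2 ^ n * β * n.factorial ≤ 2 ^ n * 2 ^ n * β * n ^ n := by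
            gcongr
        _ = (4 * n) ^ n * β := by
            rw [mul_pow, show (4 : ℕ) = 2 * 2 from rfl, mul_pow]
            ring
    have h4 : (0 : ℝ) < 4 * n := by positivity
    calc ((3 * (j + 4) * 2 ^ n * β * n.factorial : ℕ) : ℝ) ≤ (((4 * n) ^ n * β : ℕ) : ℝ) := by
          exact_mod_cast h3
      _ = (4 * (n : ℝ)) ^ n * β := by push_cast; ring
      _ ≤ (4 * (n : ℝ)) ^ n * Real.exp (33 / 100 * (C : ℝ) / ((r : ℝ) + 1)) :=
          mul_le_mul_of_nonneg_left hβ (by positivity)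
      _ = Real.exp (n * Real.log (4 * n) + 33 / 100 * (C : ℝ) / ((r : ℝ) + 1)) := by
          rw [Real.exp_add, mul_comm (n : ℝ) (Real.log (4 * n)), Real.exp_mul, Real.exp_log h4,
            Real.rpow_natCast]
  -- lower bound of the right hand side
  have hdiv : (C : ℝ) / n - 1 < ((C / n : ℕ) : ℝ) := by
    have h1 : C < n * (C / n) + n := by
      have := Nat.div_add_mod C n
      have h2 := Nat.mod_lt C (show 0 < n by omega)
      omega
    have h2 : (C : ℝ) < n * ((C / n : ℕ) : ℝ) + n := by exact_mod_cast h1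
    rw [sub_lt_iff_lt_add, div_lt_iff₀ hn0]
    linarith
  have hlog2 : (0 : ℝ) < Real.log 2 := Real.log_pos (by norm_num)
  have hlog2' : 0.6931471803 < Real.log 2 := Real.log_two_gt_d9
  have hlog2'' : Real.log 2 < 1 := by
    have := Real.log_two_lt_d9
    linarith
  have hright : Real.exp (Real.log 2 * ((C : ℝ) / n - 1)) ≤ ((2 ^ (C / n) : ℕ) : ℝ) := by
    have h1 : ((2 ^ (C / n) : ℕ) : ℝ) = Real.exp (Real.log 2 * ((C / n : ℕ) : ℝ)) := by
      rw [Real.exp_mul, Real.exp_log (by norm_num), Real.rpow_natCast]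
      push_cast
      rfl
    rw [h1, Real.exp_le_exp]
    exact mul_le_mul_of_nonneg_left hdiv.le hlog2.le
  -- the comparison
  have hmid : n * Real.log (4 * n) + 33 / 100 * (C : ℝ) / ((r : ℝ) + 1) <
      Real.log 2 * ((C : ℝ) / n - 1) := by
    have h1 : Real.log (4 * n) ≤ 4 * n := by
      have := Real.log_le_sub_one_of_pos (show (0 : ℝ) < 4 * n by positivity)
      linarith
    have h2 : (n : ℝ) * Real.log (4 * n) ≤ 4 * (n : ℝ) ^ 2 := by
      calc (n : ℝ) * Real.log (4 * n) ≤ n * (4 * n) := mul_le_mul_of_nonneg_left h1 hn0.le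
        _ = 4 * (n : ℝ) ^ 2 := by ring
    have h3 : (n : ℝ) ^ 2 ≤ 5 * (r : ℝ) ^ 2 := by
      have : (n : ℝ) ≤ 2.1 * r := by linarith
      nlinarith
    have h4 : 33 / 100 * (C : ℝ) / ((r : ℝ) + 1) ≤ 33 / 100 * (C / r) := by
      rw [mul_div_assoc]
      apply mul_le_mul_of_nonneg_left _ (by norm_num)
      exact div_le_div_of_nonneg_left hC0.le hr0 (by linarith)
    have h5 : Real.log 2 * ((C : ℝ) / n) ≥ 0.33006 * (C / r) := by
      have h6 : (C : ℝ) / n ≥ C / (2.1 * r) := by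
        apply div_le_div_of_nonneg_left hC0.le hn0
        linarith
      have h7 : (C : ℝ) / (2.1 * r) = (C / r) / 2.1 := by
        field_simp
      have h8 : (0 : ℝ) ≤ C / r := by positivity
      rw [h7] at h6
      have h9 : (0 : ℝ) ≤ C / n := by positivity
      have h10 : 0.6931471803 * ((C : ℝ) / n) ≤ Real.log 2 * ((C : ℝ) / n) :=
        mul_le_mul_of_nonneg_right hlog2'.le h9
      have h11 : 0.6931471803 * ((C : ℝ) / r / 2.1) ≤ 0.6931471803 * ((C : ℝ) / n) :=
        mul_le_mul_of_nonneg_left h6 (by norm_num)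
      have h12 : 0.33006 * ((C : ℝ) / r) ≤ 0.6931471803 * ((C : ℝ) / r / 2.1) := by
        have : 0.6931471803 * ((C : ℝ) / r / 2.1) = (0.6931471803 / 2.1) * (C / r) := by ring
        rw [this]
        apply mul_le_mul_of_nonneg_right _ h8
        norm_num
      linarith
    have h6 : (20 : ℝ) * (r : ℝ) ^ 2 + 1 < 0.00006 * (C / r) := by
      have h7 : (r : ℝ) ^ 2 < 1 / 1000000 * (C / r) := by
        have : (r : ℝ) ^ 2 = (r : ℝ) ^ 3 / r := by field_simp
        rw [this, mul_div_assoc', div_lt_div_iff_of_pos_right hr0]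
        exact hsmall
      have h8 : (1 : ℝ) ≤ (r : ℝ) ^ 2 := by
        have : (10 : ℝ) ≤ r := by exact_mod_cast hr2
        nlinarith
      linarith
    rw [mul_sub, mul_one]
    linarith
  have hfin : ((3 * (j + 4) * 2 ^ n * β * n.factorial : ℕ) : ℝ) < ((2 ^ (C / n) : ℕ) : ℝ) :=
    hleft.trans_lt ((Real.exp_lt_exp.mpr hmid).trans_le hright)
  exact_mod_cast hfin

end Pool.Agent.Work.MP_f3d170_lin
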