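import Pool.Agent.Work.MP_f3d170_lin.Interface

namespace Pool.Agent.Work.MP_f3d170_lin

theorem p_PHI (hA : Stmt_PHIA) (hB : Stmt_PHIB) : Stmt_PHI := by
  intro x ε hx hx1 hε hε1
  obtain ⟨k₁, hk₁⟩ := hB x ε hx hx1 hε hε1
  refine ⟨k₁, fun k r hk hr1 hr2 => ?_⟩
  obtain ⟨K, κ, δ, h1, h2, h3, h4, h5, h6, h7, h8, h9, h10⟩ := hk₁ k r hk hr1 hr2
  have hr0 : 0 < r := lt_of_lt_of_le (by positivity) hr1
  have hr : (1 : ℝ) < (r : ℝ) + 1 := by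
    have : (0 : ℝ) < r := by exact_mod_cast hr0
    linarith
  have hK : 0 ≤ K := by linarith
  obtain ⟨Φ, g1, g2, g3⟩ := hA x K κ ((r : ℝ) + 1) δ ((r + k + 2).choose (k + 2)) hx hx1 h1 h2 hr
    h3 h4 h5 h6 h7 h8
  exact ⟨⌊K⌋₊, Φ, fun i hi => g1 i ((Nat.le_floor_iff hK).1 hi), fun i d hi hiN hd hdd =>
    g2 i d ((Nat.floor_lt hK).1 hi) hiN hd ((h9 i ((Nat.floor_lt hK).1 hi)).trans hdd),
    g3.trans h10⟩

end Pool.Agent.Work.MP_f3d170_lin
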