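import Pool.Agent.Work.MP_f3d170_lin.Interface

/-! # Block PHIA: the potential (helper18) -/

set_option autoImplicit false

namespace Pool.Agent.Work.MP_f3d170_lin

/-- The potential. -/
noncomputable def PHIA_f (x K κ : ℝ) (i : ℕ) : ℝ :=
  (1 + x) ^ K * (max (i : ℝ) (K / 2) / K) ^ κ

theorem PHIA_log {z : ℝ} (h1 : 1 / 2 ≤ z) (h2 : z ≤ 1) :
    -(2 * Real.log 2) * (1 - z) ≤ Real.log z := by
  have hc := strictConcaveOn_log_Ioi.concaveOn.2
    (show (1 / 2 : ℝ) ∈ Set.Ioi (0 : ℝ) by norm_num)
    (show (1 : ℝ) ∈ Set.Ioi (0 : ℝ) by norm_num)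
    (show 0 ≤ 2 * (1 - z) by linarith) (show 0 ≤ 2 * z - 1 by linarith) (by ring)
  simp only [smul_eq_mul, Real.log_one, mul_zero, add_zero] at hc
  have e1 : 2 * (1 - z) * (1 / 2) + (2 * z - 1) * 1 = z := by ring
  rw [e1, one_div, Real.log_inv] at hc
  linarith

theorem PHIA_exp {y : ℝ} (h0 : 0 ≤ y) (h1 : y ≤ 1) : Real.exp (-y) ≤ 1 - y / 2 := by
  have hc := convexOn_exp.2 (Set.mem_univ (0 : ℝ)) (Set.mem_univ (-1 : ℝ))
    (show 0 ≤ 1 - y by linarith) h0 (by ring)
  simp only [smul_eq_mul, mul_zero, zero_add, Real.exp_zero, mul_one] at hc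
  have e1 : y * -1 = -y := by ring
  rw [e1] at hc
  have h2 : Real.exp (-1) ≤ 1 / 2 := by
    rw [Real.exp_neg, ← one_div]
    apply one_div_le_one_div_of_le (by norm_num)
    have := Real.add_one_le_exp (1 : ℝ)
    linarith
  nlinarith

theorem p_PHIA : Stmt_PHIA := by
  intro x K κ R δ N hx hx1 hκ hκK hR hδ hlog hRK hN hKN h2K
  have hK0 : 0 < K := by linarith
  have hκ0 : 0 < κ := by linarith
  have hx0 : 0 < 1 + x := by linarith
  have hx2 : 1 ≤ 1 + x := by linarith
  have hxK : 0 < (1 + x) ^ K := Real.rpow_pos_of_pos hx0 _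
  have hN0 : (0 : ℝ) < N := by linarith
  refine ⟨PHIA_f x K κ, ?_, ?_, ?_⟩
  · intro i hi
    set m : ℝ := max (i : ℝ) (K / 2) with hm
    have hm1 : (i : ℝ) ≤ m := le_max_left _ _
    have hm2 : K / 2 ≤ m := le_max_right _ _
    have hm3 : m ≤ K := max_le hi (by linarith)
    have hz0 : 0 < m / K := div_pos (by linarith) hK0
    have hz1 : 1 / 2 ≤ m / K := by
      rw [le_div_iff₀ hK0]
      linarith
    have hz2 : m / K ≤ 1 := by
      rw [div_le_one hK0]
      exact hm3
    have h1 := PHIA_log hz1 hz2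
    have e1 : (1 + x) ^ i = Real.exp (i * Real.log (1 + x)) := by
      rw [← Real.rpow_natCast, Real.rpow_def_of_pos hx0]
      congr 1
      ring
    have e2 : PHIA_f x K κ i = Real.exp (K * Real.log (1 + x) + κ * Real.log (m / K)) := by
      rw [PHIA_f, Real.rpow_def_of_pos hx0, Real.rpow_def_of_pos hz0, ← Real.exp_add]
      congr 1
      ring
    rw [e1, e2]
    apply Real.exp_le_exp.mpr
    have hl : 0 ≤ Real.log (1 + x) := Real.log_nonneg hx2
    have h2 : (i : ℝ) * Real.log (1 + x) ≤ m * Real.log (1 + x) :=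
      mul_le_mul_of_nonneg_right hm1 hl
    have h3 : κ * (-(2 * Real.log 2) * (1 - m / K)) ≤ κ * Real.log (m / K) :=
      mul_le_mul_of_nonneg_left h1 hκ0.le
    have h4 : κ * (2 * Real.log 2) * (1 - m / K) ≤ K * Real.log (1 + x) * (1 - m / K) :=
      mul_le_mul_of_nonneg_right hlog (by linarith)
    have h5 : K * Real.log (1 + x) * (1 - m / K) = K * Real.log (1 + x) - m * Real.log (1 + x) := by
      field_simp
    rw [h5] at h4
    linarith
  · intro i d hKi hiN hdi hd
    have hi0 : (0 : ℝ) < i := by linarith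
    have hi2 : 2 ≤ i := by
      have : (1 : ℝ) < i := by linarith
      have : 1 < i := by exact_mod_cast this
      omega
    have hi2r : (2 : ℝ) ≤ i := by exact_mod_cast hi2
    have hiNr : (i : ℝ) ≤ N := by exact_mod_cast hiN
    have ei1 : ((i - 1 : ℕ) : ℝ) = (i : ℝ) - 1 := by
      rw [Nat.cast_sub (by omega)]
      norm_num
    have ei2 : ((i - 1 - d : ℕ) : ℝ) = (i : ℝ) - 1 - d := by
      rw [Nat.cast_sub (by omega), ei1]
    -- value at `i`
    have hmi : max (i : ℝ) (K / 2) = i := max_eq_left (by linarith)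
    have hmi1 : max ((i - 1 : ℕ) : ℝ) (K / 2) = (i : ℝ) - 1 := by
      rw [ei1]
      apply max_eq_left
      rcases le_or_gt 2 K with h | h <;> linarith
    have hΦi : PHIA_f x K κ i = (1 + x) ^ K * ((i : ℝ) / K) ^ κ := by
      rw [PHIA_f, hmi]
    set Ψ : ℝ := (1 + x) ^ K * ((i : ℝ) / K) ^ κ with hΨ
    have hΨ0 : 0 < Ψ := mul_pos hxK (Real.rpow_pos_of_pos (div_pos hi0 hK0) _)
    have key : ∀ u : ℝ, 0 ≤ u → (1 + x) ^ K * (u / K) ^ κ = Ψ * (u / i) ^ κ := by
      intro u hu
      rw [hΨ, mul_assoc, ← Real.mul_rpow (by positivity) (by positivity)]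
      congr 2
      field_simp
    have hy0 : 0 ≤ κ / i := by positivity
    have hy1 : κ / i ≤ 1 := by
      rw [div_le_one hi0]
      linarith
    -- first term
    have t1 : PHIA_f x K κ (i - 1) ≤ Ψ * (1 - κ / i / 2) := by
      rw [PHIA_f, hmi1, key _ (by linarith)]
      apply mul_le_mul_of_nonneg_left _ hΨ0.le
      have h1 : ((i : ℝ) - 1) / i ≤ Real.exp (-(1 / i)) := by
        have := Real.add_one_le_exp (-(1 / (i : ℝ)))
        have e : ((i : ℝ) - 1) / i = -(1 / i) + 1 := by field_simp; ring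
        rw [e]
        exact this
      calc (((i : ℝ) - 1) / i) ^ κ ≤ (Real.exp (-(1 / i))) ^ κ :=
            Real.rpow_le_rpow (div_nonneg (by linarith) hi0.le) h1 hκ0.le
        _ = Real.exp (-(κ / i)) := by
            rw [← Real.exp_mul]
            congr 1
            ring
        _ ≤ 1 - κ / i / 2 := PHIA_exp hy0 hy1
    -- second term
    have t2 : PHIA_f x K κ (i - 1 - d) ≤ Ψ * (κ / i / 2) := by
      have hm0 : 0 ≤ max ((i - 1 - d : ℕ) : ℝ) (K / 2) := le_max_of_le_left (Nat.cast_nonneg _)
      rw [PHIA_f, key _ hm0]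
      apply mul_le_mul_of_nonneg_left _ hΨ0.le
      rcases le_total ((i - 1 - d : ℕ) : ℝ) (K / 2) with h | h
      · rw [max_eq_right h]
        have h1 : K / 2 / i ≤ 1 / 2 * (K / i) := by
          apply le_of_eq
          ring
        have hKi1 : K / i ≤ 1 := by
          rw [div_le_one hi0]
          exact hKi.le
        have hKi0 : 0 ≤ K / i := by positivity
        have h2 : (K / i) ^ κ ≤ K / i := by
          calc (K / i) ^ κ ≤ (K / i) ^ (1 : ℝ) :=
                Real.rpow_le_rpow_of_exponent_ge' hKi0 hKi1 zero_le_one hκ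
            _ = K / i := Real.rpow_one _
        have h3 : (0 : ℝ) < 2 ^ κ := Real.rpow_pos_of_pos (by norm_num) _
        calc (K / 2 / i) ^ κ ≤ (1 / 2 * (K / i)) ^ κ :=
              Real.rpow_le_rpow (by positivity) h1 hκ0.le
          _ = (1 / 2) ^ κ * (K / i) ^ κ := Real.mul_rpow (by norm_num) hKi0
          _ ≤ (1 / 2) ^ κ * (K / i) :=
              mul_le_mul_of_nonneg_left h2 (Real.rpow_nonneg (by norm_num) _)
          _ = K / (i * 2 ^ κ) := by
              rw [one_div, Real.inv_rpow (by norm_num)]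
              field_simp
          _ ≤ κ / i / 2 := by
              rw [div_div, div_le_div_iff₀ (by positivity) (by positivity)]
              nlinarith
      · rw [max_eq_left h, ei2]
        have h0 : (0 : ℝ) ≤ (i : ℝ) - 1 - d := by
          rw [← ei2]
          exact Nat.cast_nonneg _
        have h1 : ((i : ℝ) - 1 - d) / i ≤ Real.exp (-(d / i)) := by
          have := Real.add_one_le_exp (-((d : ℝ) / (i : ℝ)))
          have e : ((i : ℝ) - 1 - d) / i ≤ -(d / i) + 1 := by
            rw [div_le_iff₀ hi0]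
            have : (-((d : ℝ) / i) + 1) * i = i - d := by field_simp; ring
            rw [this]
            linarith
          exact e.trans this
        have h2 : 2 * Real.log R ≤ d / i * κ := by
          have h3 : δ / K ≤ d / i := by
            rw [div_le_div_iff₀ hK0 hi0]
            rw [div_le_iff₀ hK0] at hd
            exact hd
          have h4 : 2 * Real.log R ≤ δ / K * κ := by
            rw [div_mul_eq_mul_div, le_div_iff₀ hK0]
            linarith
          exact h4.trans (mul_le_mul_of_nonneg_right h3 hκ0.le)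
        have hR0 : 0 < R := by linarith
        calc (((i : ℝ) - 1 - d) / i) ^ κ ≤ (Real.exp (-(d / i))) ^ κ :=
              Real.rpow_le_rpow (div_nonneg h0 hi0.le) h1 hκ0.le
          _ = Real.exp (-(d / i * κ)) := by
              rw [← Real.exp_mul]
              congr 1
              ring
          _ ≤ Real.exp (-(2 * Real.log R)) := Real.exp_le_exp.mpr (by linarith)
          _ = (R ^ 2)⁻¹ := by
              rw [Real.exp_neg]
              congr 1
              rw [mul_comm, Real.exp_mul, Real.exp_log hR0]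
              norm_num
          _ ≤ κ / i / 2 := by
              rw [inv_eq_one_div, div_div, div_le_div_iff₀ (by positivity) (by positivity)]
              nlinarith [sq_nonneg R]
    rw [hΦi]
    have : Ψ * (1 - κ / i / 2) + Ψ * (κ / i / 2) = Ψ := by ring
    linarith
  · rw [PHIA_f, max_eq_left (by linarith)]

end Pool.Agent.Work.MP_f3d170_lin
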