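import Pool.Agent.Work.MP_f3d170_lin.Interface

/-! # Block PHIB: the parameters of the potential (helper58) -/

set_option autoImplicit false

open Set Matroid Filter

namespace Pool.Agent.Work.MP_f3d170_lin

/-- `log² x` is eventually small against `x` -/
theorem PHIB_log (c : ℝ) (hc : 0 < c) : ∃ k₁ : ℕ, ∀ k : ℕ, k₁ ≤ k →
    1 ≤ Real.log ((k : ℝ) + 3) ∧ Real.log ((k : ℝ) + 3) ^ 2 ≤ c * ((k : ℝ) + 2) := by
  have h1 : ∀ᶠ x : ℝ in atTop, ‖Real.log x ^ 2‖ ≤ (c / 2) * ‖id x‖ :=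
    (Real.isLittleO_pow_log_id_atTop (n := 2)).def (half_pos hc)
  have h2 : Tendsto (fun k : ℕ => (k : ℝ) + 3) atTop atTop :=
    tendsto_atTop_add_const_right _ _ tendsto_natCast_atTop_atTop
  have h3 := h2.eventually h1
  obtain ⟨k₁, hk₁⟩ := eventually_atTop.1 h3
  refine ⟨k₁, fun k hk => ⟨?_, ?_⟩⟩
  · rw [Real.le_log_iff_exp_le (by positivity)]
    have := Real.exp_one_lt_d9
    have hk0 : (0 : ℝ) ≤ k := Nat.cast_nonneg k
    linarith
  · have h := hk₁ k hk
    rw [Real.norm_of_nonneg (sq_nonneg _), id, Real.norm_of_nonneg (by positivity)] at h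
    have hk0 : (0 : ℝ) ≤ k := Nat.cast_nonneg k
    nlinarith

theorem PHIB_two (κ : ℝ) (h : 0 ≤ κ) : κ ≤ (2 : ℝ) ^ κ := by
  have h3 : (2 : ℝ) ^ κ = Real.exp (κ * Real.log 2) := by
    rw [Real.rpow_def_of_pos (by norm_num), mul_comm]
  have h4 := Real.add_one_le_exp (κ * Real.log 2 - 1)
  have h5 : Real.exp (κ * Real.log 2) = Real.exp 1 * Real.exp (κ * Real.log 2 - 1) := by
    rw [← Real.exp_add]; ring_nf
  have h6 := Real.exp_one_gt_d9
  have h7 := Real.log_two_gt_d9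
  have h8 : 1 ≤ 2.7 * Real.log 2 := by linarith
  have h9 : κ * Real.log 2 ≤ Real.exp (κ * Real.log 2 - 1) := by linarith
  have h10 : 0 ≤ κ * Real.log 2 := mul_nonneg h (by linarith)
  rw [h3, h5]
  calc κ ≤ κ * (2.7 * Real.log 2) := by
        have := mul_le_mul_of_nonneg_left h8 h
        linarith
    _ = 2.7 * (κ * Real.log 2) := by ring
    _ ≤ Real.exp 1 * Real.exp (κ * Real.log 2 - 1) := by
        apply mul_le_mul (by linarith) h9 h10 (Real.exp_pos _).le

/-- facts about `N = C(r+k+2,k+2)` -/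
theorem PHIB_N (r k : ℕ) :
    (((r + k + 2).choose (k + 1) : ℕ) : ℝ) * ((r : ℝ) + 1) =
      (((r + k + 2).choose (k + 2) : ℕ) : ℝ) * ((k : ℝ) + 2) ∧
    ((r : ℝ) + 2) * ((r : ℝ) + 1) ≤ 2 * (((r + k + 2).choose (k + 2) : ℕ) : ℝ) := by
  constructor
  · have h := Nat.choose_succ_right_eq (r + k + 2) (k + 1)
    have h2 : r + k + 2 - (k + 1) = r + 1 := by omega
    rw [h2] at h
    have h3 : (r + k + 2).choose (k + 1) * (r + 1) = (r + k + 2).choose (k + 2) * (k + 2) := h.symm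
    exact_mod_cast h3
  · have h1 : (r + 2).choose 2 ≤ (r + k + 2).choose (k + 2) := by
      have e1 : (r + 2).choose 2 = (r + 2).choose r := Nat.choose_symm_of_eq_add (by omega)
      have e2 : (r + k + 2).choose r = (r + k + 2).choose (k + 2) :=
        Nat.choose_symm_of_eq_add (by omega)
      rw [e1, ← e2]
      exact Nat.choose_le_choose r (by omega)
    have h2 : (r + 2).choose 2 * 2 = (r + 2) * (r + 1) := by
      rw [Nat.choose_two_right]
      have : 2 ∣ (r + 2) * (r + 2 - 1) := (Nat.even_mul_pred_self (r + 2)).two_dvd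
      rw [Nat.div_mul_cancel this]
      rfl
    have h3 : (r + 2) * (r + 1) ≤ 2 * (r + k + 2).choose (k + 2) := by
      rw [← h2, mul_comm]
      exact Nat.mul_le_mul_left 2 h1
    exact_mod_cast h3

/-- the conditions -/
theorem PHIB_core (e lx ε a r ρ u K κ N x : ℝ) (he : e = ε / 2) (hε : 0 < ε) (hε1 : ε ≤ 1)
    (hlx : 0 < lx) (hlx1 : lx ≤ 1) (ha : 2 ≤ a) (hra : 4 * a ^ 2 ≤ r) (hρ : 1 ≤ ρ)
    (hkey : 25 * ρ ^ 2 ≤ 2 * (lx * e * ε * a)) (hur : u * (r + 1) = N) (hu2 : r + 2 ≤ 2 * u)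
    (hK : K = (1 + e) * u) (hκ : κ * (a * e) = 2 * K * ρ) (hρr : Real.exp ρ = r + 1)
    (hx : 0 < 1 + x) (hlxx : Real.exp lx = 1 + x) :
    1 ≤ κ ∧ κ ≤ K ∧ 0 < a * e ∧ κ * (2 * Real.log 2) ≤ K * lx ∧ 2 * K * ρ ≤ κ * (a * e) ∧
    2 * N ≤ κ * (r + 1) ^ 2 ∧ K ≤ N ∧ 2 * K ≤ κ * 2 ^ κ ∧
    (∀ i : ℝ, K < i → a * e * i / K ≤ a ^ 2 * i / (a * u) - a) ∧
    (1 + x) ^ K * (N / K) ^ κ ≤ Real.exp ((lx + ε) * N / (r + 1)) := by
  have he0 : 0 < e := by rw [he]; positivity
  have he1 : e ≤ 1 / 2 := by rw [he]; linarith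
  have ha0 : 0 < a := by linarith
  have hae : 0 < a * e := mul_pos ha0 he0
  have hr0 : 16 ≤ r := by nlinarith
  have hr1 : 0 < r + 1 := by linarith
  have hu0 : 0 < u := by linarith
  have hK0 : 0 < K := by rw [hK]; positivity
  have hρ0 : 0 < ρ := by linarith
  have hρs : ρ ≤ ρ ^ 2 := by nlinarith
  have hp : 0 < lx * (a * e) := mul_pos hlx hae
  have h8 : 8 * ρ ≤ lx * (a * e) := by
    have h1 : lx * e * ε * a ≤ lx * (a * e) := by
      have : lx * e * ε * a = (lx * (a * e)) * ε := by ring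
      rw [this]
      exact mul_le_of_le_one_right hp.le hε1
    linarith
  have h8' : 8 * ρ ≤ a * e := h8.trans (mul_le_of_le_one_left hae.le hlx1)
  have hr25 : 25 * ρ ^ 2 ≤ 2 * (ε * (a * e)) := by
    have h1 : lx * e * ε * a ≤ ε * (a * e) := by
      have : lx * e * ε * a = lx * (ε * (a * e)) := by ring
      rw [this]
      exact mul_le_of_le_one_left (mul_pos hε hae).le hlx1
    linarith
  have hlog2 : 0 < Real.log 2 := Real.log_pos (by norm_num)
  have hlog2' : Real.log 2 < 1 := by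
    have := Real.log_two_lt_d9
    linarith
  have hKu : u ≤ K := by
    rw [hK]
    exact le_mul_of_one_le_left hu0.le (by linarith)
  have hκa : a ≤ κ := by
    have h1 : a * (a * e) ≤ κ * (a * e) := by
      rw [hκ]
      have h2 : a * (a * e) ≤ a * (a * 1) := by gcongr; linarith
      have h3 : 2 * u * 1 ≤ 2 * K * ρ := by gcongr
      have h4 : a * (a * 1) = a ^ 2 := by ring
      have h5 : a ^ 2 ≤ 2 * u := by
        have := sq_nonneg a
        linarith
      linarith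
    exact le_of_mul_le_mul_right h1 hae
  have hκ0 : 0 < κ := by linarith
  have hKN : K ≤ N := by
    rw [← hur, hK, mul_comm u]
    apply mul_le_mul_of_nonneg_right _ hu0.le
    linarith
  refine ⟨by linarith, ?_, hae, ?_, hκ.ge, ?_, hKN, ?_, ?_, ?_⟩
  · have h1 : κ * (a * e) ≤ K * (a * e) := by
      rw [hκ]
      calc 2 * K * ρ = K * (2 * ρ) := by ring
        _ ≤ K * (a * e) := mul_le_mul_of_nonneg_left (by linarith) hK0.le
    exact le_of_mul_le_mul_right h1 hae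
  · have h1 : κ * (2 * Real.log 2) * (a * e) ≤ K * lx * (a * e) := by
      calc κ * (2 * Real.log 2) * (a * e) = (κ * (a * e)) * (2 * Real.log 2) := by ring
        _ = (2 * K * ρ) * (2 * Real.log 2) := by rw [hκ]
        _ ≤ (2 * K * ρ) * 2 := by gcongr; linarith
        _ = K * (4 * ρ) := by ring
        _ ≤ K * (lx * (a * e)) := mul_le_mul_of_nonneg_left (by linarith) hK0.le
        _ = K * lx * (a * e) := by ring
    exact le_of_mul_le_mul_right h1 hae
  · have h1 : 2 * N * (a * e) ≤ κ * (r + 1) ^ 2 * (a * e) := by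
      have h2 : κ * (r + 1) ^ 2 * (a * e) = (2 * K * ρ) * (r + 1) ^ 2 := by
        rw [← hκ]; ring
      rw [h2]
      have h3 : 2 * N ≤ 2 * K * (r + 1) := by
        rw [← hur]
        calc 2 * (u * (r + 1)) = 2 * u * (r + 1) := by ring
          _ ≤ 2 * K * (r + 1) := by gcongr
      have h4 : a * e ≤ ρ * (r + 1) := by
        have h5 : a * e ≤ a * 1 := by gcongr; linarith
        have h6 : a ≤ a ^ 2 := by nlinarith
        have h7 : 1 * (r + 1) ≤ ρ * (r + 1) := by gcongr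
        have h9 := sq_nonneg a
        linarith
      calc 2 * N * (a * e) ≤ (2 * K * (r + 1)) * (ρ * (r + 1)) :=
            mul_le_mul h3 h4 hae.le (by positivity)
        _ = _ := by ring
    exact le_of_mul_le_mul_right h1 hae
  · have h1 := PHIB_two κ hκ0.le
    have h3 : 2 * K * (a * e) ≤ κ * 2 ^ κ * (a * e) := by
      have h4 : κ * (2 : ℝ) ^ κ * (a * e) = (2 * K) * (ρ * 2 ^ κ) := by
        rw [show κ * (2 : ℝ) ^ κ * (a * e) = (κ * (a * e)) * 2 ^ κ by ring, hκ]; ring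
      rw [h4]
      have h5 : a * e ≤ ρ * 2 ^ κ := by
        have h6 : a * e ≤ a * 1 := by gcongr; linarith
        have h7 : 1 * (2 : ℝ) ^ κ ≤ ρ * 2 ^ κ := by gcongr
        linarith
      exact mul_le_mul_of_nonneg_left h5 (by positivity)
    exact le_of_mul_le_mul_right h3 hae
  · intro i hi
    have hi' : 1 ≤ i / K := by
      rw [le_div_iff₀ hK0]; linarith
    have h2 : a ^ 2 * i / (a * u) = a * (1 + e) * (i / K) := by
      rw [hK]; field_simp
    have h3 : a * e * i / K = a * e * (i / K) := by ring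
    rw [h2, h3]
    have h4 : a * 1 ≤ a * (i / K) := by gcongr
    have h5 : a * (1 + e) * (i / K) = a * (i / K) + a * e * (i / K) := by ring
    linarith
  · have hN0 : 0 < N := by linarith
    have hNK : N / K ≤ r + 1 := by
      rw [div_le_iff₀ hK0, ← hur]
      calc u * (r + 1) ≤ K * (r + 1) := by gcongr
        _ = (r + 1) * K := by ring
    have h1 : (1 + x) ^ K = Real.exp (lx * K) := by
      rw [← hlxx, ← Real.exp_mul]
    have h2 : (N / K) ^ κ ≤ Real.exp (ρ * κ) := by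
      calc (N / K) ^ κ ≤ (r + 1) ^ κ :=
            Real.rpow_le_rpow (by positivity) hNK hκ0.le
        _ = Real.exp (ρ * κ) := by rw [← hρr, ← Real.exp_mul]
    have h3 : ρ * κ ≤ ε / 2 * u := by
      have h4 : ρ * κ * (a * e) ≤ ε / 2 * u * (a * e) := by
        calc ρ * κ * (a * e) = ρ * (κ * (a * e)) := by ring
          _ = ρ * (2 * K * ρ) := by rw [hκ]
          _ = (2 * ρ ^ 2 * (1 + e)) * u := by rw [hK]; ring
          _ ≤ (ε / 2 * (a * e)) * u := by
              apply mul_le_mul_of_nonneg_right _ hu0.le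
              have h5 : 2 * ρ ^ 2 * (1 + e) ≤ 2 * ρ ^ 2 * (3 / 2) := by gcongr; linarith
              have h6 : 0 ≤ ε * (a * e) := by positivity
              linarith
          _ = _ := by ring
      exact le_of_mul_le_mul_right h4 hae
    have h7 : lx * K ≤ lx * u + ε / 2 * u := by
      have h8 : lx * K = lx * u + lx * e * u := by rw [hK]; ring
      have h9 : lx * e * u ≤ 1 * e * u := by gcongr
      rw [h8, he] at *
      linarith
    calc (1 + x) ^ K * (N / K) ^ κ ≤ Real.exp (lx * K) * Real.exp (ρ * κ) := by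
          rw [h1]
          exact mul_le_mul_of_nonneg_left h2 (Real.exp_pos _).le
      _ = Real.exp (lx * K + ρ * κ) := by rw [Real.exp_add]
      _ ≤ Real.exp ((lx + ε) * N / (r + 1)) := by
          apply Real.exp_le_exp.2
          have h8 : (lx + ε) * N / (r + 1) = (lx + ε) * u := by
            rw [← hur]; field_simp
          rw [h8]
          linarith

theorem p_PHIB : Stmt_PHIB := by
  intro x ε hx hx1 hε hε1
  have hlx : 0 < Real.log (1 + x) := Real.log_pos (by linarith)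
  have hlx1 : Real.log (1 + x) ≤ 1 := by
    have h := Real.log_le_sub_one_of_pos (by linarith : (0 : ℝ) < 1 + x)
    linarith
  obtain ⟨k₁, hk₁⟩ := PHIB_log (Real.log (1 + x) * (ε / 2) * ε / 200) (by positivity)
  refine ⟨k₁, fun k r hk hr1 hr2 => ?_⟩
  obtain ⟨hl1, hl2⟩ := hk₁ k hk
  obtain ⟨hNs, hNl⟩ := PHIB_N r k
  have hk0 : (0 : ℝ) ≤ k := Nat.cast_nonneg k
  have hr0 : (0 : ℝ) ≤ r := Nat.cast_nonneg r
  have hrp : (0 : ℝ) < (r : ℝ) + 1 := by linarith
  have ha2 : (2 : ℝ) ≤ (k : ℝ) + 2 := by linarith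
  have hr1' : ((k : ℝ) + 2) ^ 4 ≤ (r : ℝ) := by exact_mod_cast hr1
  have hra2 : 4 * ((k : ℝ) + 2) ^ 2 ≤ r := by
    have h1 : 0 ≤ ((k : ℝ) + 2) ^ 2 - 4 := by nlinarith
    have h2 : 0 ≤ ((k : ℝ) + 2) ^ 2 * (((k : ℝ) + 2) ^ 2 - 4) := mul_nonneg (sq_nonneg _) h1
    have h3 : ((k : ℝ) + 2) ^ 2 * (((k : ℝ) + 2) ^ 2 - 4) =
      ((k : ℝ) + 2) ^ 4 - 4 * ((k : ℝ) + 2) ^ 2 := by ring
    linarith
  have hρ4 : Real.log ((r : ℝ) + 1) ≤ 4 * Real.log ((k : ℝ) + 3) := by
    have h1 : (r : ℝ) + 1 ≤ ((k : ℝ) + 3) ^ 4 := by exact_mod_cast hr2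
    calc Real.log ((r : ℝ) + 1) ≤ Real.log (((k : ℝ) + 3) ^ 4) := Real.log_le_log hrp h1
      _ = 4 * Real.log ((k : ℝ) + 3) := by rw [Real.log_pow]; norm_num
  have hρ1 : 1 ≤ Real.log ((r : ℝ) + 1) := by
    refine hl1.trans (Real.log_le_log (by positivity) ?_)
    nlinarith
  have hkey : 25 * Real.log ((r : ℝ) + 1) ^ 2 ≤
      2 * (Real.log (1 + x) * (ε / 2) * ε * ((k : ℝ) + 2)) := by
    have h1 : Real.log ((r : ℝ) + 1) ^ 2 ≤ (4 * Real.log ((k : ℝ) + 3)) ^ 2 :=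
      pow_le_pow_left₀ (by linarith) hρ4 2
    have h2 : (4 * Real.log ((k : ℝ) + 3)) ^ 2 = 16 * Real.log ((k : ℝ) + 3) ^ 2 := by ring
    have h3 : Real.log (1 + x) * (ε / 2) * ε / 200 * ((k : ℝ) + 2) =
      (Real.log (1 + x) * (ε / 2) * ε * ((k : ℝ) + 2)) / 200 := by ring
    rw [h2] at h1
    rw [h3] at hl2
    linarith
  set N : ℝ := (((r + k + 2).choose (k + 2) : ℕ) : ℝ) with hN
  have hur : N / ((r : ℝ) + 1) * ((r : ℝ) + 1) = N := by field_simp
  have hu2 : (r : ℝ) + 2 ≤ 2 * (N / ((r : ℝ) + 1)) := by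
    have : ((r : ℝ) + 2) * ((r : ℝ) + 1) ≤ (2 * (N / ((r : ℝ) + 1))) * ((r : ℝ) + 1) := by
      rw [mul_assoc 2, hur]; exact hNl
    exact le_of_mul_le_mul_right this hrp
  have hae : (((k : ℝ) + 2) * (ε / 2)) ≠ 0 := by positivity
  have hcore := PHIB_core (ε / 2) (Real.log (1 + x)) ε ((k : ℝ) + 2) r (Real.log ((r : ℝ) + 1))
    (N / ((r : ℝ) + 1)) ((1 + ε / 2) * (N / ((r : ℝ) + 1)))
    (2 * ((1 + ε / 2) * (N / ((r : ℝ) + 1))) * Real.log ((r : ℝ) + 1) / (((k : ℝ) + 2) * (ε / 2)))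
    N x rfl hε hε1 hlx hlx1 ha2 hra2 hρ1 hkey hur hu2 rfl (div_mul_cancel₀ _ hae)
    (Real.exp_log hrp) (by linarith) (Real.exp_log (by linarith))
  obtain ⟨c1, c2, c3, c4, c5, c6, c7, c8, c9, c10⟩ := hcore
  refine ⟨_, _, _, c1, c2, c3, c4, c5, c6, c7, c8, ?_, c10⟩
  intro i hi
  have h := c9 i hi
  have h1 : (((k + 2 : ℕ) : ℝ)) = (k : ℝ) + 2 := by push_cast; ring
  have hC : (((r + k + 2).choose (k + 1) : ℕ) : ℝ) = ((k : ℝ) + 2) * (N / ((r : ℝ) + 1)) := by
    field_simp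
    rw [hNs]
    ring
  rw [h1, hC]
  exact h

end Pool.Agent.Work.MP_f3d170_lin
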