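import Pool.Agent.Work.MP_f3d170_lin.Interface

open Set Matroid
open Pool.Agent.Work.MP_f3d170_co_h45
open Pool.Agent.Work.MP_f3d170_co_h78 (nb lev)
open Pool.Agent.Work.MP_f3d170_co_helper60b (trunc LR trunc_indep)

namespace Pool.Agent.Work.MP_f3d170_lin

theorem SCT_closure {n k : ℕ} {M M' : Matroid (Fin n)} (hE : M.E = M'.E)
    (h : trunc M (k + 1) = trunc M' (k + 1)) {I : Set (Fin n)} (hI : I.ncard ≤ k) :
    M.closure I ⊆ M'.closure I := by
  have hind : ∀ J : Set (Fin n), J.ncard ≤ k + 1 → (M.Indep J ↔ M'.Indep J) := by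
    intro J hJ
    have h1 : (trunc M (k + 1)).Indep J ↔ (trunc M' (k + 1)).Indep J := by rw [h]
    rw [trunc_indep, trunc_indep] at h1
    constructor
    · intro h2
      exact (h1.1 ⟨h2, hJ⟩).1
    · intro h2
      exact (h1.2 ⟨h2, hJ⟩).1
  obtain ⟨J, hJ⟩ := M.exists_isBasis' I
  have hJc : J.ncard ≤ k := (ncard_le_ncard hJ.subset (toFinite I)).trans hI
  have hJM' : M'.Indep J := (hind J (by omega)).1 hJ.indep
  intro e he
  rw [← hJ.closure_eq_closure] at he
  have h3 : e ∈ M'.closure J := by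
    by_cases heJ : e ∈ J
    · exact M'.subset_closure J hJM'.subset_ground heJ
    · rw [hJ.indep.mem_closure_iff_of_notMem heJ] at he
      rw [hJM'.mem_closure_iff_of_notMem heJ]
      have h4 : (insert e J).ncard ≤ k + 1 := (ncard_insert_le e J).trans (by omega)
      refine ⟨fun h5 => he.1 ((hind _ h4).2 h5), ?_⟩
      rw [← hE]
      exact he.2
  exact M'.closure_subset_closure hJ.subset h3

theorem p_SCT : Stmt_SCT := by
  intro n k D Q Q' h W
  have hE : Q.1.E = Q'.1.E := Q.2.1.trans Q'.2.1.symm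
  have key : ∀ I : Set (Fin n), I.ncard ≤ k → Q.1.closure I = Q'.1.closure I := fun I hI =>
    Subset.antisymm (SCT_closure hE h hI) (SCT_closure hE.symm h.symm hI)
  unfold scl
  congr 1
  ext K
  simp only [mem_ofPred_eq]
  constructor
  · rintro ⟨h1, h2⟩
    refine ⟨h1, fun I hI hIc => ?_⟩
    rw [← key I hIc]
    exact h2 I hI hIc
  · rintro ⟨h1, h2⟩
    refine ⟨h1, fun I hI hIc => ?_⟩
    rw [key I hIc]
    exact h2 I hI hIc

end Pool.Agent.Work.MP_f3d170_lin
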