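import Pool.Agent.Work.MP_f3d170_lin.Interface

/-! # SHEAR: the global count from the local ones -/

set_option autoImplicit false

open Set Matroid
open Pool.Agent.Work.MP_f3d170_co_h45

namespace Pool.Agent.Work.MP_f3d170_lin

theorem SHEAR_mem {n : ℕ} (N : Matroid (Fin n)) (X : Finset (Fin n)) :
    X ∈ Bf N ↔ N.IsBase (X : Set (Fin n)) := by
  unfold Bf
  simp

theorem SHEAR_inj {n ρ : ℕ} :
    Function.Injective (fun N : RankMatroid n ρ => Bf N.1) := by
  intro N N' h
  have h' : Bf N.1 = Bf N'.1 := h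
  apply Subtype.ext
  refine Matroid.ext_isBase (by rw [N.2.1, N'.2.1]) fun B _ => ?_
  have h1 := SHEAR_mem N.1 (Set.toFinite B).toFinset
  have h2 := SHEAR_mem N'.1 (Set.toFinite B).toFinset
  rw [Set.Finite.coe_toFinset] at h1 h2
  rw [← h1, ← h2, h']

theorem SHEAR_card {n ρ : ℕ} (N : RankMatroid n ρ) {X : Finset (Fin n)} (hX : X ∈ Bf N.1) :
    X.card = ρ := by
  have h := ((SHEAR_mem N.1 X).1 hX).encard_eq_eRank
  rw [N.2.2, Set.encard_coe_eq_coe_finsetCard] at h
  exact_mod_cast h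

theorem p_SHEAR (hFINNER : Stmt_FINNER) (hSLICE : Stmt_SLICE) (hFGV : Stmt_FGV) :
    Stmt_SHEAR := by
  classical
  intro n g k w x Z Λ hx hx1 hgn hZ S hS
  have : Finite (RankMatroid n (g + k + 1 + 1)) := Subtype.finite
  set μ : ℕ := (g + k + 2).choose g with hμ
  have hμ1 : 1 ≤ μ := Nat.choose_pos (by omega)
  have hμ0 : (0 : ℝ) < μ := by exact_mod_cast hμ1
  set 𝒢 : Finset (Finset (Fin n)) := (Finset.univ : Finset (Fin n)).powersetCard g with h𝒢
  set U : Finset (Finset (Fin n)) := (Finset.univ : Finset (Fin n)).powersetCard (g + k + 2)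
    with hU
  set R : Finset (Fin n) → Finset (Fin n) → Bool := fun G X => decide (G ⊆ X) with hR
  have hdeg : ∀ X ∈ U, (𝒢.filter (fun G => R G X)).card = μ := by
    intro X hX
    have h1 : 𝒢.filter (fun G => R G X) = X.powersetCard g := by
      ext G
      simp only [hR, h𝒢, Finset.mem_filter, Finset.mem_powersetCard, Finset.subset_univ, true_and,
        decide_eq_true_eq]
      tauto
    rw [h1, Finset.card_powersetCard, (Finset.mem_powersetCard.1 hX).2]
  have hf0 : ∀ (G : Finset (Fin n)) (y : Finset (Finset (Fin n))), 0 ≤ fG g k w x G y := by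
    intro G y
    unfold fG
    split_ifs
    · positivity
    · exact le_rfl
  have hF := hFINNER _ _ 𝒢 U R μ (fG g k w x) hμ1 hdeg hf0
  -- the right side
  have hfac : ∀ G ∈ 𝒢, ∑ y ∈ (U.filter (fun X => R G X)).powerset, fG g k w x G y ≤ 1 + Z := by
    intro G hG
    have hGc : G.card = g := (Finset.mem_powersetCard.1 hG).2
    refine (hSLICE n g k w x G hx hx1 hGc _).trans ?_
    have h1 : (Gᶜ : Finset (Fin n)).card = n - g := by
      rw [Finset.card_compl, Fintype.card_fin, hGc]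
    linarith [hZ Gᶜ h1]
  have hZ0 : 0 ≤ 1 + Z := by
    obtain ⟨G, hG⟩ : 𝒢.Nonempty := by
      rw [h𝒢, Finset.powersetCard_nonempty, Finset.card_univ, Fintype.card_fin]
      omega
    exact (Finset.sum_nonneg fun y _ => hf0 G y).trans (hfac G hG)
  have hcardG : 𝒢.card = n.choose g := by
    rw [h𝒢, Finset.card_powersetCard, Finset.card_univ, Fintype.card_fin]
  have hRt : ∏ G ∈ 𝒢, (∑ y ∈ (U.filter (fun X => R G X)).powerset, fG g k w x G y) ^
      ((1 : ℝ) / μ) ≤ (1 + Z) ^ ((n.choose g : ℝ) / μ) := by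
    calc ∏ G ∈ 𝒢, (∑ y ∈ (U.filter (fun X => R G X)).powerset, fG g k w x G y) ^ ((1 : ℝ) / μ)
        ≤ ∏ _G ∈ 𝒢, (1 + Z) ^ ((1 : ℝ) / μ) := by
          refine Finset.prod_le_prod (fun G _ => ?_) fun G hG => ?_
          · exact Real.rpow_nonneg (Finset.sum_nonneg fun y _ => hf0 G y) _
          · exact Real.rpow_le_rpow (Finset.sum_nonneg fun y _ => hf0 G y) (hfac G hG)
              (by positivity)
      _ = (1 + Z) ^ ((n.choose g : ℝ) / μ) := by
          rw [Finset.prod_const, hcardG, ← Real.rpow_natCast, ← Real.rpow_mul hZ0]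
          congr 1
          ring
  refine le_trans ?_ (hF.trans hRt)
  -- the left side
  set Φ : Finset (Finset (Fin n)) → ℝ := fun β =>
    ∏ G ∈ 𝒢, fG g k w x G (β.filter (fun X => R G X)) ^ ((1 : ℝ) / μ) with hΦ
  have hΦ0 : ∀ β, 0 ≤ Φ β := fun β =>
    Finset.prod_nonneg fun G _ => Real.rpow_nonneg (hf0 _ _) _
  have hΦN : ∀ N ∈ S, x ^ (Λ / (μ : ℝ)) ≤ Φ (Bf N.1) := by
    intro N hN
    have h1 : Φ (Bf N.1) =
        x ^ (((∑ G ∈ 𝒢, lamG N.1 G k w : ℕ) : ℝ) / (μ : ℝ)) := by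
      rw [hΦ]
      simp only
      have h2 : ∀ G ∈ 𝒢, fG g k w x G ((Bf N.1).filter (fun X => R G X)) ^ ((1 : ℝ) / μ) =
          x ^ ((lamG N.1 G k w : ℝ) / (μ : ℝ)) := by
        intro G hG
        have h3 : (Bf N.1).filter (fun X => R G X) = (Bf N.1).filter (fun X => G ⊆ X) := by
          refine Finset.filter_congr fun X _ => ?_
          simp only [hR, decide_eq_true_eq]
        rw [h3, hFGV n g k w x N G (Finset.mem_powersetCard.1 hG).2, ← Real.rpow_natCast,
          ← Real.rpow_mul hx.le]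
        congr 1
        ring
      rw [Finset.prod_congr rfl h2, ← Real.rpow_sum_of_pos hx, ← Finset.sum_div, Nat.cast_sum]
    rw [h1]
    refine Real.rpow_le_rpow_of_exponent_ge hx hx1 ?_
    exact div_le_div_of_nonneg_right (hS N hN) hμ0.le
  have hSf : S.Finite := Set.toFinite S
  rw [Set.ncard_eq_toFinset_card _ hSf, ← nsmul_eq_mul, ← Finset.sum_const]
  calc ∑ _N ∈ hSf.toFinset, x ^ (Λ / (μ : ℝ)) ≤ ∑ N ∈ hSf.toFinset, Φ (Bf N.1) :=
        Finset.sum_le_sum fun N hN => hΦN N ((Set.Finite.mem_toFinset _).1 hN)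
    _ = ∑ β ∈ hSf.toFinset.image (fun N : RankMatroid n (g + k + 1 + 1) => Bf N.1), Φ β := by
        rw [Finset.sum_image]
        intro N _ N' _ h
        exact SHEAR_inj h
    _ ≤ ∑ β ∈ U.powerset, Φ β := by
        refine Finset.sum_le_sum_of_subset_of_nonneg ?_ fun β _ _ => hΦ0 β
        intro β hβ
        obtain ⟨N, _, rfl⟩ := Finset.mem_image.1 hβ
        rw [Finset.mem_powerset]
        intro X hX
        rw [hU, Finset.mem_powersetCard]
        exact ⟨Finset.subset_univ _, SHEAR_card N hX⟩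

end Pool.Agent.Work.MP_f3d170_lin
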