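import Pool.Agent.Work.MP_f3d170_lin.Interface

/-! Block SLICE: the sum over one slice. -/

set_option autoImplicit false

open Set Matroid
open Pool.Agent.Work.MP_f3d170_co_h45
open Pool.Agent.Work.MP_f3d170_co_h78 (nb lev)

namespace Pool.Agent.Work.MP_f3d170_lin

theorem SLICE_pt (hLK : Stmt_LK) (n g k w : ℕ) (x : ℝ) (G : Finset (Fin n)) (hG : G.card = g)
    (y : Finset (Finset (Fin n))) (hy : y ≠ ∅) (hne : fG g k w x G y ≠ 0) :
    ∃ Q : LQ Gᶜ (k + 2), fG g k w x G y = x ^ lam Q.1 k w ∧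
      ∀ X : Finset (Fin n), X ∈ y ↔ G ⊆ X ∧ Q.1.IsBase ((X : Set (Fin n)) \ (G : Set (Fin n))) := by
  classical
  unfold fG at hne ⊢
  by_cases h : ∃ N : RankMatroid n (g + k + 1 + 1), (Bf N.1).filter (fun X => G ⊆ X) = y
  · rw [dif_pos h]
    have hspec := h.choose_spec
    set N := h.choose with hN
    obtain ⟨X0, hX0⟩ := Finset.nonempty_iff_ne_empty.2 hy
    rw [← hspec, Finset.mem_filter] at hX0
    have hB0 : N.1.IsBase (X0 : Set (Fin n)) := by
      have := hX0.1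
      unfold Bf at this
      rw [Finset.mem_filter] at this
      exact this.2
    have hGi : N.1.Indep (G : Set (Fin n)) := hB0.indep.subset (by exact_mod_cast hX0.2)
    obtain ⟨k1, k2⟩ := hLK n g k N G hG hGi
    refine ⟨⟨N.1 ／ (G : Set (Fin n)), k1, k2⟩, ?_, ?_⟩
    · unfold lamG
      rw [if_pos hGi]
    · intro X
      rw [← hspec, Finset.mem_filter]
      unfold Bf
      rw [Finset.mem_filter]
      show ((X ∈ Finset.univ ∧ N.1.IsBase (X : Set (Fin n))) ∧ G ⊆ X) ↔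
        G ⊆ X ∧ (N.1 ／ (G : Set (Fin n))).IsBase ((X : Set (Fin n)) \ (G : Set (Fin n)))
      rw [hGi.contract_isBase_iff]
      constructor
      · rintro ⟨⟨_, h1⟩, h2⟩
        refine ⟨h2, ?_, Set.disjoint_sdiff_left⟩
        rw [Set.diff_union_of_subset (by exact_mod_cast h2)]
        exact h1
      · rintro ⟨h2, h1, _⟩
        rw [Set.diff_union_of_subset (by exact_mod_cast h2)] at h1
        exact ⟨⟨Finset.mem_univ _, h1⟩, h2⟩
  · rw [dif_neg h] at hne
    exact absurd rfl hne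

theorem SLICE_le (n g k w : ℕ) (x : ℝ) (hx : 0 < x) (hx1 : x ≤ 1) (G : Finset (Fin n))
    (y : Finset (Finset (Fin n))) : 0 ≤ fG g k w x G y ∧ fG g k w x G y ≤ 1 := by
  classical
  unfold fG
  split_ifs
  · exact ⟨by positivity, pow_le_one₀ hx.le hx1⟩
  · exact ⟨le_refl _, zero_le_one⟩

theorem p_SLICE (_hWD : Stmt_WD) (hLK : Stmt_LK) (_hFGV : Stmt_FGV) : Stmt_SLICE := by
  intro n g k w x G hx hx1 hG 𝒴
  classical
  haveI : Fintype (LQ Gᶜ (k + 2)) := Fintype.ofFinite _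
  have hZs : Zs Gᶜ k w x = ∑ Q : LQ Gᶜ (k + 2), x ^ lam Q.1 k w := by
    unfold Zs
    rw [finsum_eq_sum_of_fintype]
  rw [hZs]
  set A := 𝒴.filter (fun y => y = ∅) with hA
  set B := 𝒴.filter (fun y => ¬ y = ∅) with hB
  have hsplit : ∑ y ∈ 𝒴, fG g k w x G y = ∑ y ∈ A, fG g k w x G y + ∑ y ∈ B, fG g k w x G y :=
    (Finset.sum_filter_add_sum_filter_not 𝒴 (fun y => y = ∅) _).symm
  have h1 : ∑ y ∈ A, fG g k w x G y ≤ 1 := by
    have hsub : A ⊆ {∅} := by
      intro y hy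
      rw [hA, Finset.mem_filter] at hy
      rw [Finset.mem_singleton]
      exact hy.2
    calc ∑ y ∈ A, fG g k w x G y ≤ ∑ y ∈ ({∅} : Finset (Finset (Finset (Fin n)))), fG g k w x G y :=
          Finset.sum_le_sum_of_subset_of_nonneg hsub fun y _ _ => (SLICE_le n g k w x hx hx1 G y).1
      _ ≤ 1 := by
          rw [Finset.sum_singleton]
          exact (SLICE_le n g k w x hx hx1 G ∅).2
  set C := B.filter (fun y => fG g k w x G y ≠ 0) with hC
  have h2 : ∑ y ∈ B, fG g k w x G y = ∑ y ∈ C, fG g k w x G y := by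
    rw [hC, Finset.sum_filter_ne_zero]
  have hex : ∀ y : {y // y ∈ C}, ∃ Q : LQ Gᶜ (k + 2), fG g k w x G y.1 = x ^ lam Q.1 k w ∧
      ∀ X : Finset (Fin n), X ∈ y.1 ↔ G ⊆ X ∧ Q.1.IsBase ((X : Set (Fin n)) \ (G : Set (Fin n))) := by
    rintro ⟨y, hy⟩
    rw [hC, Finset.mem_filter, hB, Finset.mem_filter] at hy
    exact SLICE_pt hLK n g k w x G hG y hy.1.2 hy.2
  choose φ hφ1 hφ2 using hex
  have hinj : Function.Injective φ := by
    intro y y' he
    apply Subtype.ext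
    ext X
    rw [hφ2 y X, hφ2 y' X, he]
  have h3 : ∑ y ∈ C, fG g k w x G y ≤ ∑ Q : LQ Gᶜ (k + 2), x ^ lam Q.1 k w := by
    rw [← Finset.sum_attach C]
    calc ∑ y ∈ C.attach, fG g k w x G y.1 = ∑ y ∈ C.attach, x ^ lam (φ y).1 k w :=
          Finset.sum_congr rfl fun y _ => hφ1 y
      _ = ∑ Q ∈ C.attach.image φ, x ^ lam Q.1 k w :=
          (Finset.sum_image (f := fun Q : LQ Gᶜ (k + 2) => x ^ lam Q.1 k w)
            (fun y _ y' _ he => hinj he)).symm
      _ ≤ ∑ Q : LQ Gᶜ (k + 2), x ^ lam Q.1 k w :=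
          Finset.sum_le_sum_of_subset_of_nonneg (Finset.subset_univ _) fun Q _ _ => by positivity
  rw [hsplit, h2]
  exact add_le_add h1 h3

end Pool.Agent.Work.MP_f3d170_lin
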