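import Pool.Agent.Work.MP_f3d170_lin.Interface

/-! Block SUMG: double counting of pairs `G ⊆ J`. -/

set_option autoImplicit false

open Set Matroid
open Pool.Agent.Work.MP_f3d170_co_h45
open Pool.Agent.Work.MP_f3d170_co_h78 (nb lev)
open Pool.Agent.Work.MP_f3d170_co_helper60b (trunc LR)

namespace Pool.Agent.Work.MP_f3d170_lin

open Classical in
theorem SUMG_ncard {n : ℕ} (P : Set (Fin n) → Prop) :
    {J : Set (Fin n) | P J}.ncard =
      ((Finset.univ : Finset (Finset (Fin n))).filter (fun J : Finset (Fin n) => P (J : Set (Fin n)))).card := by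
  rw [← Set.ncard_coe_finset]
  have : {J : Set (Fin n) | P J} = (fun J : Finset (Fin n) => (J : Set (Fin n))) ''
      (((Finset.univ : Finset (Finset (Fin n))).filter
        (fun J : Finset (Fin n) => P (J : Set (Fin n))) : Finset (Finset (Fin n))) : Set (Finset (Fin n))) := by
    ext J
    simp only [Set.mem_ofPred_eq, Finset.coe_filter, Finset.mem_univ, true_and, Set.mem_image]
    constructor
    · intro h
      exact ⟨J.toFinset, by simpa using h, by simp⟩
    · rintro ⟨J', h, rfl⟩
      exact h
  rw [this]
  exact Set.ncard_image_of_injective _ Finset.coe_injective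

theorem p_SUMG : Stmt_SUMG := by
  classical
  intro n g k w N
  have h1 : ∀ G ∈ (Finset.univ : Finset (Fin n)).powersetCard g,
      {J | J ∈ J2 N.1 (g + k + 1) k w ∧ (G : Set (Fin n)) ⊆ J}.ncard =
        ∑ J ∈ (Finset.univ : Finset (Finset (Fin n))).filter
          (fun J : Finset (Fin n) => (J : Set (Fin n)) ∈ J2 N.1 (g + k + 1) k w), if G ⊆ J then 1 else 0 := by
    intro G _
    rw [SUMG_ncard, ← Finset.card_filter, Finset.filter_filter]
    congr 1
    ext J
    simp
  rw [Finset.sum_congr rfl h1, Finset.sum_comm]
  have h2 : ∀ J ∈ (Finset.univ : Finset (Finset (Fin n))).filter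
      (fun J : Finset (Fin n) => (J : Set (Fin n)) ∈ J2 N.1 (g + k + 1) k w),
      (∑ G ∈ (Finset.univ : Finset (Fin n)).powersetCard g, if G ⊆ J then 1 else 0) =
        (g + k + 1).choose g := by
    intro J hJ
    have hJ' : J.card = g + k + 1 := by
      have := (Finset.mem_filter.mp hJ).2.2.1
      rwa [Set.ncard_coe_finset] at this
    rw [← Finset.card_filter]
    have : ((Finset.univ : Finset (Fin n)).powersetCard g).filter (fun G => G ⊆ J) =
        J.powersetCard g := by
      ext G
      simp only [Finset.mem_filter, Finset.mem_powersetCard, Finset.subset_univ, true_and]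
      tauto
    rw [this, Finset.card_powersetCard, hJ']
  rw [Finset.sum_congr rfl h2, Finset.sum_const, smul_eq_mul]
  congr 1
  have := SUMG_ncard (fun J : Set (Fin n) => J ∈ J2 N.1 (g + k + 1) k w)
  simpa using this.symm

end Pool.Agent.Work.MP_f3d170_lin
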