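import Pool.Agent.Work.MP_f3d170_lin.Interface

/-! # Block T3P (helper62) -/

set_option autoImplicit false

open Set Matroid
open Pool.Agent.Work.MP_f3d170_co_h45
open Pool.Agent.Work.MP_f3d170_co_h78 (nb lev)
open Pool.Agent.Work.MP_f3d170_co_helper60b (trunc LR)

namespace Pool.Agent.Work.MP_f3d170_lin

theorem T3P_cl {n : ℕ} {Q : Matroid (Fin n)} {k : ℕ} {H J : Set (Fin n)} (hH : H ∈ flatsOf Q k)
    (hJ : Q.Indep J) (hJH : J ⊆ H) (hc : J.ncard = k) : Q.closure J = H := by
  obtain ⟨I, hI, hIc, rfl⟩ := hH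
  obtain ⟨J', hJ', hJJ'⟩ := hJ.subset_isBasis_of_subset hJH (Q.closure_subset_ground I)
  have hIb : Q.IsBasis I (Q.closure I) := hI.isBasis_closure
  have hcard := ncard_eq_of_isBasis hIb hJ'
  have hEq : J = J' := Set.eq_of_subset_of_ncard_le hJJ' (by rw [← hcard, hIc, hc]) (Set.toFinite _)
  rw [hEq, hJ'.closure_eq_closure, Matroid.closure_closure]

theorem p_T3P : Stmt_T3P := by
  classical
  intro n k D Q
  have hch : ∀ H : Set (Fin n), ∃ X : Finset (Fin n), H ∈ T3 Q.1 k →
      (X : Set (Fin n)) ⊆ H ∧ Q.1.IsCircuit (X : Set (Fin n)) ∧ X.card = k + 2 ∧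
        scl Q.1 k (X : Set (Fin n)) = H := by
    intro H
    by_cases hH : H ∈ T3 Q.1 k
    · obtain ⟨-, -, X, h1, h2, h3, h4⟩ := hH
      have hXf : X.Finite := Set.toFinite X
      have hcoe : ((hXf.toFinset : Finset (Fin n)) : Set (Fin n)) = X := hXf.coe_toFinset
      refine ⟨hXf.toFinset, fun _ => ⟨?_, ?_, ?_, ?_⟩⟩
      · rw [hcoe]; exact h1
      · rw [hcoe]; exact h2
      · rw [← Set.ncard_eq_toFinset_card X hXf]; exact h3
      · rw [hcoe]; exact h4
    · exact ⟨∅, fun h => absurd h hH⟩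
  choose X hX using hch
  have hTf : (T3 Q.1 k).Finite := Set.toFinite _
  refine ⟨hTf.toFinset.image X, ?_, ?_, ?_, ?_⟩
  · intro Y hY
    rw [Finset.mem_image] at hY
    obtain ⟨H, hH, rfl⟩ := hY
    rw [Set.Finite.mem_toFinset] at hH
    rw [Finset.mem_powersetCard]
    refine ⟨?_, (hX H hH).2.2.1⟩
    intro x hx
    have := (hX H hH).2.1.subset_ground hx
    rw [Q.2.1] at this
    exact this
  · intro Y hY Z hZ hne
    rw [Finset.mem_image] at hY hZ
    obtain ⟨H, hH, rfl⟩ := hY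
    obtain ⟨H', hH', rfl⟩ := hZ
    rw [Set.Finite.mem_toFinset] at hH hH'
    by_contra hlt
    push Not at hlt
    obtain ⟨J, hJ, hJc⟩ := Finset.exists_subset_card_eq (show k + 1 ≤ (X H ∩ X H').card from hlt)
    have hJ1 : J ⊆ X H := hJ.trans Finset.inter_subset_left
    have hJ2 : J ⊆ X H' := hJ.trans Finset.inter_subset_right
    have hJn : (J : Set (Fin n)).ncard = k + 1 := by rw [Set.ncard_coe_finset]; exact hJc
    have hJi : Q.1.Indep (J : Set (Fin n)) := by
      refine (hX H hH).2.1.ssubset_indep (lt_of_le_of_ne (Finset.coe_subset.2 hJ1) ?_)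
      intro h
      have h5 := Finset.coe_injective h
      have h6 := (hX H hH).2.2.1
      rw [← h5, hJc] at h6
      omega
    have e1 := T3P_cl hH.1 hJi ((Finset.coe_subset.2 hJ1).trans (hX H hH).1) hJn
    have e2 := T3P_cl hH'.1 hJi ((Finset.coe_subset.2 hJ2).trans (hX H' hH').1) hJn
    exact hne (by rw [← e1, ← e2])
  · rw [Finset.card_image_of_injOn, Set.ncard_eq_toFinset_card _ hTf]
    intro H hH H' hH' he
    rw [Finset.mem_coe, Set.Finite.mem_toFinset] at hH hH'
    have he' : X H = X H' := he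
    rw [← (hX H hH).2.2.2, ← (hX H' hH').2.2.2, he']
  · ext H
    rw [Set.mem_image]
    constructor
    · intro hH
      refine ⟨X H, ?_, (hX H hH).2.2.2⟩
      rw [Finset.mem_coe, Finset.mem_image]
      exact ⟨H, by rw [Set.Finite.mem_toFinset]; exact hH, rfl⟩
    · rintro ⟨Y, hY, rfl⟩
      rw [Finset.mem_coe, Finset.mem_image] at hY
      obtain ⟨H, hH, rfl⟩ := hY
      rw [Set.Finite.mem_toFinset] at hH
      have e := (hX H hH).2.2.2
      show scl Q.1 k (X H : Set (Fin n)) ∈ T3 Q.1 k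
      rw [e]
      exact hH

end Pool.Agent.Work.MP_f3d170_lin
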