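import Pool.Agent.Work.MP_f3d170_lin.Interface
import Pool.Agent.Work.MP_f3d170_co_h78.B_TAIL
import Pool.Agent.Work.MP_f3d170_co_h78.B_CHAIN

set_option autoImplicit false

open Set Matroid
open Pool.Agent.Work.MP_f3d170_co_h45
open Pool.Agent.Work.MP_f3d170_co_h78 (nb lev)

namespace Pool.Agent.Work.MP_f3d170_lin

theorem p_TAIL3 : Stmt_TAIL3 := by
  intro n j 𝒩 h𝒩 hn
  have hT := Pool.Agent.Work.MP_f3d170_co_h78.stmt_TAIL Pool.Agent.Work.MP_f3d170_co_h78.stmt_CHAIN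
  -- the sum over the levels
  have e1 : ∑ M ∈ 𝒩, (n - (nonloops M.1).ncard - 3) * (flatsOf M.1 j).ncard =
      ∑ i ∈ Finset.Ico 3 n, ∑ M ∈ 𝒩 with (nonloops M.1).ncard + i < n, (flatsOf M.1 j).ncard := by
    have : ∀ M ∈ 𝒩, (n - (nonloops M.1).ncard - 3) * (flatsOf M.1 j).ncard =
        ∑ i ∈ Finset.Ico 3 n, if (nonloops M.1).ncard + i < n then (flatsOf M.1 j).ncard else 0 := by
      intro M _
      rw [← Finset.sum_filter, Finset.sum_const, smul_eq_mul]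
      congr 1
      have : (Finset.Ico 3 n).filter (fun i => (nonloops M.1).ncard + i < n) =
          Finset.Ico 3 (n - (nonloops M.1).ncard) := by
        ext i
        rw [Finset.mem_filter, Finset.mem_Ico, Finset.mem_Ico]
        omega
      rw [this, Nat.card_Ico]
    rw [Finset.sum_congr rfl this, Finset.sum_comm]
    apply Finset.sum_congr rfl
    intro i _
    rw [Finset.sum_filter]
  have h0 : (0 : ℝ) ≤ lev 𝒩 n := by positivity
  have e2 : ∀ i ∈ Finset.Ico 3 n,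
      ((∑ M ∈ 𝒩 with (nonloops M.1).ncard + i < n, (flatsOf M.1 j).ncard : ℕ) : ℝ) ≤
        2 * (lev 𝒩 n : ℝ) * ((2 : ℝ) / 3) ^ i := by
    intro i _
    have h1 := (hT n j i 𝒩 h𝒩 hn).1
    have h2 : (3 : ℝ) ^ i * ((∑ M ∈ 𝒩 with (nonloops M.1).ncard + i < n,
        (flatsOf M.1 j).ncard : ℕ) : ℝ) ≤ 2 * 2 ^ i * (lev 𝒩 n : ℝ) := by exact_mod_cast h1
    rw [div_pow]
    have h3 : (0 : ℝ) < 3 ^ i := by positivity
    rw [mul_div_assoc', le_div_iff₀ h3]
    linarith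
  have e3 : ((∑ i ∈ Finset.Ico 3 n, ∑ M ∈ 𝒩 with (nonloops M.1).ncard + i < n,
      (flatsOf M.1 j).ncard : ℕ) : ℝ) ≤ 2 * (lev 𝒩 n : ℝ) := by
    rw [Nat.cast_sum]
    refine (Finset.sum_le_sum e2).trans ?_
    rw [← Finset.mul_sum]
    rcases Nat.lt_or_ge n 3 with hn3 | hn3
    · have : Finset.Ico 3 n = ∅ := Finset.Ico_eq_empty (by omega)
      rw [this, Finset.sum_empty, mul_zero]
      linarith
    · rw [Pool.Agent.Work.MP_f3d170_co_h78.TAIL_geom 3 n hn3]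
      have h4 : (0 : ℝ) ≤ ((2 : ℝ) / 3) ^ n := by positivity
      have h5 : 3 * (((2 : ℝ) / 3) ^ 3 - ((2 : ℝ) / 3) ^ n) ≤ 1 := by
        have : ((2 : ℝ) / 3) ^ 3 = 8 / 27 := by norm_num
        rw [this]
        linarith
      nlinarith
  rw [e1]
  exact_mod_cast e3

end Pool.Agent.Work.MP_f3d170_lin
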