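import Pool.Agent.Work.MP_f3d170_lin.Interface

set_option autoImplicit false

open Set Matroid
open Pool.Agent.Work.MP_f3d170_co_h45

namespace Pool.Agent.Work.MP_f3d170_lin

/-- The bases through `G` determine the minor. -/
theorem p_WD : Stmt_WD := by
  intro n g k w N N' G _ hX
  classical
  have hX' : ∀ B : Set (Fin n), (G : Set (Fin n)) ⊆ B → (N.1.IsBase B ↔ N'.1.IsBase B) := by
    intro B hB
    have h := hX B.toFinset (by
      intro x hx
      exact Set.mem_toFinset.mpr (hB hx))
    rwa [Set.coe_toFinset] at h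
  have hI : N.1.Indep (G : Set (Fin n)) → N'.1.Indep (G : Set (Fin n)) := by
    intro h
    obtain ⟨B, hB, hGB⟩ := h.exists_isBase_superset
    exact ((hX' B hGB).mp hB).indep.subset hGB
  have hI' : N'.1.Indep (G : Set (Fin n)) → N.1.Indep (G : Set (Fin n)) := by
    intro h
    obtain ⟨B, hB, hGB⟩ := h.exists_isBase_superset
    exact ((hX' B hGB).mpr hB).indep.subset hGB
  have hE : N.1.E = N'.1.E := by rw [N.2.1, N'.2.1]
  have heq : N.1.Indep (G : Set (Fin n)) →
      N.1 ／ (G : Set (Fin n)) = N'.1 ／ (G : Set (Fin n)) := by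
    intro h
    have h' := hI h
    refine Matroid.ext_isBase ?_ ?_
    · rw [Matroid.contract_ground, Matroid.contract_ground, hE]
    · intro B _
      rw [h.contract_isBase_iff, h'.contract_isBase_iff, hX' (B ∪ G) Set.subset_union_right]
  refine ⟨?_, fun h => ⟨hI h, heq h⟩⟩
  unfold lamG
  by_cases h : N.1.Indep (G : Set (Fin n))
  · rw [if_pos h, if_pos (hI h), heq h]
  · rw [if_neg h, if_neg (fun h' => h (hI' h'))]

end Pool.Agent.Work.MP_f3d170_lin
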