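import Mathlib
import Pool.Agent.Work.MP_f3d170_lin.Assembly
import Pool.Agent.Work.MP_f3d170_lin.B_BADC
import Pool.Agent.Work.MP_f3d170_lin.B_BADJ
import Pool.Agent.Work.MP_f3d170_lin.B_CODE
import Pool.Agent.Work.MP_f3d170_lin.B_DEC
import Pool.Agent.Work.MP_f3d170_lin.B_DEG
import Pool.Agent.Work.MP_f3d170_lin.B_EXT
import Pool.Agent.Work.MP_f3d170_lin.B_FAM
import Pool.Agent.Work.MP_f3d170_lin.B_FGV
import Pool.Agent.Work.MP_f3d170_lin.B_FINL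
import Pool.Agent.Work.MP_f3d170_lin.B_FINNER
import Pool.Agent.Work.MP_f3d170_lin.B_GEN
import Pool.Agent.Work.MP_f3d170_lin.B_GIN
import Pool.Agent.Work.MP_f3d170_lin.B_HOL
import Pool.Agent.Work.MP_f3d170_lin.B_KINJ
import Pool.Agent.Work.MP_f3d170_lin.B_KMAIN
import Pool.Agent.Work.MP_f3d170_lin.B_KSUM
import Pool.Agent.Work.MP_f3d170_lin.B_LAM
import Pool.Agent.Work.MP_f3d170_lin.B_LK
import Pool.Agent.Work.MP_f3d170_lin.B_LOOPY
import Pool.Agent.Work.MP_f3d170_lin.B_N1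
import Pool.Agent.Work.MP_f3d170_lin.B_N2
import Pool.Agent.Work.MP_f3d170_lin.B_N3
import Pool.Agent.Work.MP_f3d170_lin.B_N4
import Pool.Agent.Work.MP_f3d170_lin.B_NBL
import Pool.Agent.Work.MP_f3d170_lin.B_NBS
import Pool.Agent.Work.MP_f3d170_lin.B_NBU
import Pool.Agent.Work.MP_f3d170_lin.B_NUMF
import Pool.Agent.Work.MP_f3d170_lin.B_PHI
import Pool.Agent.Work.MP_f3d170_lin.B_PHIA
import Pool.Agent.Work.MP_f3d170_lin.B_PHIB
import Pool.Agent.Work.MP_f3d170_lin.B_PREC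
import Pool.Agent.Work.MP_f3d170_lin.B_SCT
import Pool.Agent.Work.MP_f3d170_lin.B_SHEAR
import Pool.Agent.Work.MP_f3d170_lin.B_SLICE
import Pool.Agent.Work.MP_f3d170_lin.B_SUMG
import Pool.Agent.Work.MP_f3d170_lin.B_T3P
import Pool.Agent.Work.MP_f3d170_lin.B_TAIL3
import Pool.Agent.Work.MP_f3d170_lin.B_WD
import Pool.Agent.Work.MP_f3d170_co_h78.B_LOWER

/-! All blocks for MP_f3d170_co, linear range (note 2933). -/

set_option autoImplicit false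

open Set Matroid
open Pool.Agent.Work.MP_f3d170_co_h45

namespace Pool.Agent.Work.MP_f3d170_lin

theorem all_main : ∃ r₀ : ℕ, ∀ r n : ℕ, r₀ ≤ r → r ≤ n → 10 * n ≤ 21 * r →
    ∀ 𝒩 : Finset (RankMatroid n r), IsTransversal 𝒩 →
      ∑ M ∈ 𝒩, numCircuits M.1 < ∑ M ∈ 𝒩, numBases M.1 := by
  have hEXT := p_EXT
  have hGEN := p_GEN hEXT
  have hCODE := p_CODE hGEN p_NBU p_NBL p_NBS p_T3P
  have hKINJ := p_KINJ p_DEC p_SCT hCODE
  have hKSUM := p_KSUM p_LOOPY hKINJ p_FAM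
  have hPREC := p_PREC p_DEG
  have hPHI := p_PHI p_PHIA p_PHIB
  have hKMAIN := p_KMAIN hKSUM hPREC hPHI p_N1 p_N2 p_N3 p_N4
  have hFGV := p_FGV p_WD
  have hSLICE := p_SLICE p_WD p_LK hFGV
  have hSHEAR := p_SHEAR (p_FINNER p_HOL) hSLICE hFGV
  have hBADC := p_BADC (p_BADJ p_GIN) p_LAM p_SUMG hSHEAR hKMAIN
  exact final_main hBADC (p_FINL p_TAIL3) p_NUMF Pool.Agent.Work.MP_f3d170_co_h78.p_LOWER

end Pool.Agent.Work.MP_f3d170_lin
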