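import Pool.Agent.Work.MP_f3d170_lin.Interface
import Pool.Agent.Work.MP_f3d170_co_helper60.Assemble
import Pool.Agent.Work.MP_f3d170_co_h78.B_TAIL
import Pool.Agent.Work.MP_f3d170_co_h78.B_CHAIN

set_option autoImplicit false

open Set Matroid
open Pool.Agent.Work.MP_f3d170_co_h45
open Pool.Agent.Work.MP_f3d170_co_h78 (nb lev)

namespace Pool.Agent.Work.MP_f3d170_lin

theorem FINL_flats {n j : ℕ} (N : Matroid (Fin n)) : (flatsOf N j).ncard ≤ n.choose j := by
  have h1 : (flatsOf N j) ⊆ (fun I : Finset (Fin n) => N.closure (I : Set (Fin n))) ''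
      ((Finset.univ : Finset (Fin n)).powersetCard j : Set (Finset (Fin n))) := by
    rintro F ⟨I, hI, hc, hF⟩
    classical
    refine ⟨(Set.toFinite I).toFinset, ?_, ?_⟩
    · rw [Finset.mem_coe, Finset.mem_powersetCard]
      refine ⟨Finset.subset_univ _, ?_⟩
      rw [← hc, Set.ncard_eq_toFinset_card I (Set.toFinite I)]
    · simp only [Set.Finite.coe_toFinset]
      exact hF
  calc (flatsOf N j).ncard ≤ _ := Set.ncard_le_ncard h1 (Set.toFinite _)
    _ ≤ (((Finset.univ : Finset (Fin n)).powersetCard j : Finset (Finset (Fin n))) :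
          Set (Finset (Fin n))).ncard := Set.ncard_image_le (Set.toFinite _)
    _ = n.choose j := by
        rw [Set.ncard_coe_finset, Finset.card_powersetCard, Finset.card_univ, Fintype.card_fin]

open Classical in
/-- The pointwise inequality. -/
theorem FINL_pt {n j r t : ℕ} (hn : n = r + (j + 1)) (hj : j + 1 = r + t)
    (M : RankMatroid n (j + 1)) :
    (j + 1) * (flatsOf M.1 j).ncard +
        3 * (if (nonloops M.1).ncard = n then (flatsOf M.1 j).ncard else 0) ≤
      (j + 1) * numBases M.1 + (n - (nonloops M.1).ncard - 3) * (flatsOf M.1 j).ncard +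
        (if Bad t j M then (j + 4) * 2 ^ n else 0) := by
  have hh : (flatsOf M.1 j).ncard ≤ 2 ^ n := by
    calc (flatsOf M.1 j).ncard ≤ (Set.univ : Set (Set (Fin n))).ncard :=
          Set.ncard_le_ncard (Set.subset_univ _) (Set.toFinite _)
      _ = 2 ^ n := by
          rw [Set.ncard_univ, Nat.card_eq_fintype_card, Fintype.card_set, Fintype.card_fin]
  have hch : (flatsOf M.1 j).ncard ≤ n.choose j := FINL_flats M.1
  have hnl : (nonloops M.1).ncard ≤ n := by
    have := Set.ncard_le_ncard (Set.subset_univ (nonloops M.1)) (Set.toFinite _)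
    rwa [Set.ncard_univ, Nat.card_fin] at this
  by_cases hB : Bad t j M
  · rw [if_pos hB]
    set h := (flatsOf M.1 j).ncard with hhdef
    have h2 : (if (nonloops M.1).ncard = n then h else 0) ≤ h := by
      split_ifs <;> omega
    have h3 : (j + 4) * h ≤ (j + 4) * 2 ^ n := Nat.mul_le_mul_left _ hh
    have h4 : (j + 4) * h = (j + 1) * h + 3 * h := by ring
    have := Nat.zero_le ((j + 1) * numBases M.1)
    have := Nat.zero_le ((n - (nonloops M.1).ncard - 3) * h)
    omega
  · rw [if_neg hB]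
    unfold Bad at hB
    push Not at hB
    set h := (flatsOf M.1 j).ncard with hhdef
    set nl := (nonloops M.1).ncard with hnldef
    have h5 : (t + 2) * h ≤ (t + 2) * n.choose j := Nat.mul_le_mul_left _ hch
    have h6 : (nl - j) * h + (t + 2) * h ≤ (j + 1) * numBases M.1 := by omega
    have h7 : (nl - j) * h + (t + 2) * h = ((nl - j) + (t + 2)) * h := by ring
    by_cases hl : nl = n
    · rw [if_pos hl]
      have h8 : j + 4 ≤ (nl - j) + (t + 2) := by omega
      have h9 : (j + 4) * h ≤ ((nl - j) + (t + 2)) * h := Nat.mul_le_mul_right _ h8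
      have h10 : (j + 4) * h = (j + 1) * h + 3 * h := by ring
      have := Nat.zero_le ((n - nl - 3) * h)
      omega
    · rw [if_neg hl]
      have h8 : j + 1 ≤ ((nl - j) + (t + 2)) + (n - nl - 3) := by omega
      have h9 : (j + 1) * h ≤ (((nl - j) + (t + 2)) + (n - nl - 3)) * h :=
        Nat.mul_le_mul_right _ h8
      have h10 : (((nl - j) + (t + 2)) + (n - nl - 3)) * h =
          ((nl - j) + (t + 2)) * h + (n - nl - 3) * h := by ring
      omega

theorem p_FINL (hTAIL3 : Stmt_TAIL3) : Stmt_FINL := by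
  classical
  intro n j r t β 𝒩 h𝒩 hn hj ht hnj hbad hβ
  have hTAIL : Pool.Agent.Work.MP_f3d170_co_h78.Stmt_TAIL :=
    Pool.Agent.Work.MP_f3d170_co_h78.stmt_TAIL Pool.Agent.Work.MP_f3d170_co_h78.stmt_CHAIN
  obtain ⟨-, ht2⟩ := hTAIL n j 0 𝒩 h𝒩 hnj
  have ht3 := hTAIL3 n j 𝒩 h𝒩 hnj
  set V := lev 𝒩 n with hV
  have hc := Pool.Agent.Work.MP_f3d170_co_helper60.card_rankMatroid_le h𝒩
  have hV4 : (j + 4) * 2 ^ n * β < V := by
    have h1 : 3 * (j + 4) * 2 ^ n * β * n.factorial < 𝒩.card * n.factorial :=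
      lt_of_lt_of_le hβ hc
    have h2 : 3 * (j + 4) * 2 ^ n * β < 𝒩.card := Nat.lt_of_mul_lt_mul_right h1
    have h3 : 3 * (j + 4) * 2 ^ n * β = 3 * ((j + 4) * 2 ^ n * β) := by ring
    omega
  have hsum := Finset.sum_le_sum (s := 𝒩) fun M _ => FINL_pt hn hj M
  rw [Finset.sum_add_distrib, Finset.sum_add_distrib, Finset.sum_add_distrib, ← Finset.mul_sum,
    ← Finset.mul_sum, ← Finset.mul_sum, ← Finset.sum_filter, ← Finset.sum_filter] at hsum
  have hB : ∑ M ∈ 𝒩 with Bad t j M, (j + 4) * 2 ^ n ≤ (j + 4) * 2 ^ n * β := by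
    rw [Finset.sum_const, smul_eq_mul]
    have h1 : (𝒩.filter fun M => Bad t j M).card ≤ β := by
      refine le_trans ?_ hbad
      rw [← Set.ncard_coe_finset]
      refine Set.ncard_le_ncard ?_ (Set.toFinite _)
      intro M hM
      exact (Finset.mem_filter.1 (Finset.mem_coe.1 hM)).2
    calc (𝒩.filter fun M => Bad t j M).card * ((j + 4) * 2 ^ n)
        ≤ β * ((j + 4) * 2 ^ n) := Nat.mul_le_mul_right _ h1
      _ = (j + 4) * 2 ^ n * β := by ring
  have hVe : ∑ M ∈ 𝒩 with (nonloops M.1).ncard = n, (flatsOf M.1 j).ncard = V := rfl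
  rw [hVe] at hsum
  clear_value V
  have h5 : (j + 1) * ∑ M ∈ 𝒩, (flatsOf M.1 j).ncard < (j + 1) * ∑ M ∈ 𝒩, numBases M.1 := by
    omega
  exact Nat.lt_of_mul_lt_mul_left h5

end Pool.Agent.Work.MP_f3d170_lin
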