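import Pool.Agent.Work.MP_f3d170_lin.Interface

/-! Block N1: numerics (MP_f3d170_co, helper65). -/

set_option autoImplicit false

open Set Matroid
open Pool.Agent.Work.MP_f3d170_co_h45
open Pool.Agent.Work.MP_f3d170_co_h78 (nb lev)
open Pool.Agent.Work.MP_f3d170_co_helper60b (trunc LR)

namespace Pool.Agent.Work.MP_f3d170_lin

theorem N1_desc (m s : ℕ) (hs : s ≤ m) (K : ℕ) :
    (m - s).descFactorial K * m ^ K ≤ (m - s) ^ K * m.descFactorial K := by
  induction K with
  | zero => simp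
  | succ K ih =>
    rw [Nat.descFactorial_succ, Nat.descFactorial_succ, pow_succ, pow_succ]
    have h1 : (m - s - K) * m ≤ (m - s) * (m - K) := by
      rcases Nat.lt_or_ge (m - s) K with h | h
      · have : m - s - K = 0 := by omega
        rw [this, zero_mul]
        exact Nat.zero_le _
      · obtain ⟨a, ha⟩ := Nat.exists_eq_add_of_le h
        have h2 : m = s + K + a := by omega
        have h3 : m - s - K = a := by omega
        have h4 : m - s = K + a := ha
        have h5 : m - K = s + a := by omega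
        rw [h3, h4, h5, h2]
        nlinarith [Nat.zero_le (K * s)]
    calc (m - s - K) * (m - s).descFactorial K * (m ^ K * m) =
          ((m - s - K) * m) * ((m - s).descFactorial K * m ^ K) := by ring
      _ ≤ ((m - s) * (m - K)) * ((m - s) ^ K * m.descFactorial K) := Nat.mul_le_mul h1 ih
      _ = (m - s) ^ K * (m - s) * ((m - K) * m.descFactorial K) := by ring

theorem N1_choose (m s : ℕ) (hs : s ≤ m) (K : ℕ) :
    (m - s).choose K * m ^ K ≤ (m - s) ^ K * m.choose K := by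
  have h := N1_desc m s hs K
  rw [Nat.descFactorial_eq_factorial_mul_choose, Nat.descFactorial_eq_factorial_mul_choose] at h
  have h2 : K.factorial * ((m - s).choose K * m ^ K) ≤ K.factorial * ((m - s) ^ K * m.choose K) := by
    calc K.factorial * ((m - s).choose K * m ^ K) = K.factorial * (m - s).choose K * m ^ K := by ring
      _ ≤ (m - s) ^ K * (K.factorial * m.choose K) := h
      _ = K.factorial * ((m - s) ^ K * m.choose K) := by ring
  exact Nat.le_of_mul_le_mul_left h2 (Nat.factorial_pos K)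

/-- the ratio of the two binomial coefficients -/
theorem N1_ratio (m s : ℕ) (hs : s ≤ m) (hm : 0 < m) (h : m ≤ 1100 * s) (K : ℕ) :
    ((m - s).choose K : ℝ) ≤ Real.exp (-((K : ℝ) / 1100)) * (m.choose K : ℝ) := by
  have hm' : (0 : ℝ) < m := by exact_mod_cast hm
  have h1 : ((m - s).choose K : ℝ) * (m : ℝ) ^ K ≤ ((m : ℝ) - s) ^ K * (m.choose K : ℝ) := by
    have h2 := N1_choose m s hs K
    have h3 : (((m - s).choose K * m ^ K : ℕ) : ℝ) ≤ (((m - s) ^ K * m.choose K : ℕ) : ℝ) := by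
      exact_mod_cast h2
    push_cast [Nat.cast_sub hs] at h3
    exact h3
  have h4 : ((m : ℝ) - s) ≤ Real.exp (-(1 / 1100)) * m := by
    have h5 : 1 - (s : ℝ) / m ≤ Real.exp (-(1 / 1100)) := by
      have h6 : (1 : ℝ) / 1100 ≤ (s : ℝ) / m := by
        rw [div_le_div_iff₀ (by norm_num) hm']
        have : (m : ℝ) ≤ 1100 * s := by exact_mod_cast h
        linarith
      have h7 := Real.add_one_le_exp (-((s : ℝ) / m))
      have h8 : Real.exp (-((s : ℝ) / m)) ≤ Real.exp (-(1 / 1100)) := Real.exp_le_exp.2 (by linarith)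
      linarith
    have h9 : ((m : ℝ) - s) = (1 - (s : ℝ) / m) * m := by
      field_simp
    rw [h9]
    exact mul_le_mul_of_nonneg_right h5 hm'.le
  have h10 : ((m : ℝ) - s) ^ K ≤ (Real.exp (-(1 / 1100)) * m) ^ K := by
    refine pow_le_pow_left₀ ?_ h4 K
    have : (s : ℝ) ≤ m := by exact_mod_cast hs
    linarith
  have h11 : Real.exp (-(1 / 1100)) ^ K = Real.exp (-((K : ℝ) / 1100)) := by
    rw [← Real.exp_nat_mul]
    congr 1
    ring
  have h12 : ((m - s).choose K : ℝ) * (m : ℝ) ^ K ≤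
      (Real.exp (-((K : ℝ) / 1100)) * (m.choose K : ℝ)) * (m : ℝ) ^ K := by
    calc _ ≤ ((m : ℝ) - s) ^ K * (m.choose K : ℝ) := h1
      _ ≤ (Real.exp (-(1 / 1100)) * m) ^ K * (m.choose K : ℝ) :=
        mul_le_mul_of_nonneg_right h10 (Nat.cast_nonneg _)
      _ = _ := by rw [mul_pow, h11]; ring
  exact le_of_mul_le_mul_right h12 (pow_pos hm' K)

theorem N1_big (r K : ℕ) (hK : 4 ≤ K) : (r + 1) ^ 4 ≤ 24 * (r + K).choose K := by
  have h1 : (r + K).choose K = (r + K).choose r := (Nat.choose_symm_add).symm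
  have h2 : (r + 4).choose r ≤ (r + K).choose r := Nat.choose_le_choose r (by omega)
  have h3 : (r + 4).choose r = (r + 4).choose 4 := Nat.choose_symm_add
  have h4 := Nat.pow_sub_le_descFactorial (r + 4) 4
  rw [Nat.descFactorial_eq_factorial_mul_choose] at h4
  have h5 : r + 4 + 1 - 4 = r + 1 := by omega
  have h6 : Nat.factorial 4 = 24 := rfl
  rw [h5, h6] at h4
  rw [h1]
  rw [← h3] at h4
  omega

/-- the exponential beats the polynomial -/
theorem N1_exp (K : ℝ) (hK : 10 ^ 22 ≤ K) : Real.exp (-(K / 1100)) * (2000 * (K + 1) ^ 4) ≤ 1 := by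
  have hK0 : (0 : ℝ) < K := lt_of_lt_of_le (by norm_num) hK
  have h1 := Real.pow_div_factorial_le_exp (K / 1100) (by positivity) 5
  have h2 : 2000 * (K + 1) ^ 4 ≤ (K / 1100) ^ 5 / (Nat.factorial 5 : ℝ) := by
    have h3 : (K + 1) ^ 4 ≤ (2 * K) ^ 4 := by
      refine pow_le_pow_left₀ (by linarith) ?_ 4
      linarith [show (1 : ℝ) ≤ K from le_trans (by norm_num) hK]
    have h4 : (Nat.factorial 5 : ℝ) = 120 := by norm_num [Nat.factorial]
    rw [h4]
    have h5 : (K / 1100) ^ 5 / 120 = K ^ 4 * (K / (1100 ^ 5 * 120)) := by ring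
    rw [h5]
    have h6 : (32000 : ℝ) ≤ K / (1100 ^ 5 * 120) := by
      rw [le_div_iff₀ (by norm_num)]
      refine le_trans ?_ hK
      norm_num
    have h7 : 0 ≤ K ^ 4 := by positivity
    calc 2000 * (K + 1) ^ 4 ≤ 2000 * (2 * K) ^ 4 := by linarith
      _ = K ^ 4 * 32000 := by ring
      _ ≤ K ^ 4 * (K / (1100 ^ 5 * 120)) := mul_le_mul_of_nonneg_left h6 h7
  have h8 : 2000 * (K + 1) ^ 4 ≤ Real.exp (K / 1100) := h2.trans h1
  calc Real.exp (-(K / 1100)) * (2000 * (K + 1) ^ 4) ≤ Real.exp (-(K / 1100)) * Real.exp (K / 1100) :=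
        mul_le_mul_of_nonneg_left h8 (Real.exp_pos _).le
    _ = 1 := by rw [← Real.exp_add]; simp

theorem p_N1 : Stmt_N1 := by
  refine ⟨10 ^ 22, ?_⟩
  intro k r hk h1 h2
  set m := r + k + 2 with hm
  set s := r / 1000 + 1 with hs
  have hk4 : k + 2 ≤ (k + 2) ^ 4 := Nat.le_self_pow (by norm_num) _
  have hk5 : 10 * (k + 2) ≤ (k + 2) ^ 4 := by
    have h3 : 10 ≤ (k + 2) ^ 3 := by
      calc 10 ≤ 3 ^ 3 := by norm_num
        _ ≤ (k + 2) ^ 3 := Nat.pow_le_pow_left (by omega) 3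
    calc 10 * (k + 2) ≤ (k + 2) ^ 3 * (k + 2) := Nat.mul_le_mul_right _ h3
      _ = (k + 2) ^ 4 := by ring
  have hr10 : 10 * (k + 2) ≤ r := hk5.trans h1
  have hs1 : r < 1000 * s := by
    have := Nat.div_add_mod r 1000
    have := Nat.mod_lt r (show 0 < 1000 by norm_num)
    omega
  have hsm : s ≤ m := by
    have : r / 1000 ≤ r := Nat.div_le_self _ _
    omega
  have hm11 : m ≤ 1100 * s := by omega
  have hrat := N1_ratio m s hsm (by omega) hm11 (k + 2)
  have hbig : ((r : ℝ) + 1) ^ 4 ≤ 24 * ((m.choose (k + 2) : ℕ) : ℝ) := by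
    have h3 := N1_big r (k + 2) (by omega)
    have e : r + (k + 2) = m := by omega
    rw [e] at h3
    exact_mod_cast h3
  have hexp := N1_exp ((k + 2 : ℕ) : ℝ) (by
    have : 10 ^ 22 ≤ k + 2 := by omega
    exact_mod_cast this)
  set C : ℝ := ((m.choose (k + 2) : ℕ) : ℝ) with hC
  have hr1 : (0 : ℝ) < (r : ℝ) + 1 := by positivity
  have hC0 : 0 ≤ C := Nat.cast_nonneg _
  -- first part
  have hrk : (r : ℝ) + 1 ≤ (((k + 2 : ℕ) : ℝ) + 1) ^ 4 := by
    have h3 : r + 1 ≤ (k + 2 + 1) ^ 4 := h2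
    exact_mod_cast h3
  have hA : ((m - s).choose (k + 2) : ℝ) ≤ C / (2000 * ((r : ℝ) + 1)) := by
    rw [le_div_iff₀ (by positivity)]
    calc ((m - s).choose (k + 2) : ℝ) * (2000 * ((r : ℝ) + 1)) ≤
          (Real.exp (-(((k + 2 : ℕ) : ℝ) / 1100)) * C) * (2000 * (((k + 2 : ℕ) : ℝ) + 1) ^ 4) := by
          refine mul_le_mul hrat ?_ (by positivity) (by positivity)
          linarith
      _ = (Real.exp (-(((k + 2 : ℕ) : ℝ) / 1100)) * (2000 * (((k + 2 : ℕ) : ℝ) + 1) ^ 4)) * C := by ring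
      _ ≤ 1 * C := mul_le_mul_of_nonneg_right hexp hC0
      _ = C := one_mul C
  have hB : (m : ℝ) ≤ C / (2000 * ((r : ℝ) + 1)) := by
    rw [le_div_iff₀ (by positivity)]
    have h3 : (m : ℝ) ≤ 2 * ((r : ℝ) + 1) := by
      have : m ≤ 2 * (r + 1) := by omega
      exact_mod_cast this
    have h4 : (96000 : ℝ) ≤ ((r : ℝ) + 1) ^ 2 := by
      have h5 : (1000 : ℝ) ≤ (r : ℝ) + 1 := by
        have : 1000 ≤ r + 1 := by omega
        exact_mod_cast this
      nlinarith
    calc (m : ℝ) * (2000 * ((r : ℝ) + 1)) ≤ (2 * ((r : ℝ) + 1)) * (2000 * ((r : ℝ) + 1)) :=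
          mul_le_mul_of_nonneg_right h3 (by positivity)
      _ = (96000 * ((r : ℝ) + 1) ^ 2) / 24 := by ring
      _ ≤ (((r : ℝ) + 1) ^ 2 * ((r : ℝ) + 1) ^ 2) / 24 := by
          have h6 : 0 ≤ ((r : ℝ) + 1) ^ 2 := by positivity
          have h7 := mul_le_mul_of_nonneg_right h4 h6
          linarith
      _ = ((r : ℝ) + 1) ^ 4 / 24 := by ring
      _ ≤ C := by linarith
  have h2e : (2 : ℝ) ≤ Real.exp 1 := by
    have := Real.add_one_le_exp (1 : ℝ)
    linarith
  have hms : m - (r / 1000 + 1) = m - s := rfl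
  calc (2 : ℝ) ^ m * 2 ^ ((m - (r / 1000 + 1)).choose (k + 2)) =
        (2 : ℝ) ^ (m + (m - s).choose (k + 2)) := (pow_add (2 : ℝ) m ((m - s).choose (k + 2))).symm
    _ ≤ Real.exp 1 ^ (m + (m - s).choose (k + 2)) := pow_le_pow_left₀ (by norm_num) h2e _
    _ = Real.exp (((m + (m - s).choose (k + 2) : ℕ) : ℝ)) := Real.exp_one_pow _
    _ ≤ Real.exp (1 / 1000 * C / ((r : ℝ) + 1)) := by
      refine Real.exp_le_exp.2 ?_
      push_cast
      have e : 1 / 1000 * C / ((r : ℝ) + 1) = C / (2000 * ((r : ℝ) + 1)) + C / (2000 * ((r : ℝ) + 1)) := by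
        field_simp
        ring
      rw [e]
      linarith

end Pool.Agent.Work.MP_f3d170_lin
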